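import Pool.Agent.TH294.RS.Fin

/-!
Project RS (helper294): conformal metrics `ρ |dz|²`.
-/

set_option autoImplicit false
open MeasureTheory Filter Topology Complex
open scoped ContDiff ENNReal

namespace Pool.Agent.TH294.RS

open Pool.Agent.W745.RW

noncomputable section

/-- the normalised frame derivative `(λ ρ)^{-1/2} (∂x - i ∂y)` of the metric `ρ |dz|²` -/
def RD (ρ : ℂ → ℝ) (lam : ℝ) (f : ℂ → ℂ) (z : ℂ) : ℂ :=
  ((1 / √(lam * ρ z) : ℝ) : ℂ) * (dx f z - I * dy f z)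

/-- the sequence `W k`: `RD^k u` for `k ≥ 0` and `(-1)^k conj (RD^|k| u)` for `k < 0` -/
def WW (ρ : ℂ → ℝ) (lam : ℝ) (u : ℂ → ℝ) : ℤ → ℂ → ℂ
  | Int.ofNat k => (RD ρ lam)^[k] (fun w => (u w : ℂ))
  | Int.negSucc k => fun z => (-1) ^ (k + 1) *
      (starRingEnd ℂ) ((RD ρ lam)^[k + 1] (fun w => (u w : ℂ)) z)

/-- quantum ergodic sequences of eigenfunctions of the metric `ρ |dz|²` on `Ω` -/
structure QE (Ω : Set ℂ) (ρ : ℂ → ℝ) (lam : ℕ → ℝ) (u : ℕ → ℂ → ℝ) : Prop where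
  pos : ∀ n, 0 < lam n
  lim : Tendsto lam atTop atTop
  sρ : ContDiffOn ℝ ∞ ρ Ω
  pρ : ∀ z ∈ Ω, 0 < ρ z
  sm : ∀ n, ContDiffOn ℝ ∞ (u n) Ω
  eq : ∀ n, ∀ z ∈ Ω, lap (u n) z + lam n * (ρ z * u n z) = 0
  qe : ∀ φ, TF Ω φ → ∀ k : ℕ, Tendsto (fun n => ∫ z, ((φ z * ρ z : ℝ) : ℂ) * ((u n z : ℂ) *
    (RD ρ (lam n))^[k] (fun w => (u n w : ℂ)) z)) atTop
    (𝓝 (if k = 0 then ((∫ z, φ z * ρ z : ℝ) : ℂ) else 0))

lemma RD_eq (ρ : ℂ → ℝ) {lam : ℝ} (hl : 0 ≤ lam) :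
    RD ρ lam = DP (fun z => 1 / √(ρ z)) (1 / √lam) := by
  funext f z
  simp only [RD, DP, dd]
  have e : (1 / √(lam * ρ z) : ℝ) = (1 / √lam) * (1 / √(ρ z)) := by
    rw [Real.sqrt_mul hl, one_div, mul_inv, one_div, one_div]
  rw [e, ofReal_mul]
  ring

theorem QE.raw {Ω : Set ℂ} (hΩ : IsOpen Ω) {ρ : ℂ → ℝ} {lam : ℕ → ℝ} {u : ℕ → ℂ → ℝ}
    (H : QE Ω ρ lam u) : Raw Ω (fun z => 1 / √(ρ z)) (fun n => 1 / √(lam n)) u := by
  have hr : ∀ z ∈ Ω, 0 < √(ρ z) := fun z hz => Real.sqrt_pos.2 (H.pρ z hz)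
  refine ⟨fun n => div_pos one_pos (Real.sqrt_pos.2 (H.pos n)), ?_, ?_,
    fun z hz => div_pos one_pos (hr z hz), H.sm, fun n z hz => ?_, fun φ hφ k => ?_⟩
  · have : Tendsto (fun n => √(lam n)) atTop atTop := Real.tendsto_sqrt_atTop.comp H.lim
    exact (this.inv_tendsto_atTop).congr (fun n => by simp [one_div])
  · exact contDiffOn_const.div (H.sρ.sqrt fun z hz => (H.pρ z hz).ne') fun z hz => (hr z hz).ne'
  · have h1 := H.eq n z hz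
    have h2 : (1 / √(lam n)) ^ 2 = 1 / lam n := by
      rw [div_pow, Real.sq_sqrt (H.pos n).le, one_pow]
    have h3 : (1 / √(ρ z)) ^ 2 = 1 / ρ z := by
      rw [div_pow, Real.sq_sqrt (H.pρ z hz).le, one_pow]
    show (1 / √(lam n)) ^ 2 * ((1 / √(ρ z)) ^ 2 * lap (u n) z) + u n z = 0
    rw [h2, h3]
    have h4 := (H.pos n).ne'
    have h5 := (H.pρ z hz).ne'
    have h6 : lap (u n) z = - (lam n * (ρ z * u n z)) := by linarith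
    rw [h6]
    field_simp
    ring
  · have hi : ContDiffOn ℝ ∞ (fun z => (ρ z)⁻¹) Ω := H.sρ.inv fun z hz => (H.pρ z hz).ne'
    have hφ' := TF.mulc hΩ hφ hi
    have h1 := H.qe _ hφ' k
    have e : ∀ z, φ z * (ρ z)⁻¹ * ρ z = φ z := by
      intro z
      by_cases hz : z ∈ Ω
      · rw [mul_assoc, inv_mul_cancel₀ (H.pρ z hz).ne', mul_one]
      · rw [TF.zero hφ hz]; simp
    simp only [e] at h1
    refine h1.congr fun n => ?_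
    rw [RD_eq ρ (H.pos n).le]

lemma WW_eq (ρ : ℂ → ℝ) {lam : ℕ → ℝ} (hl : ∀ n, 0 < lam n) (u : ℕ → ℂ → ℝ) (k : ℤ) (n : ℕ)
    (z : ℂ) : ww (fun z => 1 / √(ρ z)) (fun n => 1 / √(lam n)) (fun n z => (u n z : ℂ)) k n z =
      WW ρ (lam n) (u n) k z := by
  cases k with
  | ofNat k =>
    show (DP (fun z => 1 / √(ρ z)) (1 / √(lam n)))^[k] (fun z => (u n z : ℂ)) z =
      (RD ρ (lam n))^[k] (fun z => (u n z : ℂ)) z
    rw [RD_eq ρ (hl n).le]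
  | negSucc k =>
    show (-1) ^ (k + 1) * (starRingEnd ℂ)
        ((DP (fun z => 1 / √(ρ z)) (1 / √(lam n)))^[k + 1] (fun z => (u n z : ℂ)) z) =
      (-1) ^ (k + 1) * (starRingEnd ℂ) ((RD ρ (lam n))^[k + 1] (fun z => (u n z : ℂ)) z)
    rw [RD_eq ρ (hl n).le]

/-- **Rigidity of the fourth order moments.** -/
theorem QE.mom {Ω : Set ℂ} (hΩ : IsOpen Ω) {ρ : ℂ → ℝ} {lam : ℕ → ℝ} {u : ℕ → ℂ → ℝ}
    (H : QE Ω ρ lam u) (hK : ∀ K : Set ℂ, IsCompact K → K ⊆ Ω →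
      ∃ C : ℝ, ∀ᶠ n in atTop, ∫ z in K, u n z ^ 4 ≤ C) {φ : ℂ → ℝ} (hφ : TF Ω φ)
    (a b c d : ℤ) (hs : a + b + c + d = 0) :
    Tendsto (fun n => (∫ z, ((φ z * ρ z : ℝ) : ℂ) * (WW ρ (lam n) (u n) a z *
        WW ρ (lam n) (u n) b z * WW ρ (lam n) (u n) c z * WW ρ (lam n) (u n) d z))
      - eps a b c d * ((∫ z, φ z * ρ z * u n z ^ 4 : ℝ) : ℂ)) atTop
      (𝓝 ((CC a b * CC c d + CC a c * CC b d + CC a d * CC b c - 3 * eps a b c d)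
        * ((∫ z, φ z * ρ z : ℝ) : ℂ))) := by
  have hφ' := TF.mulc hΩ hφ H.sρ
  have key := ((H.raw hΩ).as hΩ hK).mom4 hΩ hφ' a b c d hs
  refine key.congr fun n => ?_
  simp only [F4, WW_eq ρ H.pos u]
  congr 2
  rw [← integral_complex_ofReal]
  congr 1; funext z
  have : WW ρ (lam n) (u n) 0 z = (u n z : ℂ) := rfl
  rw [this]; push_cast; ring

end

end Pool.Agent.TH294.RS
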