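import Pool.Agent.TH294.RS.MK

/-!
Project RS (helper294): the ladder of an eigenfunction in a conformal metric.
-/

set_option autoImplicit false
open MeasureTheory Filter Topology Complex
open scoped ContDiff ENNReal

namespace Pool.Agent.TH294.RS

open Pool.Agent.W745.RW

noncomputable section

variable {B : Set ℂ} {h : ℕ → ℝ} {a : ℂ → ℝ}

/-- the sequence version of `DP` -/
def sP (a : ℂ → ℝ) (h : ℕ → ℝ) (f : ℕ → ℂ → ℂ) (n : ℕ) (z : ℂ) : ℂ := DP a (h n) (f n) z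
/-- the sequence version of `DM` -/
def sM (a : ℂ → ℝ) (h : ℕ → ℝ) (f : ℕ → ℂ → ℂ) (n : ℕ) (z : ℂ) : ℂ := DM a (h n) (f n) z

lemma cxa (ha : ContDiffOn ℝ ∞ a B) : ContDiffOn ℝ ∞ (fun z => (a z : ℂ)) B :=
  ofRealCLM.contDiff.comp_contDiffOn ha

lemma MK.sP (hB : IsOpen B) (hh : Tendsto h atTop (𝓝 0)) (ha : ContDiffOn ℝ ∞ a B) {k : ℕ}
    {f : ℕ → ℂ → ℂ} (H : MK B h (k + 1) f) : MK B h k (sP a h f) := by
  have h1 := H.2.1.smulc hB hh (cxa ha)
  have h2 := (H.2.2.smulc hB hh (cxa ha)).cmul hB hh I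
  refine (h1.sub hB hh h2).congr hB fun n z _ => ?_
  simp only [RS.sP, DP, dd, dx, dy, hd]; ring

lemma MK.sM (hB : IsOpen B) (hh : Tendsto h atTop (𝓝 0)) (ha : ContDiffOn ℝ ∞ a B) {k : ℕ}
    {f : ℕ → ℂ → ℂ} (H : MK B h (k + 1) f) : MK B h k (sM a h f) := by
  have h1 := H.2.1.smulc hB hh (cxa ha)
  have h2 := (H.2.2.smulc hB hh (cxa ha)).cmul hB hh I
  refine (h1.add hB h2).congr hB fun n z _ => ?_
  simp only [RS.sM, DM, db, dx, dy, hd]; ring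

/-- all semiclassical derivatives are bounded -/
def MC (B : Set ℂ) (h : ℕ → ℝ) (f : ℕ → ℂ → ℂ) : Prop := ∀ k, MK B h k f

lemma MC.sP (hB : IsOpen B) (hh : Tendsto h atTop (𝓝 0)) (ha : ContDiffOn ℝ ∞ a B)
    {f : ℕ → ℂ → ℂ} (H : MC B h f) : MC B h (sP a h f) := fun k => (H (k + 1)).sP hB hh ha
lemma MC.sM (hB : IsOpen B) (hh : Tendsto h atTop (𝓝 0)) (ha : ContDiffOn ℝ ∞ a B)
    {f : ℕ → ℂ → ℂ} (H : MC B h f) : MC B h (sM a h f) := fun k => (H (k + 1)).sM hB hh ha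
lemma MC.add (hB : IsOpen B) {f g : ℕ → ℂ → ℂ} (H : MC B h f) (G : MC B h g) :
    MC B h (fun n z => f n z + g n z) := fun k => (H k).add hB (G k)
lemma MC.sub (hB : IsOpen B) (hh : Tendsto h atTop (𝓝 0)) {f g : ℕ → ℂ → ℂ} (H : MC B h f)
    (G : MC B h g) : MC B h (fun n z => f n z - g n z) := fun k => (H k).sub hB hh (G k)
lemma MC.smulc (hB : IsOpen B) (hh : Tendsto h atTop (𝓝 0)) {f : ℕ → ℂ → ℂ} (H : MC B h f)
    {c : ℂ → ℂ} (hc : ContDiffOn ℝ ∞ c B) : MC B h (fun n z => c z * f n z) :=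
  fun k => (H k).smulc hB hh hc
lemma MC.cmul (hB : IsOpen B) (hh : Tendsto h atTop (𝓝 0)) {f : ℕ → ℂ → ℂ} (H : MC B h f)
    (c : ℂ) : MC B h (fun n z => c * f n z) := fun k => (H k).cmul hB hh c
lemma MC.conj (hB : IsOpen B) {f : ℕ → ℂ → ℂ} (H : MC B h f) :
    MC B h (fun n z => (starRingEnd ℂ) (f n z)) := fun k => (H k).conj hB

/-- the coefficient `∂̄ a` -/
def ab (a : ℂ → ℝ) (z : ℂ) : ℂ := db (fun z => (a z : ℂ)) z
/-- the coefficient `∂ a` -/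
def ad (a : ℂ → ℝ) (z : ℂ) : ℂ := dd (fun z => (a z : ℂ)) z

lemma ab_sm (hB : IsOpen B) (ha : ContDiffOn ℝ ∞ a B) : ContDiffOn ℝ ∞ (ab a) B :=
  (cfd hB (cxa ha) 1).add (contDiffOn_const.mul (cfd hB (cxa ha) I))
lemma ad_sm (hB : IsOpen B) (ha : ContDiffOn ℝ ∞ a B) : ContDiffOn ℝ ∞ (ad a) B :=
  (cfd hB (cxa ha) 1).sub (contDiffOn_const.mul (cfd hB (cxa ha) I))

lemma dd_sm (hB : IsOpen B) {f : ℂ → ℂ} (hf : ContDiffOn ℝ ∞ f B) : ContDiffOn ℝ ∞ (dd f) B :=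
  (cfd hB hf 1).sub (contDiffOn_const.mul (cfd hB hf I))
lemma db_sm (hB : IsOpen B) {f : ℂ → ℂ} (hf : ContDiffOn ℝ ∞ f B) : ContDiffOn ℝ ∞ (db f) B :=
  (cfd hB hf 1).add (contDiffOn_const.mul (cfd hB hf I))

lemma db_dd (hB : IsOpen B) {f : ℂ → ℂ} (hf : ContDiffOn ℝ ∞ f B) {z : ℂ} (hz : z ∈ B) :
    db (dd f) z = lap f z := by
  have e : ∀ v, fderiv ℝ (dd f) z v = fderiv ℝ (fun w => fderiv ℝ f w 1) z v -
      I * fderiv ℝ (fun w => fderiv ℝ f w I) z v := by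
    intro v
    have : dd f = fun w => fderiv ℝ f w 1 - I * fderiv ℝ f w I := rfl
    rw [this, fderiv_fun_sub (fda hB (cfd hB hf 1) hz)
      ((fda hB (cfd hB hf I) hz).const_mul I)]
    simp only [sub_apply]
    rw [fd_cm (fda hB (cfd hB hf I) hz)]
  have e0 : db (dd f) z = fderiv ℝ (dd f) z 1 + I * fderiv ℝ (dd f) z I := rfl
  have e1 : lap f z = fderiv ℝ (fun w => fderiv ℝ f w 1) z 1 +
    fderiv ℝ (fun w => fderiv ℝ f w I) z I := rfl
  rw [e0, e, e, e1, fd_comm hB hf hz 1 I]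
  have := I_sq
  linear_combination (-(fderiv ℝ (fun w => fderiv ℝ f w I) z I)) * this

lemma dd_db (hB : IsOpen B) {f : ℂ → ℂ} (hf : ContDiffOn ℝ ∞ f B) {z : ℂ} (hz : z ∈ B) :
    dd (db f) z = lap f z := by
  have e : ∀ v, fderiv ℝ (db f) z v = fderiv ℝ (fun w => fderiv ℝ f w 1) z v +
      I * fderiv ℝ (fun w => fderiv ℝ f w I) z v := by
    intro v
    have : db f = fun w => fderiv ℝ f w 1 + I * fderiv ℝ f w I := rfl
    rw [this, fderiv_fun_add (fda hB (cfd hB hf 1) hz)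
      ((fda hB (cfd hB hf I) hz).const_mul I)]
    simp only [add_apply]
    rw [fd_cm (fda hB (cfd hB hf I) hz)]
  have e0 : dd (db f) z = fderiv ℝ (db f) z 1 - I * fderiv ℝ (db f) z I := rfl
  have e1 : lap f z = fderiv ℝ (fun w => fderiv ℝ f w 1) z 1 +
    fderiv ℝ (fun w => fderiv ℝ f w I) z I := rfl
  rw [e0, e, e, e1, fd_comm hB hf hz 1 I]
  have := I_sq
  linear_combination (-(fderiv ℝ (fun w => fderiv ℝ f w I) z I)) * this

lemma db_cg (hB : IsOpen B) {f g : ℂ → ℂ} (e : ∀ z ∈ B, f z = g z) {z : ℂ} (hz : z ∈ B) :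
    db f z = db g z := by
  simp only [db, dx, dy, fd_cg hB e hz]
lemma dd_cg (hB : IsOpen B) {f g : ℂ → ℂ} (e : ∀ z ∈ B, f z = g z) {z : ℂ} (hz : z ∈ B) :
    dd f z = dd g z := by
  simp only [dd, dx, dy, fd_cg hB e hz]

lemma db_cm {f : ℂ → ℂ} {z : ℂ} (hf : DifferentiableAt ℝ f z) (c : ℂ) :
    db (fun w => c * f w) z = c * db f z := by
  simp only [db, dx, dy, fd_cm hf]; ring
lemma dd_cm {f : ℂ → ℂ} {z : ℂ} (hf : DifferentiableAt ℝ f z) (c : ℂ) :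
    dd (fun w => c * f w) z = c * dd f z := by
  simp only [dd, dx, dy, fd_cm hf]; ring

/-- `DM DP f` -/
lemma MP (hB : IsOpen B) (ha : ContDiffOn ℝ ∞ a B) (t : ℝ) {f : ℂ → ℂ} (hf : ContDiffOn ℝ ∞ f B)
    {z : ℂ} (hz : z ∈ B) : DM a t (DP a t f) z =
      (t : ℂ) ^ 2 * ((a z : ℂ) ^ 2 * lap f z) + (t : ℂ) * (ab a z * DP a t f z) := by
  have e1 : DM a t (DP a t f) z = (t : ℂ) * ((a z : ℂ) * db (DP a t f) z) := rfl
  have e2 : DP a t f = fun w => (t : ℂ) * ((a w : ℂ) * dd f w) := rfl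
  have d1 := fda hB (cxa ha) hz
  have d2 := fda hB (dd_sm hB hf) hz
  rw [e1, e2, db_cm (f := fun w => (a w : ℂ) * dd f w) (d1.mul d2), db_mul d1 d2, db_dd hB hf hz]
  simp only [ab]; ring

/-- `DP DM f` -/
lemma PM (hB : IsOpen B) (ha : ContDiffOn ℝ ∞ a B) (t : ℝ) {f : ℂ → ℂ} (hf : ContDiffOn ℝ ∞ f B)
    {z : ℂ} (hz : z ∈ B) : DP a t (DM a t f) z =
      (t : ℂ) ^ 2 * ((a z : ℂ) ^ 2 * lap f z) + (t : ℂ) * (ad a z * DM a t f z) := by
  have e1 : DP a t (DM a t f) z = (t : ℂ) * ((a z : ℂ) * dd (DM a t f) z) := rfl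
  have e2 : DM a t f = fun w => (t : ℂ) * ((a w : ℂ) * db f w) := rfl
  have d1 := fda hB (cxa ha) hz
  have d2 := fda hB (db_sm hB hf) hz
  rw [e1, e2, dd_cm (f := fun w => (a w : ℂ) * db f w) (d1.mul d2), dd_mul d1 d2, dd_db hB hf hz]
  simp only [ad]; ring

lemma DP_add {f g : ℂ → ℂ} {z : ℂ} (t : ℝ) (hf : DifferentiableAt ℝ f z)
    (hg : DifferentiableAt ℝ g z) (c : ℂ) :
    DP a t (fun w => - f w + c * g w) z = - DP a t f z + c * DP a t g z := by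
  have e : ∀ v, fderiv ℝ (fun w => - f w + c * g w) z v = - fderiv ℝ f z v + c * fderiv ℝ g z v := by
    intro v
    have h1 := (hf.hasFDerivAt.neg.add (hg.hasFDerivAt.const_mul c)).fderiv
    change fderiv ℝ (fun w => - f w + c * g w) z = _ at h1
    rw [h1]
    simp only [add_apply, neg_apply, smul_apply, smul_eq_mul]
  simp only [DP, dd, dx, dy, e]; ring

lemma DP_cg (hB : IsOpen B) (t : ℝ) {f g : ℂ → ℂ} (e : ∀ z ∈ B, f z = g z) {z : ℂ} (hz : z ∈ B) :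
    DP a t f z = DP a t g z := by
  simp only [DP]; rw [dd_cg hB e hz]

/-- the sequence `w k`, `k ≥ 0` -/
def wn (a : ℂ → ℝ) (h : ℕ → ℝ) (u : ℕ → ℂ → ℂ) (k : ℕ) (n : ℕ) : ℂ → ℂ := (DP a (h n))^[k] (u n)

lemma wn_succ (a : ℂ → ℝ) (h : ℕ → ℝ) (u : ℕ → ℂ → ℂ) (k n : ℕ) :
    wn a h u (k + 1) n = DP a (h n) (wn a h u k n) := by
  unfold wn; rw [Function.iterate_succ']; rfl

lemma MC.wn (hB : IsOpen B) (hh : Tendsto h atTop (𝓝 0)) (ha : ContDiffOn ℝ ∞ a B)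
    {u : ℕ → ℂ → ℂ} (H : MC B h u) (k : ℕ) : MC B h (RS.wn a h u k) := by
  induction k with
  | zero => exact H
  | succ k ih =>
    have : RS.wn a h u (k + 1) = RS.sP a h (RS.wn a h u k) := by
      funext n
      exact wn_succ a h u k n
    rw [this]; exact ih.sP hB hh ha

lemma MC.sm {f : ℕ → ℂ → ℂ} (H : MC B h f) (n : ℕ) : ContDiffOn ℝ ∞ (f n) B := (H 0).sm n

/-- the errors -/
lemma errs (hB : IsOpen B) (hh : Tendsto h atTop (𝓝 0)) (ha : ContDiffOn ℝ ∞ a B)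
    {u : ℕ → ℂ → ℂ} (H : MC B h u)
    (he : ∀ n, ∀ z ∈ B, (h n : ℂ) ^ 2 * ((a z : ℂ) ^ 2 * lap (u n) z) = - u n z) (k : ℕ) :
    ∃ E, MC B h E ∧ ∀ n, ∀ z ∈ B, DM a (h n) (wn a h u (k + 1) n) z =
      - wn a h u k n z + (h n : ℂ) * E n z := by
  induction k with
  | zero =>
    refine ⟨fun n z => ab a z * RS.wn a h u 1 n z, (H.wn hB hh ha 1).smulc hB hh (ab_sm hB ha),
      fun n z hz => ?_⟩

    have e0 : RS.wn a h u 0 n = u n := rfl
    show _ = - RS.wn a h u 0 n z + (h n : ℂ) * (ab a z * RS.wn a h u 1 n z)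
    rw [wn_succ, e0, MP hB ha (h n) (H.sm n) hz, he n z hz]
  | succ k ih =>
    obtain ⟨E, hE, hE'⟩ := ih
    refine ⟨fun n z => RS.sP a h E n z + (ab a z * RS.wn a h u (k + 2) n z -
      ad a z * RS.sM a h (RS.wn a h u (k + 1)) n z), ?_, fun n z hz => ?_⟩
    · exact (hE.sP hB hh ha).add hB (((H.wn hB hh ha (k + 2)).smulc hB hh (ab_sm hB ha)).sub hB hh
        (((H.wn hB hh ha (k + 1)).sM hB hh ha).smulc hB hh (ad_sm hB ha)))
    · have s1 := (H.wn hB hh ha (k + 1)).sm n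
      rw [wn_succ a h u (k + 1) n, MP hB ha (h n) s1 hz]
      have e1 := PM hB ha (h n) s1 hz
      have e2 : DP a (h n) (DM a (h n) (RS.wn a h u (k + 1) n)) z =
          DP a (h n) (fun w => - RS.wn a h u k n w + (h n : ℂ) * E n w) z :=
        DP_cg hB (h n) (hE' n) hz
      rw [DP_add (h n) (fda hB ((H.wn hB hh ha k).sm n) hz) (fda hB (hE.sm n) hz)] at e2
      have e3 : RS.wn a h u (k + 2) n z = DP a (h n) (RS.wn a h u (k + 1) n) z := by
        rw [wn_succ a h u (k + 1) n]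
      have e4 : RS.wn a h u (k + 1) n z = DP a (h n) (RS.wn a h u k n) z := by
        rw [wn_succ a h u k n]
      simp only [RS.sP, RS.sM]
      rw [e3]
      rw [← e4] at e2
      linear_combination (-1 : ℂ) * e1 + e2

/-- the ladder -/
def ww (a : ℂ → ℝ) (h : ℕ → ℝ) (u : ℕ → ℂ → ℂ) : ℤ → ℕ → ℂ → ℂ
  | Int.ofNat k => wn a h u k
  | Int.negSucc k => fun n z => (-1) ^ (k + 1) * (starRingEnd ℂ) (wn a h u (k + 1) n z)

lemma ww_nat (u : ℕ → ℂ → ℂ) (k : ℕ) : ww a h u (k : ℤ) = wn a h u k := rfl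

lemma ww_neg {u : ℕ → ℂ → ℂ} (hu : ∀ n z, (starRingEnd ℂ) (u n z) = u n z) (k : ℕ) (n : ℕ)
    (z : ℂ) : ww a h u (-(k : ℤ)) n z = (-1) ^ k * (starRingEnd ℂ) (wn a h u k n z) := by
  cases k with
  | zero =>
    have : wn a h u 0 n z = u n z := rfl
    rw [this, hu]
    simp only [pow_zero, one_mul]
    rfl
  | succ k =>
    have : (-((k + 1 : ℕ) : ℤ)) = Int.negSucc k := by omega
    rw [this]; rfl

lemma DP_conj (t : ℝ) {f : ℂ → ℂ} {z : ℂ} (hf : DifferentiableAt ℝ f z) :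
    DP a t (fun w => (starRingEnd ℂ) (f w)) z = (starRingEnd ℂ) (DM a t f z) := by
  simp only [DP, DM, dd, db, dx, dy, fd_conj hf, map_mul, map_add, conj_ofReal, conj_I]
  ring
lemma DM_conj (t : ℝ) {f : ℂ → ℂ} {z : ℂ} (hf : DifferentiableAt ℝ f z) :
    DM a t (fun w => (starRingEnd ℂ) (f w)) z = (starRingEnd ℂ) (DP a t f z) := by
  simp only [DP, DM, dd, db, dx, dy, fd_conj hf, map_mul, map_sub, conj_ofReal, conj_I]
  ring

lemma DP_cm (t : ℝ) {f : ℂ → ℂ} {z : ℂ} (hf : DifferentiableAt ℝ f z) (c : ℂ) :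
    DP a t (fun w => c * f w) z = c * DP a t f z := by
  simp only [DP, dd_cm hf]; ring
lemma DM_cm (t : ℝ) {f : ℂ → ℂ} {z : ℂ} (hf : DifferentiableAt ℝ f z) (c : ℂ) :
    DM a t (fun w => c * f w) z = c * DM a t f z := by
  simp only [DM, db_cm hf]; ring

lemma conj_da {f : ℂ → ℂ} {z : ℂ} (hf : DifferentiableAt ℝ f z) :
    DifferentiableAt ℝ (fun w => (starRingEnd ℂ) (f w)) z :=
  (conjCLE : ℂ →L[ℝ] ℂ).differentiableAt.comp z hf

/-- **The ladder is an approximate ladder system.** -/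
theorem mkAS (hB : IsOpen B) (hp : ∀ n, 0 < h n) (hh : Tendsto h atTop (𝓝 0))
    (ha : ContDiffOn ℝ ∞ a B) (hpa : ∀ z ∈ B, 0 < a z)
    {u : ℕ → ℂ → ℂ} (hu : ∀ n z, (starRingEnd ℂ) (u n z) = u n z) (hb : LB B 4 u)
    (he : ∀ n, ∀ z ∈ B, (h n : ℂ) ^ 2 * ((a z : ℂ) ^ 2 * lap (u n) z) = - u n z)
    (hqe : ∀ k : ℕ, WN B (fun n z => u n z * (DP a (h n))^[k] (u n) z - (if k = 0 then 1 else 0))) :
    AS B a h (ww a h u) := by
  have ha2 : ContDiffOn ℝ ∞ (fun z => ((a z : ℂ) ^ 2)⁻¹) B := by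
    refine ContDiffOn.inv ((cxa ha).pow 2) fun z hz => ?_
    have := (hpa z hz).ne'
    exact pow_ne_zero 2 (by exact_mod_cast this)
  have H : MC B h u := fun k => MK.sol hB hp hh hb ha2 (fun n z hz => by
    have h1 := he n z hz
    have h2 : (a z : ℂ) ^ 2 ≠ 0 := pow_ne_zero 2 (by exact_mod_cast (hpa z hz).ne')
    have h3 : hL h u n z = ((a z : ℂ) ^ 2)⁻¹ * ((h n : ℂ) ^ 2 * ((a z : ℂ) ^ 2 * lap (u n) z)) := by
      have h4 : ((a z : ℂ) ^ 2)⁻¹ * (a z : ℂ) ^ 2 = 1 := inv_mul_cancel₀ h2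
      simp only [hL]
      linear_combination (-((h n : ℂ) ^ 2 * lap (u n) z)) * h4
    rw [h3, h1]; ring) k
  have hzero : LB B 4 (fun (_ : ℕ) (_ : ℂ) => (0 : ℂ)) :=
    LB.const B 4 (c := fun _ => 0) contDiffOn_const
  have cjw : ∀ (k : ℕ) (c : ℂ), MC B h (fun n z => c * (starRingEnd ℂ) (wn a h u k n z)) :=
    fun k c => ((H.wn hB hh ha k).conj hB).cmul hB hh c
  have bd : ∀ k : ℤ, LB B 4 (ww a h u k) := by
    intro k
    rcases Int.eq_nat_or_neg k with ⟨m, rfl | rfl⟩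
    · exact (H.wn hB hh ha m) 0
    · refine LB.congr ((cjw m ((-1) ^ m)) 0) fun n z _ => ww_neg hu m n z
  refine ⟨hp, hh, ha, hpa, bd, ?_, ?_, ?_, hqe⟩
  · -- raising
    intro k
    rcases Int.eq_nat_or_neg k with ⟨m, rfl | rfl⟩
    · refine ⟨_, hzero, fun n z hz => ?_⟩
      have e1 : ((m : ℤ) + 1) = ((m + 1 : ℕ) : ℤ) := by push_cast; rfl
      rw [e1, ww_nat, ww_nat, wn_succ]
      simp
    · cases m with
      | zero =>
        refine ⟨_, hzero, fun n z hz => ?_⟩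
        have e1 : (-((0 : ℕ) : ℤ) + 1) = ((1 : ℕ) : ℤ) := by simp
        have e2 : (-((0 : ℕ) : ℤ)) = ((0 : ℕ) : ℤ) := by simp
        rw [e1, e2, ww_nat, ww_nat, wn_succ]
        simp
      | succ m =>
        obtain ⟨E, hE, hE'⟩ := errs hB hh ha H he m
        refine ⟨fun n z => (-1) ^ (m + 1) * (starRingEnd ℂ) (E n z),
          ((hE.conj hB).cmul hB hh _) 0, fun n z hz => ?_⟩
        have e1 : (-((m + 1 : ℕ) : ℤ) + 1) = -(m : ℤ) := by push_cast; ring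
        rw [e1, ww_neg hu]
        have e2 : ww a h u (-((m + 1 : ℕ) : ℤ)) n =
            fun z => (-1) ^ (m + 1) * (starRingEnd ℂ) (wn a h u (m + 1) n z) := by
          funext z; exact ww_neg hu (m + 1) n z
        have d := fda hB ((H.wn hB hh ha (m + 1)).sm n) hz
        rw [e2, DP_cm (h n) (conj_da d), DP_conj (h n) d, hE' n z hz, map_add, map_neg, map_mul,
          conj_ofReal]
        ring
  · -- lowering
    intro k
    rcases Int.eq_nat_or_neg k with ⟨m, rfl | rfl⟩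
    · cases m with
      | zero =>
        refine ⟨_, hzero, fun n z hz => ?_⟩
        have e1 : (((0 : ℕ) : ℤ) - 1) = -((1 : ℕ) : ℤ) := by simp
        rw [e1, ww_neg hu, ww_nat, wn_succ]
        have e2 : wn a h u 0 n = u n := rfl
        have d := fda hB (H.sm n) hz
        have e3 : u n = fun w => (starRingEnd ℂ) (u n w) := by
          funext w; exact (hu n w).symm
        have e4 : DM a (h n) (u n) z = (starRingEnd ℂ) (DP a (h n) (u n) z) := by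
          conv_lhs => rw [e3]
          exact DM_conj (h n) d
        rw [e2, e4]
        ring
      | succ m =>
        obtain ⟨E, hE, hE'⟩ := errs hB hh ha H he m
        refine ⟨E, hE 0, fun n z hz => ?_⟩
        have e1 : (((m + 1 : ℕ) : ℤ) - 1) = ((m : ℕ) : ℤ) := by push_cast; ring
        rw [e1, ww_nat, ww_nat]
        exact hE' n z hz
    · refine ⟨_, hzero, fun n z hz => ?_⟩
      have e1 : (-(m : ℤ) - 1) = -((m + 1 : ℕ) : ℤ) := by push_cast; ring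
      rw [e1, ww_neg hu, wn_succ]
      have e2 : ww a h u (-(m : ℤ)) n =
          fun z => (-1) ^ m * (starRingEnd ℂ) (wn a h u m n z) := by
        funext z; exact ww_neg hu m n z
      have d := fda hB ((H.wn hB hh ha m).sm n) hz
      rw [e2, DM_cm (h n) (conj_da d), DM_conj (h n) d, pow_succ]
      ring
  · -- conjugation
    intro k n z hz
    have hs : ∀ m : ℕ, ((-1 : ℂ) ^ m) * (-1) ^ m = 1 := by
      intro m; rw [← mul_pow]; simp
    rcases Int.eq_nat_or_neg k with ⟨m, rfl | rfl⟩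
    · rw [ww_neg hu, ww_nat, Int.natAbs_natCast, ← mul_assoc, hs, one_mul]
    · rw [neg_neg, ww_nat, Int.natAbs_neg, Int.natAbs_natCast, ww_neg hu, map_mul,
        conj_conj, map_pow, map_neg, map_one]

end

end Pool.Agent.TH294.RS
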