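import Pool.Agent.TH294.RS.Abs
import Pool.Agent.W311.RW.F
import Pool.Agent.W806.RW.Mo

/-!
Project RS (helper294): the lower bound for the fourth moment.
-/

set_option autoImplicit false
open MeasureTheory Filter Topology Complex
open scoped ContDiff

namespace Pool.Agent.TH294.RS

open Pool.Agent.W745.RW

noncomputable section

variable {B : Set ℂ} {a : ℂ → ℝ} {h : ℕ → ℝ} {w : ℤ → ℕ → ℂ → ℂ}

lemma AS.w0 (H : AS B a h w) (n : ℕ) (z : ℂ) (hz : z ∈ B) : ((w 0 n z).re : ℂ) = w 0 n z := by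
  have h5 := H.cj 0 n z hz
  simp only [Int.natAbs_zero, pow_zero, one_mul, neg_zero] at h5
  exact conj_eq_iff_re.1 h5

lemma AS.wj (H : AS B a h w) (j : ℕ) (n : ℕ) (z : ℂ) (hz : z ∈ B) :
    w (2 * (j : ℤ)) n z * w (-(2 * (j : ℤ))) n z = ((‖w (2 * (j : ℤ)) n z‖ ^ 2 : ℝ) : ℂ) := by
  have h4 := H.cj (2 * (j : ℤ)) n z hz
  have e1 : (2 * (j : ℤ)).natAbs = 2 * j := by omega
  have p1 : ((-1 : ℂ)) ^ (2 * j) = 1 := by rw [pow_mul]; norm_num
  rw [e1, p1, one_mul] at h4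
  rw [← h4, Complex.mul_conj, Complex.normSq_eq_norm_sq]

/-- **The lower bound** for the fourth moment of `w 0`. -/
theorem AS.low (H : AS B a h w) (hB : IsOpen B) {φ : ℂ → ℝ} (hφ : TF B φ) (hφ0 : ∀ z, 0 ≤ φ z)
    {ε : ℝ} (hε : 0 < ε) :
    ∀ᶠ n in atTop, 3 * (∫ z, φ z) - ε ≤ ∫ z, φ z * (w 0 n z).re ^ 4 := by
  obtain ⟨v, hv⟩ : ∃ v : ℕ → ℕ → ℂ → ℝ, ∀ n j z, v n j z = ‖w (2 * (j : ℤ)) n z‖ ^ 2 :=
    ⟨_, fun _ _ _ => rfl⟩
  obtain ⟨J, hJ⟩ : ∃ J : ℝ, J = ∫ z, φ z := ⟨_, rfl⟩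
  have hwc : ∀ n j, ContinuousOn (v n j) B := by
    intro n j
    have h0 := (H.bd (2 * (j : ℤ))).co n
    have h1 : v n j = fun z => ‖w (2 * (j : ℤ)) n z‖ ^ 2 := funext fun z => hv n j z
    rw [h1]
    exact (h0.norm).pow 2
  have IJ : Integrable (fun z => (φ z : ℂ)) :=
    (hφ.1.continuous.integrable_of_hasCompactSupport hφ.2.1).ofReal
  have h1 : ∀ j : ℕ, Tendsto (fun n => ∫ z, φ z * v n j z) atTop (𝓝 J) := by
    intro j
    have e := (H.two hB (2 * (j : ℤ)) (-(2 * (j : ℤ)))).nul φ hφ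
    have hab : (2*(j:ℤ)).natAbs = 2*j := by omega
    have hCC : CC (2*(j:ℤ)) (-(2*(j:ℤ))) = 1 := by
      unfold CC
      rw [if_pos (by ring), hab, pow_mul]
      simp
    rw [hCC] at e
    have e2 : ∀ n, ∫ z, (φ z : ℂ) * (w (2*(j:ℤ)) n z * w (-(2*(j:ℤ))) n z - 1) =
        (((∫ z, φ z * v n j z) - J : ℝ) : ℂ) := by
      intro n
      have i1 : Integrable (fun z => φ z * v n j z) := Pool.Agent.W311.RW.int_mul hB hφ (hwc n j)
      have i2 : Integrable φ := hφ.1.continuous.integrable_of_hasCompactSupport hφ.2.1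
      rw [hJ, ← integral_sub i1 i2, ← integral_complex_ofReal]
      congr 1; funext z
      by_cases hz : z ∈ B
      · rw [H.wj j n z hz, hv]; push_cast; ring
      · rw [TF.zero hφ hz]; simp
    have e' := e.congr e2
    have e4 := (Complex.continuous_re.tendsto _).comp e'
    simp only [Complex.zero_re, Function.comp_def, Complex.ofReal_re] at e4
    have e5 := e4.add_const J
    simpa using e5
  have hI : ∀ n j k, Integrable (fun z => φ z * (v n j z * v n k z)) := fun n j k =>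
    Pool.Agent.W311.RW.int_mul hB hφ ((hwc n j).mul (hwc n k))
  have hI1 : ∀ n j, Integrable (fun z => φ z * v n j z) := fun n j =>
    Pool.Agent.W311.RW.int_mul hB hφ (hwc n j)
  have hI0 : Integrable φ := hφ.1.continuous.integrable_of_hasCompactSupport hφ.2.1
  have hM : ∀ j k : ℕ, 1 ≤ j → 1 ≤ k → Tendsto (fun n => (∫ z, φ z * (v n j z * v n k z)) -
      ∫ z, φ z * (w 0 n z).re ^ 4) atTop (𝓝 (if j = k then - J else - 2 * J)) := by
    intro j k hj hk
    have e := H.mom4 hB hφ (2 * (j : ℤ)) (-(2 * (j : ℤ))) (2 * (k : ℤ)) (-(2 * (k : ℤ))) (by ring)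
    have g : GG (2 * (j : ℤ)) (-(2 * (j : ℤ))) (2 * (k : ℤ)) (-(2 * (k : ℤ))) =
      1 + if j = k then 1 else 0 := Pool.Agent.W806.RW.GGjk j k hj hk
    have ep : eps (2 * (j : ℤ)) (-(2 * (j : ℤ))) (2 * (k : ℤ)) (-(2 * (k : ℤ))) = 1 := by
      unfold eps
      rw [if_pos]
      refine ⟨?_, ?_, ?_⟩ <;> omega
    rw [g, ep] at e
    have e2 : ∀ n, (∫ z, (φ z : ℂ) * F4 w (2 * (j : ℤ)) (-(2 * (j : ℤ))) (2 * (k : ℤ))
        (-(2 * (k : ℤ))) n z) - 1 * ∫ z, (φ z : ℂ) * F4 w 0 0 0 0 n z =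
        (((∫ z, φ z * (v n j z * v n k z)) - ∫ z, φ z * (w 0 n z).re ^ 4 : ℝ) : ℂ) := by
      intro n
      rw [one_mul, ofReal_sub, ← integral_complex_ofReal, ← integral_complex_ofReal]
      congr 1
      · congr 1; funext z
        by_cases hz : z ∈ B
        · have a1 := H.wj j n z hz
          have a2 := H.wj k n z hz
          simp only [F4]
          rw [a1, mul_assoc (((‖w (2 * (j : ℤ)) n z‖ ^ 2 : ℝ) : ℂ)), a2, hv, hv]
          push_cast; ring
        · rw [TF.zero hφ hz]; simp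
      · congr 1; funext z
        by_cases hz : z ∈ B
        · have a1 := H.w0 n z hz
          simp only [F4]
          conv_lhs => rw [← a1]
          push_cast; ring
        · rw [TF.zero hφ hz]; simp
    have e' := e.congr e2
    have e4 := (Complex.continuous_re.tendsto _).comp e'
    simp only [Function.comp_def, Complex.ofReal_re] at e4
    refine e4.trans_eq ?_
    congr 1
    rw [← hJ]
    split_ifs with hjk
    · rw [show ((1 : ℂ) + 1 - 3 * 1) * (J : ℂ) = ((-J : ℝ) : ℂ) by push_cast; ring, ofReal_re]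
    · rw [show ((1 : ℂ) + 0 - 3 * 1) * (J : ℂ) = ((-2 * J : ℝ) : ℂ) by push_cast; ring, ofReal_re]
  -- choose N
  obtain ⟨N, hN⟩ := exists_nat_gt (J / ε)
  have hJ0 : 0 ≤ J := by rw [hJ]; exact integral_nonneg hφ0
  have hN0 : (0 : ℝ) < N := lt_of_le_of_lt (div_nonneg hJ0 hε.le) hN
  have hN1 : J < ε * N := by rwa [div_lt_iff₀ hε, mul_comm] at hN
  have h3 : Tendsto (fun n => ∑ j ∈ Finset.Icc 1 N, ∫ z, φ z * v n j z) atTop
      (𝓝 (N * J)) := by
    have := tendsto_finsetSum (Finset.Icc 1 N) (fun j _ => h1 j)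
    simpa using this
  have h4 : Tendsto (fun n => ∑ j ∈ Finset.Icc 1 N, ∑ k ∈ Finset.Icc 1 N,
      ((∫ z, φ z * (v n j z * v n k z)) - ∫ z, φ z * (w 0 n z).re ^ 4)) atTop
      (𝓝 (N * (N * (-2 * J) + J))) := by
    have h40 : (N : ℝ) * (N * (-2 * J) + J) = ∑ j ∈ Finset.Icc 1 N, ∑ k ∈ Finset.Icc 1 N,
        (if j = k then -J else -2 * J) := by
      have h41 : ∀ j ∈ Finset.Icc 1 N, ∑ k ∈ Finset.Icc 1 N, (if j = k then -J else -2 * J) =
          N * (-2 * J) + J := by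
        intro j hj
        have h42 : ∀ k ∈ Finset.Icc 1 N, (if j = k then -J else -2 * J) =
            -2 * J + (if j = k then J else 0) := by
          intro k _
          split_ifs <;> ring
        rw [Finset.sum_congr rfl h42, Finset.sum_add_distrib, Finset.sum_ite_eq, if_pos hj,
          Finset.sum_const, Nat.card_Icc, Nat.add_sub_cancel, nsmul_eq_mul]
      rw [Finset.sum_congr rfl h41, Finset.sum_const, Nat.card_Icc, Nat.add_sub_cancel,
        nsmul_eq_mul]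
    rw [h40]
    exact tendsto_finsetSum _ fun j hj => tendsto_finsetSum _ fun k hk =>
      hM j k (Finset.mem_Icc.1 hj).1 (Finset.mem_Icc.1 hk).1
  have h5 : ∀ n, 2 * N * (∑ j ∈ Finset.Icc 1 N, ∫ z, φ z * v n j z) - N ^ 2 * J ≤
      ∑ j ∈ Finset.Icc 1 N, ∑ k ∈ Finset.Icc 1 N, ∫ z, φ z * (v n j z * v n k z) := by
    intro n
    have h50 : 0 ≤ ∫ z, φ z * ((∑ j ∈ Finset.Icc 1 N, v n j z) - N) ^ 2 :=
      integral_nonneg fun z => mul_nonneg (hφ0 z) (sq_nonneg _)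
    have h51 : ∀ z, φ z * ((∑ j ∈ Finset.Icc 1 N, v n j z) - N) ^ 2 =
        (∑ j ∈ Finset.Icc 1 N, ∑ k ∈ Finset.Icc 1 N, φ z * (v n j z * v n k z)) -
        2 * N * (∑ j ∈ Finset.Icc 1 N, φ z * v n j z) + N ^ 2 * φ z := by
      intro z
      simp only [← Finset.mul_sum]
      rw [← Finset.sum_mul]
      ring
    simp only [h51] at h50
    have hA : Integrable (fun z => ∑ j ∈ Finset.Icc 1 N, ∑ k ∈ Finset.Icc 1 N,
        φ z * (v n j z * v n k z)) :=
      integrable_finsetSum _ fun j _ => integrable_finsetSum _ fun k _ => hI n j k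
    have hB' : Integrable (fun z => 2 * (N : ℝ) * (∑ j ∈ Finset.Icc 1 N, φ z * v n j z)) :=
      (integrable_finsetSum _ fun j _ => hI1 n j).const_mul _
    have hC : Integrable (fun z => (N : ℝ) ^ 2 * φ z) := hI0.const_mul _
    have e1 : ∫ z, ((∑ j ∈ Finset.Icc 1 N, ∑ k ∈ Finset.Icc 1 N, φ z * (v n j z * v n k z)) -
        2 * N * (∑ j ∈ Finset.Icc 1 N, φ z * v n j z) + N ^ 2 * φ z) =
        (∫ z, ((∑ j ∈ Finset.Icc 1 N, ∑ k ∈ Finset.Icc 1 N, φ z * (v n j z * v n k z)) -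
        2 * N * (∑ j ∈ Finset.Icc 1 N, φ z * v n j z))) + ∫ z, (N : ℝ) ^ 2 * φ z :=
      integral_add (hA.sub hB') hC
    rw [e1, integral_sub hA hB', integral_const_mul,
      integral_const_mul, integral_finsetSum _ (fun j _ => hI1 n j), ← hJ,
      integral_finsetSum _ (fun j _ => integrable_finsetSum _ fun k _ => hI n j k)] at h50
    have h52 : ∀ j ∈ Finset.Icc 1 N, ∫ z, ∑ k ∈ Finset.Icc 1 N, φ z * (v n j z * v n k z) =
        ∑ k ∈ Finset.Icc 1 N, ∫ z, φ z * (v n j z * v n k z) := fun j _ =>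
      integral_finsetSum _ (fun k _ => hI n j k)
    rw [Finset.sum_congr rfl h52] at h50
    linarith
  have h6 : Tendsto (fun n => 2 * N * (∑ j ∈ Finset.Icc 1 N, ∫ z, φ z * v n j z) - N ^ 2 * J -
      (∑ j ∈ Finset.Icc 1 N, ∑ k ∈ Finset.Icc 1 N,
      ((∫ z, φ z * (v n j z * v n k z)) - ∫ z, φ z * (w 0 n z).re ^ 4))) atTop
      (𝓝 (2 * N * (N * J) - N ^ 2 * J - (N * (N * (-2 * J) + J)))) :=
    (((h3.const_mul _).sub_const _).sub h4)
  have h7 : (N : ℝ) ^ 2 * (3 * J - ε) < 2 * N * (N * J) - N ^ 2 * J - (N * (N * (-2 * J) + J)) := by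
    have := mul_lt_mul_of_pos_left hN1 hN0
    nlinarith
  filter_upwards [h6.eventually (lt_mem_nhds h7)] with n hn
  have h8 := h5 n
  simp only [Finset.sum_sub_distrib, Finset.sum_const, Nat.card_Icc, Nat.add_sub_cancel,
    nsmul_eq_mul] at hn
  rw [← hJ]
  have hN2 : (0 : ℝ) < (N : ℝ) ^ 2 := by positivity
  have h9 : (N : ℝ) ^ 2 * (3 * J - ε) < (N : ℝ) ^ 2 * ∫ z, φ z * (w 0 n z).re ^ 4 := by
    nlinarith
  exact (lt_of_mul_lt_mul_left h9 hN2.le).le

end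

end Pool.Agent.TH294.RS
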