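import Pool.Agent.TH294.RS.Sys
import Pool.Agent.TH294.RS.Low

/-!
Project RS (helper294): the lower bound without any bound on the fourth moments.
-/

set_option autoImplicit false
open MeasureTheory Filter Topology Complex
open scoped ContDiff ENNReal

namespace Pool.Agent.TH294.RS

open Pool.Agent.W745.RW

noncomputable section

/-- quantum ergodic sequences of solutions of `h² a² Δu + u = 0` on `Ω` -/
structure Raw (Ω : Set ℂ) (a : ℂ → ℝ) (h : ℕ → ℝ) (u : ℕ → ℂ → ℝ) : Prop where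
  hpos : ∀ n, 0 < h n
  hlim : Tendsto h atTop (𝓝 0)
  sa : ContDiffOn ℝ ∞ a Ω
  pa : ∀ z ∈ Ω, 0 < a z
  sm : ∀ n, ContDiffOn ℝ ∞ (u n) Ω
  eq : ∀ n, ∀ z ∈ Ω, (h n) ^ 2 * (a z ^ 2 * lap (u n) z) + u n z = 0
  qe : ∀ φ, TF Ω φ → ∀ k : ℕ, Tendsto (fun n => ∫ z, (φ z : ℂ) * ((u n z : ℂ) *
    (DP a (h n))^[k] (fun w => (u n w : ℂ)) z)) atTop
    (𝓝 (if k = 0 then ((∫ z, φ z : ℝ) : ℂ) else 0))

lemma Raw.sub {Ω B : Set ℂ} {a : ℂ → ℝ} {h : ℕ → ℝ} {u : ℕ → ℂ → ℝ} (H : Raw Ω a h u)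
    (hB : B ⊆ Ω) {σ : ℕ → ℕ} (hσ : StrictMono σ) : Raw B a (fun n => h (σ n)) (fun n => u (σ n)) :=
  ⟨fun _ => H.hpos _, H.hlim.comp hσ.tendsto_atTop, H.sa.mono hB, fun z hz => H.pa z (hB hz),
    fun _ => (H.sm _).mono hB, fun _ z hz => H.eq _ z (hB hz), fun φ hφ k =>
    (H.qe φ ⟨hφ.1, hφ.2.1, hφ.2.2.trans hB⟩ k).comp hσ.tendsto_atTop⟩

lemma fd_re {u : ℂ → ℝ} {z : ℂ} (hu : DifferentiableAt ℝ u z) (v : ℂ) :
    fderiv ℝ (fun w => (u w : ℂ)) z v = ((fderiv ℝ u z v : ℝ) : ℂ) := by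
  have h1 : HasFDerivAt (fun w => (u w : ℂ)) (ofRealCLM.comp (fderiv ℝ u z)) z :=
    ofRealCLM.hasFDerivAt.comp z hu.hasFDerivAt
  rw [h1.fderiv]; rfl

lemma lap_re {B : Set ℂ} (hB : IsOpen B) {u : ℂ → ℝ} (hu : ContDiffOn ℝ ∞ u B) {z : ℂ}
    (hz : z ∈ B) : lap (fun w => (u w : ℂ)) z = ((lap u z : ℝ) : ℂ) := by
  have e : ∀ v, fderiv ℝ (fun w => fderiv ℝ (fun w' => (u w' : ℂ)) w v) z v =
      ((fderiv ℝ (fun w => fderiv ℝ u w v) z v : ℝ) : ℂ) := by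
    intro v
    have e1 : ∀ w ∈ B, fderiv ℝ (fun w' => (u w' : ℂ)) w v = ((fderiv ℝ u w v : ℝ) : ℂ) :=
      fun w hw => fd_re (Pool.Agent.W249.RW.diffAt hB hu hw) v
    rw [fd_cg hB e1 hz]
    exact fd_re (Pool.Agent.W249.RW.diffAt hB (Pool.Agent.W249.RW.cdd hB hu v) hz) v
  have e0 : lap (fun w => (u w : ℂ)) z =
      fderiv ℝ (fun w => fderiv ℝ (fun w' => (u w' : ℂ)) w 1) z 1 +
      fderiv ℝ (fun w => fderiv ℝ (fun w' => (u w' : ℂ)) w I) z I := rfl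
  have e2 : lap u z = fderiv ℝ (fun w => fderiv ℝ u w 1) z 1 +
      fderiv ℝ (fun w => fderiv ℝ u w I) z I := rfl
  rw [e0, e, e, e2]; push_cast; rfl

lemma DP_sm {B : Set ℂ} (hB : IsOpen B) {a : ℂ → ℝ} (ha : ContDiffOn ℝ ∞ a B) (t : ℝ)
    {f : ℂ → ℂ} (hf : ContDiffOn ℝ ∞ f B) : ContDiffOn ℝ ∞ (DP a t f) B :=
  contDiffOn_const.mul ((cxa ha).mul (dd_sm hB hf))

lemma DPk_sm {B : Set ℂ} (hB : IsOpen B) {a : ℂ → ℝ} (ha : ContDiffOn ℝ ∞ a B) (t : ℝ)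
    {f : ℂ → ℂ} (hf : ContDiffOn ℝ ∞ f B) (k : ℕ) : ContDiffOn ℝ ∞ ((DP a t)^[k] f) B := by
  induction k with
  | zero => exact hf
  | succ k ih => rw [Function.iterate_succ']; exact DP_sm hB ha t ih

/-- the approximate ladder system of a quantum ergodic sequence with bounded fourth moments -/
theorem Raw.as {B : Set ℂ} (hB : IsOpen B) {a : ℂ → ℝ} {h : ℕ → ℝ} {u : ℕ → ℂ → ℝ}
    (H : Raw B a h u) (hb : ∀ K : Set ℂ, IsCompact K → K ⊆ B →
      ∃ C : ℝ, ∀ᶠ n in atTop, ∫ z in K, u n z ^ 4 ≤ C) :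
    AS B a h (ww a h (fun n z => (u n z : ℂ))) := by
  have sm : ∀ n, ContDiffOn ℝ ∞ (fun z => (u n z : ℂ)) B := fun n => cxa (H.sm n)
  refine mkAS hB H.hpos H.hlim H.sa H.pa (fun n z => conj_ofReal _) ⟨sm, fun K hK hKB => ?_⟩
    (fun n z hz => ?_) (fun k => ?_)
  · obtain ⟨C, hC⟩ := hb K hK hKB
    refine ⟨C, hC.mono fun n hn => ?_⟩
    refine le_trans (le_of_eq ?_) hn
    refine setIntegral_congr_fun hK.measurableSet fun z _ => ?_
    simp only [Complex.norm_real, Real.norm_eq_abs]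
    rw [Even.pow_abs (by decide)]
  · rw [lap_re hB (H.sm n) hz]
    have h1 := H.eq n z hz
    have h2 : ((h n ^ 2 * (a z ^ 2 * lap (u n) z) + u n z : ℝ) : ℂ) = 0 := by rw [h1]; simp
    push_cast at h2
    linear_combination h2
  · have hco : ∀ n, ContinuousOn (fun z => (u n z : ℂ) *
        (DP a (h n))^[k] (fun w => (u n w : ℂ)) z) B := fun n =>
      (sm n).continuousOn.mul (DPk_sm hB H.sa (h n) (sm n) k).continuousOn
    refine ⟨fun n => (hco n).sub continuousOn_const, fun φ hφ => ?_⟩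
    have h1 := H.qe φ hφ k
    have IJ : Integrable (fun z => (φ z : ℂ)) :=
      (hφ.1.continuous.integrable_of_hasCompactSupport hφ.2.1).ofReal
    have h2 := h1.sub_const (if k = 0 then ((∫ z, φ z : ℝ) : ℂ) else 0)
    rw [sub_self] at h2
    refine h2.congr fun n => ?_
    have e1 : (if k = 0 then ((∫ z, φ z : ℝ) : ℂ) else 0) =
        ∫ z, (φ z : ℂ) * (if k = 0 then 1 else 0) := by
      rw [integral_mul_const, integral_complex_ofReal]
      split_ifs <;> simp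
    rw [e1, ← integral_sub (TF.cint hφ (hco n)) (IJ.mul_const _)]
    congr 1; funext z; ring

/-- the lower bound under bounded fourth moments -/
theorem Raw.low {B : Set ℂ} (hB : IsOpen B) {a : ℂ → ℝ} {h : ℕ → ℝ} {u : ℕ → ℂ → ℝ}
    (H : Raw B a h u) (hb : ∀ K : Set ℂ, IsCompact K → K ⊆ B →
      ∃ C : ℝ, ∀ᶠ n in atTop, ∫ z in K, u n z ^ 4 ≤ C) {φ : ℂ → ℝ} (hφ : TF B φ)
    (hφ0 : ∀ z, 0 ≤ φ z) {ε : ℝ} (hε : 0 < ε) :
    ∀ᶠ n in atTop, 3 * (∫ z, φ z) - ε ≤ ∫ z, φ z * u n z ^ 4 := by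
  have h1 := (H.as hB hb).low hB hφ hφ0 hε
  refine h1.mono fun n hn => ?_
  have e : ∀ z, (ww a h (fun n z => (u n z : ℂ)) 0 n z).re = u n z := by
    intro z
    have : ww a h (fun n z => (u n z : ℂ)) 0 n z = (u n z : ℂ) := rfl
    rw [this, ofReal_re]
  simpa only [e] using hn

/-- truncation of a test function from below -/
lemma trunc {Ω : Set ℂ} {ψ : ℂ → ℝ} (hψ : TF Ω ψ) (hψ0 : ∀ z, 0 ≤ ψ z) {δ : ℝ} (hδ : 0 < δ) :
    ∃ φ : ℂ → ℝ, TF {z | 0 < ψ z} φ ∧ (∀ z, 0 ≤ φ z) ∧ (∀ z, φ z ≤ ψ z) ∧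
      ∀ z, ψ z - φ z ≤ (tsupport ψ).indicator (fun _ => 2 * δ) z := by
  refine ⟨fun z => ψ z * Real.smoothTransition ((ψ z - δ) / δ), ⟨?_, ?_, ?_⟩, fun z => ?_,
    fun z => ?_, fun z => ?_⟩
  · exact hψ.1.mul (Real.smoothTransition.contDiff.comp ((hψ.1.sub contDiff_const).div_const δ))
  · exact hψ.2.1.mul_right
  · have h1 : Function.support (fun z => ψ z * Real.smoothTransition ((ψ z - δ) / δ)) ⊆
        {z | δ ≤ ψ z} := by
      intro z hz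
      by_contra hcon
      apply hz
      have h2 : ψ z < δ := not_le.1 hcon
      have h3 : (ψ z - δ) / δ ≤ 0 := div_nonpos_of_nonpos_of_nonneg (by linarith) hδ.le
      simp only
      rw [Real.smoothTransition.zero_of_nonpos h3, mul_zero]
    have h2 : IsClosed {z | δ ≤ ψ z} := isClosed_le continuous_const hψ.1.continuous
    refine (closure_minimal h1 h2).trans fun z hz => ?_
    exact lt_of_lt_of_le hδ hz
  · exact mul_nonneg (hψ0 z) (Real.smoothTransition.nonneg _)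
  · exact mul_le_of_le_one_right (hψ0 z) (Real.smoothTransition.le_one _)
  · show ψ z - ψ z * Real.smoothTransition ((ψ z - δ) / δ) ≤ _
    by_cases hz : z ∈ tsupport ψ
    · rw [Set.indicator_of_mem hz]
      by_cases h2 : 2 * δ ≤ ψ z
      · have h3 : 1 ≤ (ψ z - δ) / δ := by
          rw [le_div_iff₀ hδ]; linarith
        rw [Real.smoothTransition.one_of_one_le h3]
        linarith
      · have h4 : 0 ≤ ψ z * Real.smoothTransition ((ψ z - δ) / δ) :=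
          mul_nonneg (hψ0 z) (Real.smoothTransition.nonneg _)
        linarith [not_le.1 h2]
    · rw [Set.indicator_of_notMem hz, image_eq_zero_of_notMem_tsupport hz]
      simp

/-- **The lower bound for all test functions.** -/
theorem Raw.main {Ω : Set ℂ} (hΩ : IsOpen Ω) {a : ℂ → ℝ} {h : ℕ → ℝ} {u : ℕ → ℂ → ℝ}
    (H : Raw Ω a h u) {ψ : ℂ → ℝ} (hψ : TF Ω ψ) (hψ0 : ∀ z, 0 ≤ ψ z) {ε : ℝ} (hε : 0 < ε) :
    ∀ᶠ n in atTop, 3 * (∫ z, ψ z) - ε ≤ ∫ z, ψ z * u n z ^ 4 := by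
  by_contra hcon
  rw [not_eventually] at hcon
  obtain ⟨σ, hσ, hσ'⟩ := extraction_of_frequently_atTop hcon
  set M : ℝ := 3 * (∫ z, ψ z) - ε with hM
  have hσM : ∀ n, ∫ z, ψ z * u (σ n) z ^ 4 < M := fun n => not_le.1 (hσ' n)
  set B : Set ℂ := {z | 0 < ψ z} with hBdef
  have hB : IsOpen B := isOpen_lt continuous_const hψ.1.continuous
  have hBΩ : B ⊆ Ω := by
    intro z hz
    apply hψ.2.2
    apply subset_tsupport
    exact (ne_of_gt hz : ψ z ≠ 0)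
  have HB := H.sub hBΩ hσ
  have hint : ∀ n, Integrable (fun z => ψ z * u (σ n) z ^ 4) := fun n =>
    Pool.Agent.W311.RW.int_mul hΩ hψ ((H.sm (σ n)).continuousOn.pow 4)
  have hnn : ∀ n z, 0 ≤ ψ z * u (σ n) z ^ 4 := fun n z => mul_nonneg (hψ0 z) (by positivity)
  have hb : ∀ K : Set ℂ, IsCompact K → K ⊆ B →
      ∃ C : ℝ, ∀ᶠ n in atTop, ∫ z in K, u (σ n) z ^ 4 ≤ C := by
    intro K hK hKB
    obtain ⟨c, hc, hc'⟩ : ∃ c : ℝ, 0 < c ∧ ∀ z ∈ K, c ≤ ψ z := by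
      by_cases hne : K.Nonempty
      · obtain ⟨z0, hz0, hmin⟩ := hK.exists_isMinOn hne hψ.1.continuous.continuousOn
        exact ⟨ψ z0, hKB hz0, fun z hz => hmin hz⟩
      · exact ⟨1, one_pos, fun z hz => absurd ⟨z, hz⟩ hne⟩
    refine ⟨c⁻¹ * M, Eventually.of_forall fun n => ?_⟩
    have c1 : ContinuousOn (fun z => u (σ n) z ^ 4) K :=
      ((H.sm (σ n)).continuousOn.pow 4).mono (hKB.trans hBΩ)
    have c2 : ContinuousOn (fun z => ψ z * u (σ n) z ^ 4) K :=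
      hψ.1.continuous.continuousOn.mul c1
    refine (intK_c hK (by positivity : (0:ℝ) ≤ c⁻¹) c1 c2 (fun z hz => ?_)
      ((setIntegral_le_integral (hint n) (ae_of_all _ (hnn n))).trans (hσM n).le))
    have h1 := hc' z hz
    have h2 : 0 ≤ u (σ n) z ^ 4 := by positivity
    rw [inv_mul_eq_div, le_div_iff₀ hc]
    nlinarith
  -- the truncation
  set V : ℝ := volume.real (tsupport ψ) with hV
  have hV0 : 0 ≤ V := measureReal_nonneg
  set δ : ℝ := ε / (12 * (V + 1)) with hδdef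
  have hδ : 0 < δ := by positivity
  obtain ⟨φ, hφ, hφ0, hφψ, hdiff⟩ := trunc hψ hψ0 hδ
  have Iψ : Integrable ψ := hψ.1.continuous.integrable_of_hasCompactSupport hψ.2.1
  have Iφ : Integrable φ := hφ.1.continuous.integrable_of_hasCompactSupport hφ.2.1
  have Ii : Integrable ((tsupport ψ).indicator (fun _ : ℂ => 2 * δ)) :=
    (integrable_indicator_iff hψ.2.1.measurableSet).2
      (integrableOn_const hψ.2.1.measure_lt_top.ne)
  have h1 : (∫ z, ψ z) - ∫ z, φ z ≤ 2 * δ * V := by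
    rw [← integral_sub Iψ Iφ]
    refine (integral_mono (Iψ.sub Iφ) Ii hdiff).trans (le_of_eq ?_)
    rw [integral_indicator hψ.2.1.measurableSet, setIntegral_const, smul_eq_mul, mul_comm]
  have h2 : 3 * (2 * δ * V) ≤ ε / 2 := by
    have h3 : δ * (12 * (V + 1)) = ε := by
      rw [hδdef]; field_simp
    nlinarith
  have h4 := HB.low hB hb hφ hφ0 (show 0 < ε / 4 by positivity)
  obtain ⟨n, hn⟩ := h4.exists
  have h5 : ∫ z, φ z * u (σ n) z ^ 4 ≤ ∫ z, ψ z * u (σ n) z ^ 4 := by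
    refine integral_mono_of_nonneg (ae_of_all _ fun z => mul_nonneg (hφ0 z) (by positivity))
      (hint n) (ae_of_all _ fun z => ?_)
    exact mul_le_mul_of_nonneg_right (hφψ z) (by positivity)
  have h6 := hσM n
  rw [hM] at h6
  linarith

/-- limits of second moments -/
lemma Raw.second {Ω : Set ℂ} {a : ℂ → ℝ} {h : ℕ → ℝ} {u : ℕ → ℂ → ℝ}
    (H : Raw Ω a h u) {ψ : ℂ → ℝ} (hψ : TF Ω ψ) :
    Tendsto (fun n => ∫ z, ψ z * u n z ^ 2) atTop (𝓝 (∫ z, ψ z)) := by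
  have h1 := H.qe ψ hψ 0
  rw [if_pos rfl] at h1
  have h2 := (Complex.continuous_re.tendsto _).comp h1
  rw [ofReal_re] at h2
  refine h2.congr fun n => ?_
  have e : ∫ z, (ψ z : ℂ) * ((u n z : ℂ) * (DP a (h n))^[0] (fun w => (u n w : ℂ)) z) =
      ((∫ z, ψ z * u n z ^ 2 : ℝ) : ℂ) := by
    rw [← integral_complex_ofReal]
    congr 1; funext z
    simp only [Function.iterate_zero, id_eq]
    push_cast; ring
  show (∫ z, (ψ z : ℂ) * ((u n z : ℂ) * (DP a (h n))^[0] (fun w => (u n w : ℂ)) z)).re = _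
  rw [e, ofReal_re]

lemma bern (t : ℝ) (ht : 0 ≤ t) (m : ℕ) :
    3 ^ m * (1 + m * (t / 3 - 1)) ≤ t ^ m := by
  have h1 := one_add_mul_le_pow (show (-2 : ℝ) ≤ t / 3 - 1 by linarith) m
  have h2 : (1 + (t / 3 - 1)) = t / 3 := by ring
  rw [h2, div_pow, le_div_iff₀ (by positivity)] at h1
  linarith

/-- **All even moments.** -/
theorem Raw.even {Ω : Set ℂ} (hΩ : IsOpen Ω) {a : ℂ → ℝ} {h : ℕ → ℝ} {u : ℕ → ℂ → ℝ}
    (H : Raw Ω a h u) {ψ : ℂ → ℝ} (hψ : TF Ω ψ) (hψ0 : ∀ z, 0 ≤ ψ z) (m : ℕ) {ε : ℝ}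
    (hε : 0 < ε) :
    ∀ᶠ n in atTop, 3 ^ m * (∫ z, ψ z) - ε ≤ ∫ z, ψ z * u n z ^ (2 * (m + 1)) := by
  set J := ∫ z, ψ z with hJ
  set α : ℝ := m * 3 ^ m / 3 with hα
  set β : ℝ := 3 ^ m * (m - 1) with hβ
  have hα0 : 0 ≤ α := by positivity
  have e1 := H.main hΩ hψ hψ0 (show 0 < ε / (2 * (α + 1)) by positivity)
  have e2 := (H.second hψ).const_mul β
  have e3 : ∀ᶠ n in atTop, β * (∫ z, ψ z * u n z ^ 2) < β * J + ε / 2 :=
    e2.eventually (gt_mem_nhds (by linarith))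
  filter_upwards [e1, e3] with n h1 h2
  have i4 : Integrable (fun z => ψ z * u n z ^ 4) :=
    Pool.Agent.W311.RW.int_mul hΩ hψ ((H.sm n).continuousOn.pow 4)
  have i2 : Integrable (fun z => ψ z * u n z ^ 2) :=
    Pool.Agent.W311.RW.int_mul hΩ hψ ((H.sm n).continuousOn.pow 2)
  have im : Integrable (fun z => ψ z * u n z ^ (2 * (m + 1))) :=
    Pool.Agent.W311.RW.int_mul hΩ hψ ((H.sm n).continuousOn.pow (2 * (m + 1)))
  have h3 : ∫ z, (α * (ψ z * u n z ^ 4) - β * (ψ z * u n z ^ 2)) ≤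
      ∫ z, ψ z * u n z ^ (2 * (m + 1)) := by
    refine integral_mono ((i4.const_mul α).sub (i2.const_mul β)) im fun z => ?_
    have hb := bern (u n z ^ 2) (sq_nonneg _) m
    have h4 := mul_le_mul_of_nonneg_left hb (mul_nonneg (hψ0 z) (sq_nonneg (u n z)))
    have e5 : u n z ^ (2 * (m + 1)) = u n z ^ 2 * (u n z ^ 2) ^ m := by
      rw [pow_mul, pow_succ]; ring
    show α * (ψ z * u n z ^ 4) - β * (ψ z * u n z ^ 2) ≤ ψ z * u n z ^ (2 * (m + 1))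
    rw [e5]
    calc α * (ψ z * u n z ^ 4) - β * (ψ z * u n z ^ 2) =
        ψ z * u n z ^ 2 * (3 ^ m * (1 + m * (u n z ^ 2 / 3 - 1))) := by
          rw [hα, hβ]; ring
      _ ≤ ψ z * u n z ^ 2 * (u n z ^ 2) ^ m := h4
      _ = _ := by ring
  rw [integral_sub (i4.const_mul α) (i2.const_mul β), integral_const_mul, integral_const_mul] at h3
  have h5 := mul_le_mul_of_nonneg_left h1 hα0
  have h6 : α * (ε / (2 * (α + 1))) ≤ ε / 2 := by
    rw [mul_div_assoc', div_le_div_iff₀ (by positivity) (by positivity)]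
    nlinarith
  have h7 : α * (3 * J) - β * J = 3 ^ m * J := by
    rw [hα, hβ]; ring
  nlinarith

end

end Pool.Agent.TH294.RS
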