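import Pool.Agent.W366.RW.En
import Pool.Agent.W249.RW.GOne
import Pool.Agent.W404.RW.L
import Pool.Agent.W450.RW.T

/-!
Project RS (helper294): energy identities with an inhomogeneous term.
-/

set_option autoImplicit false
open MeasureTheory Filter Topology Complex
open scoped ContDiff

namespace Pool.Agent.TH294.RS

open Pool.Agent.W745.RW Pool.Agent.W366.RW

noncomputable section

/-- The energy identity for a globally smooth function. -/
theorem glob1 (h : ℝ) (w ζ : ℂ → ℝ) (hw : ContDiff ℝ ∞ w) (hζ : ContDiff ℝ ∞ ζ)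
    (hc : HasCompactSupport ζ) :
    h ^ 2 * ∫ z, (dx (fun w' => ζ w' * w w') z ^ 2 + dy (fun w' => ζ w' * w w') z ^ 2) =
      ∫ z, (h ^ 2 * (dx ζ z ^ 2 + dy ζ z ^ 2) * w z ^ 2 - ζ z ^ 2 * (w z * (h ^ 2 * lap w z))) := by
  have hx := dxs w hw
  have hy := dys w hw
  have s1 : ContDiff ℝ ∞ (fun z => (ζ z * ζ z) * (w z * dx w z)) :=
    (hζ.mul hζ).mul (hw.mul hx)
  have s2 : ContDiff ℝ ∞ (fun z => (ζ z * ζ z) * (w z * dy w z)) :=
    (hζ.mul hζ).mul (hw.mul hy)
  have c1 : HasCompactSupport (fun z => (ζ z * ζ z) * (w z * dx w z)) :=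
    (HasCompactSupport.mul_right (f := ζ) (f' := ζ) hc).mul_right
  have c2 : HasCompactSupport (fun z => (ζ z * ζ z) * (w z * dy w z)) :=
    (HasCompactSupport.mul_right (f := ζ) (f' := ζ) hc).mul_right
  obtain ⟨i1, j1⟩ := int_zero _ s1 c1 1
  obtain ⟨i2, j2⟩ := int_zero _ s2 c2 I
  have hl : Continuous (lap w) := by
    have a1 := (dxs _ hx).continuous
    have a2 := (dys _ hy).continuous
    exact a1.add a2
  have g3 : Continuous fun z => h ^ 2 * (dx ζ z ^ 2 + dy ζ z ^ 2) * w z ^ 2 -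
      ζ z ^ 2 * (w z * (h ^ 2 * lap w z)) := by
    have a1 := (dxs ζ hζ).continuous
    have a2 := (dys ζ hζ).continuous
    have a3 := hζ.continuous
    have a4 := hw.continuous
    fun_prop
  have c3 : HasCompactSupport
      fun z => h ^ 2 * (dx ζ z ^ 2 + dy ζ z ^ 2) * w z ^ 2 -
      ζ z ^ 2 * (w z * (h ^ 2 * lap w z)) := by
    refine HasCompactSupport.intro hc fun z hz => ?_
    have e1 : ζ z = 0 := image_eq_zero_of_notMem_tsupport hz
    have e2 : dx ζ z = 0 := by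
      unfold dx
      rw [fderiv_of_notMem_tsupport ℝ hz]
      rfl
    have e3 : dy ζ z = 0 := by
      unfold dy
      rw [fderiv_of_notMem_tsupport ℝ hz]
      rfl
    rw [e1, e2, e3]
    ring
  have i3 := g3.integrable_of_hasCompactSupport (μ := (volume : Measure ℂ)) c3
  have key : ∀ z, h ^ 2 * (dx (fun w' => ζ w' * w w') z ^ 2 + dy (fun w' => ζ w' * w w') z ^ 2) =
      h ^ 2 * fderiv ℝ (fun z => (ζ z * ζ z) * (w z * dx w z)) z 1 +
      h ^ 2 * fderiv ℝ (fun z => (ζ z * ζ z) * (w z * dy w z)) z I +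
      (h ^ 2 * (dx ζ z ^ 2 + dy ζ z ^ 2) * w z ^ 2 - ζ z ^ 2 * (w z * (h ^ 2 * lap w z))) := by
    intro z
    have k1 : fderiv ℝ (fun z => (ζ z * ζ z) * (w z * dx w z)) z 1 =
        (ζ z * ζ z) * (w z * dx (dx w) z + dx w z * dx w z) +
          (w z * dx w z) * (ζ z * dx ζ z + ζ z * dx ζ z) := by
      have := dxm (fun z => ζ z * ζ z) (fun z => w z * dx w z) (hζ.mul hζ) (hw.mul hx) z
      rw [dxm ζ ζ hζ hζ, dxm w (dx w) hw hx] at this
      exact this
    have k2 : fderiv ℝ (fun z => (ζ z * ζ z) * (w z * dy w z)) z I =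
        (ζ z * ζ z) * (w z * dy (dy w) z + dy w z * dy w z) +
          (w z * dy w z) * (ζ z * dy ζ z + ζ z * dy ζ z) := by
      have := dym (fun z => ζ z * ζ z) (fun z => w z * dy w z) (hζ.mul hζ) (hw.mul hy) z
      rw [dym ζ ζ hζ hζ, dym w (dy w) hw hy] at this
      exact this
    rw [k1, k2, dxm ζ w hζ hw, dym ζ w hζ hw]
    unfold lap
    ring
  rw [← integral_const_mul]
  have e4 : ∫ z, h ^ 2 * (dx (fun w' => ζ w' * w w') z ^ 2 + dy (fun w' => ζ w' * w w') z ^ 2) =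
      ∫ z, (h ^ 2 * fderiv ℝ (fun z => (ζ z * ζ z) * (w z * dx w z)) z 1 +
      h ^ 2 * fderiv ℝ (fun z => (ζ z * ζ z) * (w z * dy w z)) z I +
      (h ^ 2 * (dx ζ z ^ 2 + dy ζ z ^ 2) * w z ^ 2 - ζ z ^ 2 * (w z * (h ^ 2 * lap w z)))) :=
    integral_congr_ae (Eventually.of_forall key)
  have i12 : Integrable (fun z => h ^ 2 * fderiv ℝ (fun z => (ζ z * ζ z) * (w z * dx w z)) z 1 +
      h ^ 2 * fderiv ℝ (fun z => (ζ z * ζ z) * (w z * dy w z)) z I) :=
    (i1.const_mul _).add (i2.const_mul _)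
  rw [e4, integral_add i12 i3,
    integral_add (i1.const_mul _) (i2.const_mul _), integral_const_mul, integral_const_mul,
    j1, j2]
  ring

/-- The energy identity on an open set. -/
theorem energy1 {B : Set ℂ} (hB : IsOpen B) (h : ℝ) {u : ℂ → ℝ} (hu : ContDiffOn ℝ ∞ u B)
    {ζ : ℂ → ℝ} (hζ : TF B ζ) :
    h ^ 2 * ∫ z, (dx (fun w => ζ w * u w) z ^ 2 + dy (fun w => ζ w * u w) z ^ 2) =
      ∫ z, (h ^ 2 * (dx ζ z ^ 2 + dy ζ z ^ 2) * u z ^ 2 - ζ z ^ 2 * (u z * (h ^ 2 * lap u z))) := by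
  obtain ⟨w, hw, hwu⟩ := cut B hB u ζ hu hζ
  have h1 := glob1 h w ζ hw hζ.1 hζ.2.1
  have hpt : ∀ z, z ∈ tsupport ζ → w z = u z := fun z hz => (hwu z hz).self_of_nhds
  have e1 : (fun w' => ζ w' * w w') = fun w' => ζ w' * u w' := by
    funext z
    by_cases hz : z ∈ tsupport ζ
    · rw [hpt z hz]
    · rw [image_eq_zero_of_notMem_tsupport hz, zero_mul, zero_mul]
  have e2 : (fun z => h ^ 2 * (dx ζ z ^ 2 + dy ζ z ^ 2) * w z ^ 2 -
        ζ z ^ 2 * (w z * (h ^ 2 * lap w z))) =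
      fun z => h ^ 2 * (dx ζ z ^ 2 + dy ζ z ^ 2) * u z ^ 2 -
        ζ z ^ 2 * (u z * (h ^ 2 * lap u z)) := by
    funext z
    by_cases hz : z ∈ tsupport ζ
    · rw [hpt z hz, lap_congr w u z (hwu z hz)]
    · have a1 : ζ z = 0 := image_eq_zero_of_notMem_tsupport hz
      have a2 : dx ζ z = 0 := by
        unfold dx
        rw [fderiv_of_notMem_tsupport ℝ hz]
        rfl
      have a3 : dy ζ z = 0 := by
        unfold dy
        rw [fderiv_of_notMem_tsupport ℝ hz]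
        rfl
      rw [a1, a2, a3]
      ring
  rw [e1, e2] at h1
  exact h1

lemma z_out {ζ : ℂ → ℝ} {z : ℂ} (hz : z ∉ tsupport ζ) (v : ℂ) : ζ z = 0 ∧ fderiv ℝ ζ z v = 0 := by
  refine ⟨image_eq_zero_of_notMem_tsupport hz, ?_⟩
  rw [fderiv_of_notMem_tsupport ℝ hz]
  rfl

/-- first energy inequality -/
theorem en1 {B : Set ℂ} (hB : IsOpen B) {h : ℝ} {u : ℂ → ℝ} (hu : ContDiffOn ℝ ∞ u B)
    {ζ : ℂ → ℝ} (hζ : TF B ζ) {S : Set ℂ} (hsub : tsupport ζ ⊆ S)
    {M : ℝ} (hM : ∀ z, h ^ 2 * (dx ζ z ^ 2 + dy ζ z ^ 2) + ζ z ^ 2 ≤ M)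
    (h1 : ∀ z, ζ z ^ 2 ≤ 1)
    (hi : IntegrableOn (fun z => u z ^ 2) S) (hj : IntegrableOn (fun z => (h ^ 2 * lap u z) ^ 2) S) :
    h ^ 2 * ∫ z, (dx (fun w => ζ w * u w) z ^ 2 + dy (fun w => ζ w * u w) z ^ 2) ≤
      M * (∫ z in S, u z ^ 2) + ∫ z in S, (h ^ 2 * lap u z) ^ 2 := by
  rw [energy1 hB h hu hζ]
  have h0 : ∀ z, z ∉ S → h ^ 2 * (dx ζ z ^ 2 + dy ζ z ^ 2) * u z ^ 2 -
      ζ z ^ 2 * (u z * (h ^ 2 * lap u z)) = 0 := by
    intro z hz
    have hz' : z ∉ tsupport ζ := fun h => hz (hsub h)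
    obtain ⟨a1, a2⟩ := z_out hz' 1
    obtain ⟨-, a3⟩ := z_out hz' I
    simp [dx, dy, a1, a2, a3]
  rw [← setIntegral_eq_integral_of_forall_compl_eq_zero h0, ← integral_const_mul,
    ← integral_add (hi.const_mul M) hj]
  refine integral_mono_ae ?_ ((hi.const_mul M).add hj) (ae_of_all _ fun z => ?_)
  · -- integrability of the left side
    have hc : Continuous (fun z => h ^ 2 * (dx ζ z ^ 2 + dy ζ z ^ 2)) :=
      continuous_const.mul (((dxs ζ hζ.1).continuous.pow 2).add ((dys ζ hζ.1).continuous.pow 2))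
    have i1 : Integrable (fun z => h ^ 2 * (dx ζ z ^ 2 + dy ζ z ^ 2) * u z ^ 2)
        (volume.restrict S) := by
      refine Integrable.bdd_mul (c := |M|) hi hc.aestronglyMeasurable (ae_of_all _ fun z => ?_)
      rw [Real.norm_eq_abs, abs_of_nonneg (by positivity)]
      have := hM z
      have h3 := le_abs_self M
      nlinarith [sq_nonneg (ζ z)]
    have i2 : Integrable (fun z => ζ z ^ 2 * (u z * (h ^ 2 * lap u z))) (volume.restrict S) := by
      have hsm : ContDiffOn ℝ ∞ (fun z => lap u z) B :=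
        (Pool.Agent.W249.RW.cdd hB (Pool.Agent.W249.RW.cdd hB hu 1) 1).add
          (Pool.Agent.W249.RW.cdd hB (Pool.Agent.W249.RW.cdd hB hu I) I)
      have : Integrable (fun z => ζ z ^ 2 * (u z * (h ^ 2 * lap u z))) := by
        have c1 := Pool.Agent.W249.RW.prod_cd hB hζ
          (hζ.1.contDiffOn.mul (hu.mul (contDiffOn_const.mul hsm)) : ContDiffOn ℝ ∞
            (fun z => ζ z * (u z * (h ^ 2 * lap u z))) B)
        have c2 : HasCompactSupport (fun z => ζ z * (ζ z * (u z * (h ^ 2 * lap u z)))) :=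
          hζ.2.1.mul_right
        refine (c1.continuous.integrable_of_hasCompactSupport c2).congr (ae_of_all _ fun z => ?_)
        simp only; ring
      exact this.integrableOn
    exact i1.sub i2
  · show h ^ 2 * (dx ζ z ^ 2 + dy ζ z ^ 2) * u z ^ 2 - ζ z ^ 2 * (u z * (h ^ 2 * lap u z)) ≤
      M * u z ^ 2 + (h ^ 2 * lap u z) ^ 2
    have k1 := mul_le_mul_of_nonneg_right (hM z) (sq_nonneg (u z))
    have k2 := h1 z
    set g := h ^ 2 * lap u z
    have k3 : 0 ≤ ζ z ^ 2 * (u z + g) ^ 2 := by positivity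
    have k4 : ζ z ^ 2 * g ^ 2 ≤ g ^ 2 := by
      have := mul_le_mul_of_nonneg_right k2 (sq_nonneg g)
      linarith
    have k5 : 0 ≤ ζ z ^ 2 * u z ^ 2 := by positivity
    have k6 : 0 ≤ ζ z ^ 2 * g ^ 2 := by positivity
    nlinarith

/-- commutation of the Laplacian with a derivative -/
lemma lap_d {B : Set ℂ} (hB : IsOpen B) {f : ℂ → ℝ} (hf : ContDiffOn ℝ ∞ f B) (h : ℝ) (e : ℂ)
    {z : ℂ} (hz : z ∈ B) : lap (fun w => h * fderiv ℝ f w e) z = h * fderiv ℝ (lap f) z e := by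
  have c1 := Pool.Agent.W249.RW.d3 hB hf h e 1 hz
  have c2 := Pool.Agent.W249.RW.d3 hB hf h e I hz
  have s1 := Pool.Agent.W249.RW.cdd hB (Pool.Agent.W249.RW.cdd hB hf 1) 1
  have s2 := Pool.Agent.W249.RW.cdd hB (Pool.Agent.W249.RW.cdd hB hf I) I
  have e1 : lap (fun w => h * fderiv ℝ f w e) z =
      Pool.Agent.W249.RW.dd 1 (Pool.Agent.W249.RW.dd 1
        (fun w => h * Pool.Agent.W249.RW.dd e f w)) z +
      Pool.Agent.W249.RW.dd I (Pool.Agent.W249.RW.dd I
        (fun w => h * Pool.Agent.W249.RW.dd e f w)) z := rfl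
  rw [e1, c1, c2]
  have e2 := Pool.Agent.W249.RW.dd_add (Pool.Agent.W249.RW.diffAt hB s1 hz)
    (Pool.Agent.W249.RW.diffAt hB s2 hz) e
  have e3 : fderiv ℝ (lap f) z e = Pool.Agent.W249.RW.dd e
    (fun w => Pool.Agent.W249.RW.dd 1 (Pool.Agent.W249.RW.dd 1 f) w +
      Pool.Agent.W249.RW.dd I (Pool.Agent.W249.RW.dd I f) w) z := rfl
  rw [e3, e2]; ring

lemma sm_lap {B : Set ℂ} (hB : IsOpen B) {f : ℂ → ℝ} (hf : ContDiffOn ℝ ∞ f B) :
    ContDiffOn ℝ ∞ (lap f) B :=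
  (Pool.Agent.W249.RW.cdd hB (Pool.Agent.W249.RW.cdd hB hf 1) 1).add
    (Pool.Agent.W249.RW.cdd hB (Pool.Agent.W249.RW.cdd hB hf I) I)

/-- second energy inequality, for `h` times a derivative -/
theorem en2 {B : Set ℂ} (hB : IsOpen B) {h : ℝ} {f : ℂ → ℝ} (hf : ContDiffOn ℝ ∞ f B)
    {ζ : ℂ → ℝ} (hζ : TF B ζ) (e : ℂ)
    (he : ∀ (g : ℂ → ℝ) (z : ℂ), fderiv ℝ g z e ^ 2 ≤ dx g z ^ 2 + dy g z ^ 2)
    {S : Set ℂ} (hS : MeasurableSet S) (hsub : tsupport ζ ⊆ S)
    {M : ℝ} (hM : ∀ z, h ^ 2 * (dx ζ z ^ 2 + dy ζ z ^ 2) + ζ z ^ 2 ≤ M)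
    (h1 : ∀ z, ζ z ^ 2 ≤ 1) {v : ℂ → ℝ} (hv : v = fun z => h * fderiv ℝ f z e)
    (hi : IntegrableOn (fun z => v z ^ 2) S) (hj : IntegrableOn (fun z => (h ^ 2 * lap f z) ^ 2) S) :
    h ^ 2 * ∫ z, (dx (fun w => ζ w * v w) z ^ 2 + dy (fun w => ζ w * v w) z ^ 2) ≤
      3 * M * (∫ z in S, v z ^ 2) + 2 * ∫ z in S, (h ^ 2 * lap f z) ^ 2 := by
  have sv : ContDiffOn ℝ ∞ v B := by
    rw [hv]; exact contDiffOn_const.mul (Pool.Agent.W249.RW.cdd hB hf e)
  set g : ℂ → ℝ := fun z => h ^ 2 * lap f z with hg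
  have sg : ContDiffOn ℝ ∞ g B := contDiffOn_const.mul (sm_lap hB hf)
  set V : ℂ → ℝ := fun w => ζ w * v w with hV
  set G : ℂ → ℝ := fun w => ζ w * g w with hG
  have cV : ContDiff ℝ ∞ V := Pool.Agent.W249.RW.prod_cd hB hζ sv
  have cG : ContDiff ℝ ∞ G := Pool.Agent.W249.RW.prod_cd hB hζ sg
  have sV : HasCompactSupport V := hζ.2.1.mul_right
  have sG : HasCompactSupport G := hζ.2.1.mul_right
  obtain ⟨i0, j0⟩ := int_zero (fun z => V z * G z) (cV.mul cG) sV.mul_right e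
  have key : ∀ z, h ^ 2 * (dx ζ z ^ 2 + dy ζ z ^ 2) * v z ^ 2 - ζ z ^ 2 * (v z * (h ^ 2 * lap v z)) =
      (h ^ 2 * (dx ζ z ^ 2 + dy ζ z ^ 2) * v z ^ 2 + h * fderiv ℝ V z e * (ζ z * g z) +
        h * (ζ z * v z) * (fderiv ℝ ζ z e * g z)) - h * fderiv ℝ (fun z => V z * G z) z e := by
    intro z
    by_cases hz : z ∈ tsupport ζ
    · have hzB := hζ.2.2 hz
      have dV : DifferentiableAt ℝ V z := (cV.differentiable (by simp)) z
      have dG : DifferentiableAt ℝ G z := (cG.differentiable (by simp)) z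
      have dζ : DifferentiableAt ℝ ζ z := (hζ.1.differentiable (by simp)) z
      have dg : DifferentiableAt ℝ g z := Pool.Agent.W249.RW.diffAt hB sg hzB
      have e1 : fderiv ℝ (fun z => V z * G z) z e = V z * fderiv ℝ G z e + G z * fderiv ℝ V z e := by
        rw [fderiv_fun_mul dV dG]; simp
      have e2 : fderiv ℝ G z e = ζ z * fderiv ℝ g z e + g z * fderiv ℝ ζ z e := by
        rw [hG, fderiv_fun_mul dζ dg]; simp
      have e3 : h ^ 2 * lap v z = h * fderiv ℝ g z e := by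
        have := lap_d hB hf h e hzB
        rw [hv, this, hg]
        rw [fderiv_const_mul (Pool.Agent.W249.RW.diffAt hB (sm_lap hB hf) hzB)]
        simp only [smul_apply, smul_eq_mul]
        ring
      rw [e1, e2, e3]
      simp only [hV, hG]
      ring
    · obtain ⟨a1, a2⟩ := z_out hz 1
      obtain ⟨-, a3⟩ := z_out hz I
      obtain ⟨-, a4⟩ := z_out hz e
      have a5 : fderiv ℝ (fun z => V z * G z) z e = 0 := by
        have hz' : z ∉ tsupport (fun z => V z * G z) := by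
          intro hcon
          apply hz
          refine closure_mono ?_ hcon
          intro w hw
          exact left_ne_zero_of_mul (left_ne_zero_of_mul hw)
        rw [fderiv_of_notMem_tsupport ℝ hz']
        rfl
      simp [dx, dy, a1, a2, a3, a4, a5]
  rw [energy1 hB h sv hζ]
  have cz := (dxs ζ hζ.1).continuous
  have cz' := (dys ζ hζ.1).continuous
  -- integrability facts
  have I1 : Integrable (fun z => h ^ 2 * (dx ζ z ^ 2 + dy ζ z ^ 2) * v z ^ 2) := by
    have t1 := Pool.Agent.W450.RW.T.tf_deriv hζ 1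
    have t2 := Pool.Agent.W450.RW.T.tf_deriv hζ I
    have k1 := Pool.Agent.W249.RW.prod_cd hB t1 (t1.1.contDiffOn.mul (sv.mul sv))
    have k2 := Pool.Agent.W249.RW.prod_cd hB t2 (t2.1.contDiffOn.mul (sv.mul sv))
    have l1 := k1.continuous.integrable_of_hasCompactSupport (μ := (volume : Measure ℂ))
      (t1.2.1.mul_right)
    have l2 := k2.continuous.integrable_of_hasCompactSupport (μ := (volume : Measure ℂ))
      (t2.2.1.mul_right)
    refine ((l1.add l2).const_mul (h ^ 2)).congr (ae_of_all _ fun z => ?_)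
    simp only [Pi.add_apply, dx, dy]; ring
  have cVe : Continuous (fun z => fderiv ℝ V z e) :=
    (cV.continuous_fderiv (by simp)).clm_apply continuous_const
  have I2 : Integrable (fun z => h * fderiv ℝ V z e * (ζ z * g z)) := by
    refine ((continuous_const.mul cVe).mul cG.continuous).integrable_of_hasCompactSupport ?_
    exact sG.mul_left
  have I3 : Integrable (fun z => h * (ζ z * v z) * (fderiv ℝ ζ z e * g z)) := by
    have t1 := Pool.Agent.W450.RW.T.tf_deriv hζ e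
    have k1 := Pool.Agent.W249.RW.prod_cd hB t1 sg
    refine ((continuous_const.mul cV.continuous).mul k1.continuous).integrable_of_hasCompactSupport ?_
    exact (t1.2.1.mul_right).mul_left
  have I123 : Integrable (fun z => h ^ 2 * (dx ζ z ^ 2 + dy ζ z ^ 2) * v z ^ 2 +
      h * fderiv ℝ V z e * (ζ z * g z) + h * (ζ z * v z) * (fderiv ℝ ζ z e * g z)) :=
    (I1.add I2).add I3
  rw [integral_congr_ae (ae_of_all _ key), integral_sub I123 (i0.const_mul h),
    integral_const_mul h, j0, mul_zero, sub_zero]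
  have IV : Integrable (fun z => dx V z ^ 2 + dy V z ^ 2) := Pool.Agent.W249.RW.grad_int cV sV
  -- the pointwise bound
  have I4 : Integrable (fun z => (1 / 2) * (h ^ 2 * (dx V z ^ 2 + dy V z ^ 2))) :=
    (IV.const_mul _).const_mul _
  have hM0 : 0 ≤ M := le_trans (by positivity) (hM 0)
  have Iv : IntegrableOn (fun z => (3 / 2) * M * v z ^ 2 + g z ^ 2) S :=
    (hi.const_mul _).add hj
  have Iu : Integrable (S.indicator (fun z => (3 / 2) * M * v z ^ 2 + g z ^ 2)) :=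
    (integrable_indicator_iff hS).2 Iv
  have hpt : ∀ z, h ^ 2 * (dx ζ z ^ 2 + dy ζ z ^ 2) * v z ^ 2 +
      h * fderiv ℝ V z e * (ζ z * g z) + h * (ζ z * v z) * (fderiv ℝ ζ z e * g z) ≤
      (1 / 2) * (h ^ 2 * (dx V z ^ 2 + dy V z ^ 2)) +
        S.indicator (fun z => (3 / 2) * M * v z ^ 2 + g z ^ 2) z := by
    intro z
    by_cases hz : z ∈ tsupport ζ
    · rw [Set.indicator_of_mem (hsub hz)]
      have k1 := mul_le_mul_of_nonneg_right (hM z) (sq_nonneg (v z))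
      have k2 := mul_le_mul_of_nonneg_right (h1 z) (sq_nonneg (g z))
      have k3 := mul_le_mul_of_nonneg_left (he V z) (sq_nonneg h)
      have k4 := mul_le_mul_of_nonneg_left (he ζ z)
        (mul_nonneg (sq_nonneg h) (sq_nonneg (v z)))
      have k5 : 0 ≤ (h * fderiv ℝ V z e - ζ z * g z) ^ 2 := sq_nonneg _
      have k6 : 0 ≤ (h * (fderiv ℝ ζ z e * v z) - ζ z * g z) ^ 2 := sq_nonneg _
      have k7 : 0 ≤ ζ z ^ 2 * v z ^ 2 := by positivity
      nlinarith
    · obtain ⟨a1, a2⟩ := z_out hz 1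
      obtain ⟨-, a3⟩ := z_out hz I
      have hr : 0 ≤ S.indicator (fun z => (3 / 2) * M * v z ^ 2 + g z ^ 2) z :=
        Set.indicator_nonneg (fun z _ => by positivity) z
      have hr2 : 0 ≤ (1 / 2) * (h ^ 2 * (dx V z ^ 2 + dy V z ^ 2)) := by positivity
      have e0 : h ^ 2 * (dx ζ z ^ 2 + dy ζ z ^ 2) * v z ^ 2 +
        h * fderiv ℝ V z e * (ζ z * g z) + h * (ζ z * v z) * (fderiv ℝ ζ z e * g z) = 0 := by
        simp [dx, dy, a1, a2, a3]
      rw [e0]; linarith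
  have fin := integral_mono I123 (I4.add Iu) hpt
  simp only [Pi.add_apply] at fin
  rw [integral_add I4 Iu, integral_const_mul, integral_const_mul, integral_indicator hS,
    integral_add (hi.const_mul _) hj, integral_const_mul] at fin
  have e9 := energy1 hB h sv hζ
  rw [integral_congr_ae (ae_of_all _ key), integral_sub I123 (i0.const_mul h),
    integral_const_mul h, j0, mul_zero, sub_zero] at e9
  rw [← e9] at fin ⊢
  linarith

end

end Pool.Agent.TH294.RS
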