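import Pool.Agent.TH294.RS.DCL
import Pool.Agent.W745.RW.Mom
import Pool.Agent.W745.RW.AlB
import Pool.Agent.W75.RW.Two

/-!
Project RS (helper294): approximate ladder systems; all fourth order moments.
-/

set_option autoImplicit false
open MeasureTheory Filter Topology Complex
open scoped ContDiff

namespace Pool.Agent.TH294.RS

open Pool.Agent.W745.RW

noncomputable section

/-- `h a (∂x - i ∂y)` -/
def DP (a : ℂ → ℝ) (h : ℝ) (f : ℂ → ℂ) (z : ℂ) : ℂ := (h : ℂ) * ((a z : ℂ) * dd f z)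
/-- `h a (∂x + i ∂y)` -/
def DM (a : ℂ → ℝ) (h : ℝ) (f : ℂ → ℂ) (z : ℂ) : ℂ := (h : ℂ) * ((a z : ℂ) * db f z)

/-- approximate ladder systems -/
structure AS (B : Set ℂ) (a : ℂ → ℝ) (h : ℕ → ℝ) (w : ℤ → ℕ → ℂ → ℂ) : Prop where
  hpos : ∀ n, 0 < h n
  hlim : Tendsto h atTop (𝓝 0)
  sa : ContDiffOn ℝ ∞ a B
  pa : ∀ z ∈ B, 0 < a z
  bd : ∀ k, LB B 4 (w k)
  up : ∀ k, ∃ e, LB B 4 e ∧ ∀ n, ∀ z ∈ B,
    DP a (h n) (w k n) z = w (k + 1) n z + (h n : ℂ) * e n z
  dn : ∀ k, ∃ e, LB B 4 e ∧ ∀ n, ∀ z ∈ B,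
    DM a (h n) (w k n) z = - w (k - 1) n z + (h n : ℂ) * e n z
  cj : ∀ k n, ∀ z ∈ B, (starRingEnd ℂ) (w k n z) = (-1) ^ k.natAbs * w (-k) n z
  qe : ∀ k : ℕ, WN B (fun n z => w 0 n z * w k n z - (if k = 0 then 1 else 0))

lemma WN.conj {B : Set ℂ} {f : ℕ → ℂ → ℂ} (hf : WN B f) :
    WN B (fun n z => (starRingEnd ℂ) (f n z)) := by
  refine ⟨fun n => continuous_conj.comp_continuousOn (hf.co n), fun φ hφ => ?_⟩
  have h1 := (Complex.continuous_conj.tendsto _).comp (hf.nul φ hφ)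
  rw [map_zero] at h1
  refine Tendsto.congr (fun n => ?_) h1
  show (starRingEnd ℂ) (∫ z, (φ z : ℂ) * f n z) = _
  rw [← integral_conj]
  congr 1; funext z
  rw [map_mul, conj_ofReal]

variable {B : Set ℂ} {a : ℂ → ℝ} {h : ℕ → ℝ} {w : ℤ → ℕ → ℂ → ℂ}

lemma LB.wnP (hB : IsOpen B) {G : ℕ → ℂ → ℂ} (hG : LB B 1 G) (hh : Tendsto h atTop (𝓝 0))
    (ha : ContDiffOn ℝ ∞ a B) : WN B (fun n z => DP a (h n) (G n) z) := by
  have h1 := hG.parts hB hh ha 1
  have h2 := (hG.parts hB hh ha I).cmul I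
  exact (h1.sub h2).congr fun n z _ => by simp only [DP, dd, dx, dy]; ring

lemma LB.wnM (hB : IsOpen B) {G : ℕ → ℂ → ℂ} (hG : LB B 1 G) (hh : Tendsto h atTop (𝓝 0))
    (ha : ContDiffOn ℝ ∞ a B) : WN B (fun n z => DM a (h n) (G n) z) := by
  have h1 := hG.parts hB hh ha 1
  have h2 := (hG.parts hB hh ha I).cmul I
  exact (h1.add h2).congr fun n z _ => by simp only [DM, db, dx, dy]; ring

lemma da (hB : IsOpen B) {f : ℂ → ℂ} (hf : ContDiffOn ℝ ∞ f B) {z : ℂ} (hz : z ∈ B) :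
    DifferentiableAt ℝ f z := (hf.contDiffAt (hB.mem_nhds hz)).differentiableAt (by simp)

lemma dd_mul {f g : ℂ → ℂ} {z : ℂ} (hf : DifferentiableAt ℝ f z) (hg : DifferentiableAt ℝ g z) :
    dd (fun z => f z * g z) z = dd f z * g z + f z * dd g z := by
  have e : ∀ v, fderiv ℝ (fun z => f z * g z) z v =
      fderiv ℝ f z v * g z + f z * fderiv ℝ g z v := by
    intro v
    rw [fderiv_fun_mul hf hg]
    simp only [add_apply, smul_apply, smul_eq_mul]
    ring
  simp only [dd, dx, dy, e]; ring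

lemma db_mul {f g : ℂ → ℂ} {z : ℂ} (hf : DifferentiableAt ℝ f z) (hg : DifferentiableAt ℝ g z) :
    db (fun z => f z * g z) z = db f z * g z + f z * db g z := by
  have e : ∀ v, fderiv ℝ (fun z => f z * g z) z v =
      fderiv ℝ f z v * g z + f z * fderiv ℝ g z v := by
    intro v
    rw [fderiv_fun_mul hf hg]
    simp only [add_apply, smul_apply, smul_eq_mul]
    ring
  simp only [db, dx, dy, e]; ring

lemma dd_sub {f g : ℂ → ℂ} {z : ℂ} (hf : DifferentiableAt ℝ f z) (hg : DifferentiableAt ℝ g z) :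
    dd (fun z => f z - g z) z = dd f z - dd g z := by
  simp only [dd, dx, dy, fderiv_fun_sub hf hg, sub_apply]; ring

lemma db_sub {f g : ℂ → ℂ} {z : ℂ} (hf : DifferentiableAt ℝ f z) (hg : DifferentiableAt ℝ g z) :
    db (fun z => f z - g z) z = db f z - db g z := by
  simp only [db, dx, dy, fderiv_fun_sub hf hg, sub_apply]; ring

lemma LB.mul4 {f g : ℕ → ℂ → ℂ} (hf : LB B 4 f) (hg : LB B 4 g) :
    LB B 2 (fun n z => f n z * g n z) := LB.mul (p := 2) hf hg

lemma LB.mul2 {f g : ℕ → ℂ → ℂ} (hf : LB B 2 f) (hg : LB B 2 g) :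
    LB B 1 (fun n z => f n z * g n z) := LB.mul (p := 1) hf hg

/-- one step of the two point relation -/
lemma AS.step2 (H : AS B a h w) (hB : IsOpen B) (j k : ℤ) :
    WN B (fun n z => w (j + 1) n z * w k n z + w j n z * w (k + 1) n z) := by
  obtain ⟨e, he, he'⟩ := H.up j
  obtain ⟨f, hf, hf'⟩ := H.up k
  have l1 : LB B 1 (fun n z => w j n z * w k n z) := ((H.bd j).mul4 (H.bd k)).low (p := 1)
  have l2 : LB B 1 (fun n z => e n z * w k n z + w j n z * f n z) :=
    ((he.mul4 (H.bd k)).add ((H.bd j).mul4 hf)).low (p := 1)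
  refine ((l1.wnP hB H.hlim H.sa).sub (l2.wn H.hlim)).congr fun n z hz => ?_
  have e1 := he' n z hz
  have e2 := hf' n z hz
  simp only [DP] at e1 e2 ⊢
  rw [dd_mul (da hB ((H.bd j).sm n) hz) (da hB ((H.bd k).sm n) hz)]
  linear_combination (-(w k n z)) * e1 - (w j n z) * e2

lemma CC_st (j k : ℤ) : CC (j + 1) k + CC j (k + 1) = 0 := Pool.Agent.W75.RW.Two.CC_step j k

lemma AS.base2 (H : AS B a h w) (k : ℤ) : WN B (fun n z => w 0 n z * w k n z - CC 0 k) := by
  have hnat : ∀ k : ℕ, WN B (fun n z => w 0 n z * w k n z - CC 0 k) := by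
    intro k
    have := H.qe k
    have h1 : (if k = 0 then (1 : ℂ) else 0) = CC 0 k := by
      unfold CC
      by_cases hk : k = 0
      · subst hk; simp
      · have : ¬ ((0 : ℤ) + (k : ℤ) = 0) := by omega
        rw [if_neg hk, if_neg this]
    rw [h1] at this
    exact this
  rcases Int.eq_nat_or_neg k with ⟨m, rfl | rfl⟩
  · exact hnat m
  · by_cases hk : m = 0
    · subst hk
      simpa using hnat 0
    have h0 : CC 0 (-(m : ℤ)) = 0 := by
      unfold CC
      have : ¬ ((0 : ℤ) + -(m : ℤ) = 0) := by omega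
      rw [if_neg this]
    have h0' : CC 0 (m : ℤ) = 0 := by
      unfold CC
      have : ¬ ((0 : ℤ) + (m : ℤ) = 0) := by omega
      rw [if_neg this]
    have hk' := hnat m
    rw [h0'] at hk'
    rw [h0]
    refine (hk'.conj.cmul ((-1) ^ m)).congr fun n z hz => ?_
    have h4 := H.cj m n z hz
    have h5 := H.cj 0 n z hz
    simp only [Int.natAbs_natCast, Int.natAbs_zero, pow_zero, one_mul, neg_zero] at h4 h5
    rw [sub_zero, sub_zero, map_mul, h4, h5]
    have h6 : ((-1 : ℂ) ^ m) * (-1) ^ m = 1 := by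
      rw [← mul_pow]; simp
    linear_combination (-(w 0 n z * w (-(m : ℤ)) n z)) * h6

/-- two point limits -/
theorem AS.two (H : AS B a h w) (hB : IsOpen B) (j : ℤ) :
    ∀ k : ℤ, WN B (fun n z => w j n z * w k n z - CC j k) := by
  induction j using Int.induction_on with
  | zero => exact fun k => H.base2 k
  | succ i ih =>
    intro k
    refine ((H.step2 hB i k).sub (ih (k + 1))).congr fun n z _ => ?_
    have := CC_st i k
    linear_combination (-1 : ℂ) * this
  | pred i ih =>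
    intro k
    have h1 := H.step2 hB (-i - 1) (k - 1)
    have e1 : (-(i : ℤ) - 1 + 1) = -i := by ring
    have e2 : (k - 1 + 1) = k := by ring
    rw [e1, e2] at h1
    refine (h1.sub (ih (k - 1))).congr fun n z _ => ?_
    have := CC_st (-i - 1) (k - 1)
    rw [e1, e2] at this
    linear_combination (-1 : ℂ) * this

/-- the first translation relation -/
lemma AS.tr (H : AS B a h w) (hB : IsOpen B) (i j k l : ℤ) :
    WN B (fun n z => w (i + 1) n z * w j n z * w k n z * w l n z +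
      w i n z * w (j + 1) n z * w k n z * w l n z + w i n z * w j n z * w (k + 1) n z * w l n z +
      w i n z * w j n z * w k n z * w (l + 1) n z) := by
  obtain ⟨e1, he1, g1⟩ := H.up i
  obtain ⟨e2, he2, g2⟩ := H.up j
  obtain ⟨e3, he3, g3⟩ := H.up k
  obtain ⟨e4, he4, g4⟩ := H.up l
  have l1 : LB B 1 (fun n z => (w i n z * w j n z) * (w k n z * w l n z)) :=
    ((H.bd i).mul4 (H.bd j)).mul2 ((H.bd k).mul4 (H.bd l))
  have l2 : LB B 1 (fun n z => (e1 n z * w j n z) * (w k n z * w l n z) +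
      (w i n z * e2 n z) * (w k n z * w l n z) + (w i n z * w j n z) * (e3 n z * w l n z) +
      (w i n z * w j n z) * (w k n z * e4 n z)) :=
    ((((he1.mul4 (H.bd j)).mul2 ((H.bd k).mul4 (H.bd l))).add
      (((H.bd i).mul4 he2).mul2 ((H.bd k).mul4 (H.bd l)))).add
      (((H.bd i).mul4 (H.bd j)).mul2 (he3.mul4 (H.bd l)))).add
      (((H.bd i).mul4 (H.bd j)).mul2 ((H.bd k).mul4 he4))
  refine ((l1.wnP hB H.hlim H.sa).sub (l2.wn H.hlim)).congr fun n z hz => ?_
  have c1 := g1 n z hz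
  have c2 := g2 n z hz
  have c3 := g3 n z hz
  have c4 := g4 n z hz
  have d1 := da hB ((H.bd i).sm n) hz
  have d2 := da hB ((H.bd j).sm n) hz
  have d3 := da hB ((H.bd k).sm n) hz
  have d4 := da hB ((H.bd l).sm n) hz
  simp only [DP] at c1 c2 c3 c4 ⊢
  rw [dd_mul (f := fun z => w i n z * w j n z) (g := fun z => w k n z * w l n z) (d1.mul d2)
    (d3.mul d4), dd_mul d1 d2, dd_mul d3 d4]
  linear_combination (-(w j n z * w k n z * w l n z)) * c1 - (w i n z * w k n z * w l n z) * c2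
    - (w i n z * w j n z * w l n z) * c3 - (w i n z * w j n z * w k n z) * c4

/-- the second translation relation -/
lemma AS.tr' (H : AS B a h w) (hB : IsOpen B) (i j k l : ℤ) :
    WN B (fun n z => w (i - 1) n z * w j n z * w k n z * w l n z +
      w i n z * w (j - 1) n z * w k n z * w l n z + w i n z * w j n z * w (k - 1) n z * w l n z +
      w i n z * w j n z * w k n z * w (l - 1) n z) := by
  obtain ⟨e1, he1, g1⟩ := H.dn i
  obtain ⟨e2, he2, g2⟩ := H.dn j
  obtain ⟨e3, he3, g3⟩ := H.dn k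
  obtain ⟨e4, he4, g4⟩ := H.dn l
  have l1 : LB B 1 (fun n z => (w i n z * w j n z) * (w k n z * w l n z)) :=
    ((H.bd i).mul4 (H.bd j)).mul2 ((H.bd k).mul4 (H.bd l))
  have l2 : LB B 1 (fun n z => (e1 n z * w j n z) * (w k n z * w l n z) +
      (w i n z * e2 n z) * (w k n z * w l n z) + (w i n z * w j n z) * (e3 n z * w l n z) +
      (w i n z * w j n z) * (w k n z * e4 n z)) :=
    ((((he1.mul4 (H.bd j)).mul2 ((H.bd k).mul4 (H.bd l))).add
      (((H.bd i).mul4 he2).mul2 ((H.bd k).mul4 (H.bd l)))).add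
      (((H.bd i).mul4 (H.bd j)).mul2 (he3.mul4 (H.bd l)))).add
      (((H.bd i).mul4 (H.bd j)).mul2 ((H.bd k).mul4 he4))
  refine ((l2.wn H.hlim).sub (l1.wnM hB H.hlim H.sa)).congr fun n z hz => ?_
  have c1 := g1 n z hz
  have c2 := g2 n z hz
  have c3 := g3 n z hz
  have c4 := g4 n z hz
  have d1 := da hB ((H.bd i).sm n) hz
  have d2 := da hB ((H.bd j).sm n) hz
  have d3 := da hB ((H.bd k).sm n) hz
  have d4 := da hB ((H.bd l).sm n) hz
  simp only [DM] at c1 c2 c3 c4 ⊢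
  rw [db_mul (f := fun z => w i n z * w j n z) (g := fun z => w k n z * w l n z) (d1.mul d2)
    (d3.mul d4), db_mul d1 d2, db_mul d3 d4]
  linear_combination ((w j n z * w k n z * w l n z)) * c1 + (w i n z * w k n z * w l n z) * c2
    + (w i n z * w j n z * w l n z) * c3 + (w i n z * w j n z * w k n z) * c4

/-- the div-curl pair -/
def PP (w : ℤ → ℕ → ℂ → ℂ) (i j : ℤ) (n : ℕ) (z : ℂ) : ℂ :=
  w i n z * w (j + 1) n z - w (i + 1) n z * w j n z
def QQ (w : ℤ → ℕ → ℂ → ℂ) (i j : ℤ) (n : ℕ) (z : ℂ) : ℂ :=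
  w i n z * w (j - 1) n z - w (i - 1) n z * w j n z

lemma AS.bPP (H : AS B a h w) (i j : ℤ) : LB B 2 (PP w i j) :=
  ((H.bd i).mul4 (H.bd (j + 1))).sub ((H.bd (i + 1)).mul4 (H.bd j))
lemma AS.bQQ (H : AS B a h w) (i j : ℤ) : LB B 2 (QQ w i j) :=
  ((H.bd i).mul4 (H.bd (j - 1))).sub ((H.bd (i - 1)).mul4 (H.bd j))

lemma AS.wPP (H : AS B a h w) (hB : IsOpen B) (i j : ℤ) :
    WN B (fun n z => PP w i j n z - (CC i (j + 1) - CC (i + 1) j)) :=
  ((H.two hB i (j + 1)).sub (H.two hB (i + 1) j)).congr fun n z _ => by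
    simp only [PP]; ring
lemma AS.wQQ (H : AS B a h w) (hB : IsOpen B) (i j : ℤ) :
    WN B (fun n z => QQ w i j n z - (CC i (j - 1) - CC (i - 1) j)) :=
  ((H.two hB i (j - 1)).sub (H.two hB (i - 1) j)).congr fun n z _ => by
    simp only [QQ]; ring

lemma AS.bR (H : AS B a h w) (hB : IsOpen B) (i j : ℤ) :
    LB B 2 (fun n z => db (PP w i j n) z - dd (QQ w i j n) z) := by
  obtain ⟨e1, he1, g1⟩ := H.dn i
  obtain ⟨e2, he2, g2⟩ := H.dn (j + 1)
  obtain ⟨e3, he3, g3⟩ := H.dn (i + 1)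
  obtain ⟨e4, he4, g4⟩ := H.dn j
  obtain ⟨f1, hf1, k1⟩ := H.up i
  obtain ⟨f2, hf2, k2⟩ := H.up (j - 1)
  obtain ⟨f3, hf3, k3⟩ := H.up (i - 1)
  obtain ⟨f4, hf4, k4⟩ := H.up j
  have l1 : LB B 2 (fun n z => (e1 n z * w (j + 1) n z + w i n z * e2 n z -
      (e3 n z * w j n z + w (i + 1) n z * e4 n z)) -
      (f1 n z * w (j - 1) n z + w i n z * f2 n z -
      (f3 n z * w j n z + w (i - 1) n z * f4 n z))) :=
    (((he1.mul4 (H.bd (j + 1))).add ((H.bd i).mul4 he2)).sub
      ((he3.mul4 (H.bd j)).add ((H.bd (i + 1)).mul4 he4))).sub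
    (((hf1.mul4 (H.bd (j - 1))).add ((H.bd i).mul4 hf2)).sub
      ((hf3.mul4 (H.bd j)).add ((H.bd (i - 1)).mul4 hf4)))
  have ha : ContDiffOn ℝ ∞ (fun z => ((a z : ℂ))⁻¹) B := by
    refine ContDiffOn.inv (ofRealCLM.contDiff.comp_contDiffOn H.sa) fun z hz => ?_
    have := (H.pa z hz).ne'
    exact_mod_cast this
  refine (l1.smulc ha).congr fun n z hz => ?_
  have d1 := da hB ((H.bd i).sm n) hz
  have d2 := da hB ((H.bd (j + 1)).sm n) hz
  have d3 := da hB ((H.bd (i + 1)).sm n) hz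
  have d4 := da hB ((H.bd j).sm n) hz
  have d5 := da hB ((H.bd (j - 1)).sm n) hz
  have d6 := da hB ((H.bd (i - 1)).sm n) hz
  have c1 := g1 n z hz
  have c2 := g2 n z hz
  have c3 := g3 n z hz
  have c4 := g4 n z hz
  have b1 := k1 n z hz
  have b2 := k2 n z hz
  have b3 := k3 n z hz
  have b4 := k4 n z hz
  rw [add_sub_cancel_right] at c2 c3
  rw [sub_add_cancel] at b2 b3
  have hn : (h n : ℂ) ≠ 0 := by exact_mod_cast (H.hpos n).ne'
  have han : (a z : ℂ) ≠ 0 := by exact_mod_cast (H.pa z hz).ne'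
  have eP : db (PP w i j n) z = (db (w i n) z * w (j + 1) n z + w i n z * db (w (j + 1) n) z) -
      (db (w (i + 1) n) z * w j n z + w (i + 1) n z * db (w j n) z) := by
    have : PP w i j n = fun z => w i n z * w (j + 1) n z - w (i + 1) n z * w j n z := rfl
    rw [this, db_sub (f := fun z => w i n z * w (j + 1) n z) (g := fun z => w (i + 1) n z * w j n z)
      (d1.mul d2) (d3.mul d4), db_mul d1 d2, db_mul d3 d4]
  have eQ : dd (QQ w i j n) z = (dd (w i n) z * w (j - 1) n z + w i n z * dd (w (j - 1) n) z) -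
      (dd (w (i - 1) n) z * w j n z + w (i - 1) n z * dd (w j n) z) := by
    have : QQ w i j n = fun z => w i n z * w (j - 1) n z - w (i - 1) n z * w j n z := rfl
    rw [this, dd_sub (f := fun z => w i n z * w (j - 1) n z) (g := fun z => w (i - 1) n z * w j n z)
      (d1.mul d5) (d6.mul d4), dd_mul d1 d5, dd_mul d6 d4]
  rw [eP, eQ]
  simp only [DM, DP] at c1 c2 c3 c4 b1 b2 b3 b4
  have han' : (a z : ℂ) * (a z : ℂ)⁻¹ = 1 := mul_inv_cancel₀ han
  apply mul_left_cancel₀ (mul_ne_zero hn han)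
  rw [show ∀ X : ℂ, (h n : ℂ) * (a z : ℂ) * ((a z : ℂ)⁻¹ * X) = (h n : ℂ) * X * ((a z : ℂ) *
    (a z : ℂ)⁻¹) by intro X; ring, han', mul_one]
  linear_combination (w (j + 1) n z) * c1 + (w i n z) * c2 - (w j n z) * c3
    - (w (i + 1) n z) * c4 - (w (j - 1) n z) * b1 - (w i n z) * b2 + (w j n z) * b3
    + (w (i - 1) n z) * b4

/-- the cross relation -/
lemma AS.cross (H : AS B a h w) (hB : IsOpen B) (i j k l : ℤ) :
    WN B (fun n z => PP w i j n z * QQ w k l n z - QQ w i j n z * PP w k l n z -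
      ((CC i (j + 1) - CC (i + 1) j) * (CC k (l - 1) - CC (k - 1) l) -
       (CC i (j - 1) - CC (i - 1) j) * (CC k (l + 1) - CC (k + 1) l))) :=
  dcl hB (H.bPP i j) (H.bQQ i j) (H.bPP k l) (H.bQQ k l) (H.bR hB i j) (H.bR hB k l)
    (H.wPP hB i j) (H.wQQ hB i j) (H.wPP hB k l) (H.wQQ hB k l)

/-- the product of four -/
def F4 (w : ℤ → ℕ → ℂ → ℂ) (i j k l : ℤ) (n : ℕ) (z : ℂ) : ℂ :=
  w i n z * w j n z * w k n z * w l n z

/-- All fourth order moments of total order zero. -/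
theorem AS.mom4 (H : AS B a h w) (hB : IsOpen B) {φ : ℂ → ℝ} (hφ : TF B φ) (i j k l : ℤ)
    (hs : i + j + k + l = 0) :
    Tendsto (fun n => (∫ z, (φ z : ℂ) * F4 w i j k l n z) -
      eps i j k l * ∫ z, (φ z : ℂ) * F4 w 0 0 0 0 n z) atTop
      (𝓝 ((GG i j k l - 3 * eps i j k l) * (∫ z, φ z : ℝ))) := by
  set J : ℂ := ((∫ z, φ z : ℝ) : ℂ) with hJ
  have hc : ∀ i j k l n, ContinuousOn (F4 w i j k l n) B := fun i j k l n =>
    ((((H.bd i).co n).mul ((H.bd j).co n)).mul ((H.bd k).co n)).mul ((H.bd l).co n)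
  have I4 : ∀ i j k l n, Integrable (fun z => (φ z : ℂ) * F4 w i j k l n z) :=
    fun i j k l n => TF.cint hφ (hc i j k l n)
  have IJ : Integrable (fun z => (φ z : ℂ)) :=
    (hφ.1.continuous.integrable_of_hasCompactSupport hφ.2.1).ofReal
  have hJ' : ∀ c : ℂ, ∫ z, (φ z : ℂ) * c = c * J := by
    intro c
    rw [integral_mul_const, hJ, integral_complex_ofReal, mul_comm]
  have key := al2 AlB.al2' (fun i j k l n => (∫ z, (φ z : ℂ) * F4 w i j k l n z) - GG i j k l * J)
    (fun i j k l => by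
      ext n
      rw [GG12]
      congr 2; funext z; simp only [F4]; ring)
    (fun i j k l => by
      ext n
      rw [GG23]
      congr 2; funext z; simp only [F4]; ring)
    (fun i j k l => by
      ext n
      rw [GG34]
      congr 2; funext z; simp only [F4]; ring)
    (fun i j k l => by
      have h1 := (H.tr hB i j k l).nul φ hφ
      have h2 := GG_T i j k l
      refine h1.congr (fun n => ?_)
      have h3 : ∫ z, (φ z : ℂ) * (w (i + 1) n z * w j n z * w k n z * w l n z +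
          w i n z * w (j + 1) n z * w k n z * w l n z +
          w i n z * w j n z * w (k + 1) n z * w l n z +
          w i n z * w j n z * w k n z * w (l + 1) n z) =
          (∫ z, (φ z : ℂ) * F4 w (i + 1) j k l n z) + (∫ z, (φ z : ℂ) * F4 w i (j + 1) k l n z) +
          (∫ z, (φ z : ℂ) * F4 w i j (k + 1) l n z) + ∫ z, (φ z : ℂ) * F4 w i j k (l + 1) n z := by
        rw [Pool.Agent.W450.RW.T.add4 (I4 _ _ _ _ _) (I4 _ _ _ _ _) (I4 _ _ _ _ _)
          (I4 _ _ _ _ _)]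
        congr 1; funext z; simp only [F4]; ring
      rw [h3]
      linear_combination J * h2)
    (fun i j k l => by
      have h1 := (H.tr' hB i j k l).nul φ hφ
      have h2 := GG_T' i j k l
      refine h1.congr (fun n => ?_)
      have h3 : ∫ z, (φ z : ℂ) * (w (i - 1) n z * w j n z * w k n z * w l n z +
          w i n z * w (j - 1) n z * w k n z * w l n z +
          w i n z * w j n z * w (k - 1) n z * w l n z +
          w i n z * w j n z * w k n z * w (l - 1) n z) =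
          (∫ z, (φ z : ℂ) * F4 w (i - 1) j k l n z) + (∫ z, (φ z : ℂ) * F4 w i (j - 1) k l n z) +
          (∫ z, (φ z : ℂ) * F4 w i j (k - 1) l n z) + ∫ z, (φ z : ℂ) * F4 w i j k (l - 1) n z := by
        rw [Pool.Agent.W450.RW.T.add4 (I4 _ _ _ _ _) (I4 _ _ _ _ _) (I4 _ _ _ _ _)
          (I4 _ _ _ _ _)]
        congr 1; funext z; simp only [F4]; ring
      rw [h3]
      linear_combination J * h2)
    (fun i j k l => by
      have h1 := (H.cross hB i j k l).nul φ hφ
      have h2 := GG_X i j k l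
      rw [← h2] at h1
      refine h1.congr (fun n => ?_)
      have i9 := Pool.Agent.W686.RW.X.int8 (I4 i (j + 1) k (l - 1) n) (I4 i (j + 1) (k - 1) l n)
        (I4 (i + 1) j k (l - 1) n) (I4 (i + 1) j (k - 1) l n)
        (I4 i (j - 1) k (l + 1) n) (I4 i (j - 1) (k + 1) l n)
        (I4 (i - 1) j k (l + 1) n) (I4 (i - 1) j (k + 1) l n)
      have m : ∀ c : ℂ, ∫ z, (φ z : ℂ) * (PP w i j n z * QQ w k l n z - QQ w i j n z * PP w k l n z -
          c) = (∫ z, (φ z : ℂ) * (PP w i j n z * QQ w k l n z - QQ w i j n z * PP w k l n z)) -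
          c * J := by
        intro c
        have hco : ContinuousOn (fun z => PP w i j n z * QQ w k l n z -
            QQ w i j n z * PP w k l n z) B :=
          (((H.bPP i j).co n).mul ((H.bQQ k l).co n)).sub
            (((H.bQQ i j).co n).mul ((H.bPP k l).co n))
        rw [← hJ' c, ← integral_sub (TF.cint hφ hco) (IJ.mul_const c)]
        congr 1; funext z; ring
      rw [m]
      have m2 : ∫ z, (φ z : ℂ) * (PP w i j n z * QQ w k l n z - QQ w i j n z * PP w k l n z) =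
          ∫ z, (((φ z : ℂ) * F4 w i (j + 1) k (l - 1) n z - (φ z : ℂ) * F4 w i (j + 1) (k - 1) l n z
            - (φ z : ℂ) * F4 w (i + 1) j k (l - 1) n z + (φ z : ℂ) * F4 w (i + 1) j (k - 1) l n z)
          - ((φ z : ℂ) * F4 w i (j - 1) k (l + 1) n z - (φ z : ℂ) * F4 w i (j - 1) (k + 1) l n z
            - (φ z : ℂ) * F4 w (i - 1) j k (l + 1) n z
            + (φ z : ℂ) * F4 w (i - 1) j (k + 1) l n z)) := by
        congr 1; funext z; simp only [F4, PP, QQ]; ring
      rw [m2, i9]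
      ring)
    i j k l hs
  have h0 : GG 0 0 0 0 = 3 := by simp [GG, CC]; norm_num
  have k2 : Tendsto (fun n => ((∫ z, (φ z : ℂ) * F4 w i j k l n z) - GG i j k l * J
      - eps i j k l * ((∫ z, (φ z : ℂ) * F4 w 0 0 0 0 n z) - GG 0 0 0 0 * J)) +
      (GG i j k l - 3 * eps i j k l) * J)
      atTop (𝓝 (0 + (GG i j k l - 3 * eps i j k l) * J)) := Tendsto.add_const _ key
  rw [zero_add] at k2
  refine k2.congr (fun n => ?_)
  rw [h0]; ring

end

end Pool.Agent.TH294.RS
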