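import Pool.Agent.W745.RW.Stm

/-!
Project RS (helper294): a div-curl lemma in the plane in complex form, with square integrable
remainders, by the Fourier transform.
-/

set_option autoImplicit false
open MeasureTheory Filter Topology Complex
open scoped ContDiff SchwartzMap FourierTransform LineDeriv Manifold

namespace Pool.Agent.TH294.RS

open Pool.Agent.W745.RW

noncomputable section

/-- `∂x + i ∂y` -/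
def db (f : ℂ → ℂ) (z : ℂ) : ℂ := dx f z + I * dy f z
/-- `∂x - i ∂y` -/
def dd (f : ℂ → ℂ) (z : ℂ) : ℂ := dx f z - I * dy f z

/-- smooth with compact support -/
def CS (f : ℂ → ℂ) : Prop := ContDiff ℝ ∞ f ∧ HasCompactSupport f

/-- the Schwartz function -/
def sch (f : ℂ → ℂ) (h : CS f) : 𝓢(ℂ, ℂ) := h.2.toSchwartzMap h.1

@[simp] lemma sch_apply (f : ℂ → ℂ) (h : CS f) (z : ℂ) : sch f h z = f z := rfl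

lemma ft_dv (f : 𝓢(ℂ, ℂ)) (m ξ : ℂ) :
    (𝓕 (∂_{m} f) : 𝓢(ℂ, ℂ)) ξ = (2 * Real.pi * I) * ((inner ℝ ξ m : ℝ) : ℂ) * (𝓕 f) ξ := by
  rw [SchwartzMap.fourier_lineDerivOp_eq]
  have : (inner ℝ · m : ℂ → ℝ).HasTemperateGrowth := ((innerSL ℝ).flip m).hasTemperateGrowth
  rw [smul_apply, SchwartzMap.smulLeftCLM_apply_apply this, smul_eq_mul, Complex.real_smul]
  ring

lemma fti_dv (f : 𝓢(ℂ, ℂ)) (m ξ : ℂ) :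
    (𝓕⁻ (∂_{m} f) : 𝓢(ℂ, ℂ)) ξ = -(2 * Real.pi * I) * ((inner ℝ ξ m : ℝ) : ℂ) * (𝓕⁻ f) ξ := by
  rw [SchwartzMap.fourierInv_lineDerivOp_eq]
  have : (inner ℝ · m : ℂ → ℝ).HasTemperateGrowth := ((innerSL ℝ).flip m).hasTemperateGrowth
  rw [smul_apply, SchwartzMap.smulLeftCLM_apply_apply this, smul_eq_mul, Complex.real_smul]
  ring

lemma inner_one (ξ : ℂ) : (inner ℝ ξ (1 : ℂ) : ℝ) = ξ.re := by
  simp [Complex.inner]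

lemma inner_I (ξ : ℂ) : (inner ℝ ξ (I : ℂ) : ℝ) = ξ.im := by
  simp [Complex.inner]

lemma split_c (ξ : ℂ) : (ξ.re : ℂ) + I * ξ.im = ξ := by
  rw [mul_comm]; exact re_add_im ξ

lemma split_c' (ξ : ℂ) : (ξ.re : ℂ) - I * ξ.im = (starRingEnd ℂ) ξ := by
  apply Complex.ext <;> simp

lemma R_eq (P Q : 𝓢(ℂ, ℂ)) (R : 𝓢(ℂ, ℂ)) (hR : ∀ z, R z = db P z - dd Q z) :
    R = ∂_{(1 : ℂ)} P + I • ∂_{(I : ℂ)} P + (-1 : ℂ) • ∂_{(1 : ℂ)} Q + I • ∂_{(I : ℂ)} Q := by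
  ext z
  rw [hR z]
  simp only [db, dd, dx, dy, add_apply, smul_apply, SchwartzMap.lineDerivOp_apply_eq_fderiv,
    smul_eq_mul]
  ring

/-- transform of `∂̄ P - ∂ Q` -/
lemma ft_R (P Q : 𝓢(ℂ, ℂ)) (R : 𝓢(ℂ, ℂ)) (hR : ∀ z, R z = db P z - dd Q z) (ξ : ℂ) :
    (𝓕 R) ξ = (2 * Real.pi * I) * (ξ * (𝓕 P) ξ - (starRingEnd ℂ) ξ * (𝓕 Q) ξ) := by
  rw [R_eq P Q R hR]
  simp only [FourierTransform.fourier_add, FourierTransform.fourier_smul, add_apply, smul_apply,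
    ft_dv, inner_one, inner_I, smul_eq_mul]
  rw [← split_c' ξ]
  nth_rewrite 9 [← split_c ξ]
  ring

lemma fti_R (P Q : 𝓢(ℂ, ℂ)) (R : 𝓢(ℂ, ℂ)) (hR : ∀ z, R z = db P z - dd Q z) (ξ : ℂ) :
    (𝓕⁻ R) ξ = -(2 * Real.pi * I) * (ξ * (𝓕⁻ P) ξ - (starRingEnd ℂ) ξ * (𝓕⁻ Q) ξ) := by
  rw [R_eq P Q R hR]
  simp only [FourierTransform.fourierInv_add, FourierTransform.fourierInv_smul, add_apply, smul_apply,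
    fti_dv, inner_one, inner_I, smul_eq_mul]
  rw [← split_c' ξ]
  nth_rewrite 9 [← split_c ξ]
  ring

lemma plan (f g : 𝓢(ℂ, ℂ)) : ∫ z, f z * g z = ∫ ξ, (𝓕 f) ξ * (𝓕⁻ g) ξ := by
  rw [SchwartzMap.integral_fourier_mul_eq f (𝓕⁻ g), FourierTransform.fourier_fourierInv_eq]

lemma plan2 (f : 𝓢(ℂ, ℂ)) : ∫ ξ, ‖(𝓕 f) ξ‖ ^ 2 = ∫ z, ‖f z‖ ^ 2 :=
  SchwartzMap.integral_norm_sq_fourier f

lemma plan2i (f : 𝓢(ℂ, ℂ)) : ∫ ξ, ‖(𝓕⁻ f) ξ‖ ^ 2 = ∫ z, ‖f z‖ ^ 2 := by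
  have h := SchwartzMap.integral_norm_sq_fourier (𝓕⁻ f)
  rw [FourierTransform.fourier_fourierInv_eq] at h
  exact h.symm

lemma isq (f : 𝓢(ℂ, ℂ)) : Integrable (fun ξ => ‖f ξ‖ ^ 2) := by
  have := (f.memLp 2 volume).integrable_norm_pow (by norm_num)
  simpa using this

/-- the bracket -/
def AA (P Q P' Q' : 𝓢(ℂ, ℂ)) (ξ : ℂ) : ℂ :=
  (𝓕 P) ξ * (𝓕⁻ Q') ξ - (𝓕 Q) ξ * (𝓕⁻ P') ξ

lemma key (P Q R P' Q' R' : 𝓢(ℂ, ℂ)) (hR : ∀ z, R z = db P z - dd Q z)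
    (hR' : ∀ z, R' z = db P' z - dd Q' z) (ξ : ℂ) :
    (2 * Real.pi * I) * ((starRingEnd ℂ) ξ * AA P Q P' Q' ξ) =
      (𝓕 P) ξ * (𝓕⁻ R') ξ + (𝓕 R) ξ * (𝓕⁻ P') ξ := by
  rw [ft_R P Q R hR, fti_R P' Q' R' hR', AA]
  ring

lemma key2 (P Q R P' Q' R' : 𝓢(ℂ, ℂ)) (hR : ∀ z, R z = db P z - dd Q z)
    (hR' : ∀ z, R' z = db P' z - dd Q' z) (ξ : ℂ) :
    ‖ξ‖ * ‖AA P Q P' Q' ξ‖ ≤ ‖(𝓕 P) ξ‖ * ‖(𝓕⁻ R') ξ‖ + ‖(𝓕 R) ξ‖ * ‖(𝓕⁻ P') ξ‖ := by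
  have h := congrArg norm (key P Q R P' Q' R' hR hR' ξ)
  have h1 : ‖(2 * Real.pi * I) * ((starRingEnd ℂ) ξ * AA P Q P' Q' ξ)‖ =
      (2 * Real.pi) * (‖ξ‖ * ‖AA P Q P' Q' ξ‖) := by
    rw [norm_mul, norm_mul, norm_mul, norm_mul, RCLike.norm_conj, norm_I]
    simp [Real.pi_pos.le]
  rw [h1] at h
  have h2 : ‖(𝓕 P) ξ * (𝓕⁻ R') ξ + (𝓕 R) ξ * (𝓕⁻ P') ξ‖ ≤
      ‖(𝓕 P) ξ‖ * ‖(𝓕⁻ R') ξ‖ + ‖(𝓕 R) ξ‖ * ‖(𝓕⁻ P') ξ‖ := by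
    refine (norm_add_le _ _).trans ?_
    rw [norm_mul, norm_mul]
  have h3 : 0 ≤ ‖ξ‖ * ‖AA P Q P' Q' ξ‖ := by positivity
  have h4 := Real.pi_gt_three
  nlinarith

lemma ptb (P Q R P' Q' R' : 𝓢(ℂ, ℂ)) (hR : ∀ z, R z = db P z - dd Q z)
    (hR' : ∀ z, R' z = db P' z - dd Q' z) {N s : ℝ} (hN : 0 < N) (hs : 0 < s) (ξ : ℂ) :
    ‖AA P Q P' Q' ξ‖ ≤
      (Metric.ball (0 : ℂ) N).indicator (fun ξ => s⁻¹ * (‖(𝓕 P) ξ‖ ^ 2 + ‖(𝓕 Q) ξ‖ ^ 2)) ξ +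
      s * (‖(𝓕⁻ Q') ξ‖ ^ 2 + ‖(𝓕⁻ P') ξ‖ ^ 2) +
      N⁻¹ * (‖(𝓕 P) ξ‖ ^ 2 + ‖(𝓕⁻ R') ξ‖ ^ 2 + ‖(𝓕 R) ξ‖ ^ 2 + ‖(𝓕⁻ P') ξ‖ ^ 2) := by
  by_cases hξ : ξ ∈ Metric.ball (0 : ℂ) N
  · rw [Set.indicator_of_mem hξ]
    have h1 : ‖AA P Q P' Q' ξ‖ ≤ ‖(𝓕 P) ξ‖ * ‖(𝓕⁻ Q') ξ‖ + ‖(𝓕 Q) ξ‖ * ‖(𝓕⁻ P') ξ‖ := by
      unfold AA
      refine (norm_sub_le _ _).trans ?_
      rw [norm_mul, norm_mul]
    have am : ∀ x y : ℝ, x * y ≤ s⁻¹ * x ^ 2 + s * y ^ 2 := by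
      intro x y
      have h2 : 0 ≤ s⁻¹ * (x - s * y) ^ 2 := by positivity
      have h3 : s⁻¹ * (x - s * y) ^ 2 = s⁻¹ * x ^ 2 - 2 * (x * y) + s * y ^ 2 := by
        field_simp
        ring
      have h4 : 0 ≤ s⁻¹ * x ^ 2 := by positivity
      have h5 : 0 ≤ s * y ^ 2 := by positivity
      linarith
    have a1 := am ‖(𝓕 P) ξ‖ ‖(𝓕⁻ Q') ξ‖
    have a2 := am ‖(𝓕 Q) ξ‖ ‖(𝓕⁻ P') ξ‖
    have h6 : 0 ≤ N⁻¹ * (‖(𝓕 P) ξ‖ ^ 2 + ‖(𝓕⁻ R') ξ‖ ^ 2 + ‖(𝓕 R) ξ‖ ^ 2 + ‖(𝓕⁻ P') ξ‖ ^ 2) := by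
      positivity
    nlinarith
  · rw [Set.indicator_of_notMem hξ]
    have h0 : N ≤ ‖ξ‖ := by
      simpa using hξ
    have h1 := key2 P Q R P' Q' R' hR hR' ξ
    have h2 : N * ‖AA P Q P' Q' ξ‖ ≤ ‖(𝓕 P) ξ‖ ^ 2 + ‖(𝓕⁻ R') ξ‖ ^ 2 + ‖(𝓕 R) ξ‖ ^ 2 +
        ‖(𝓕⁻ P') ξ‖ ^ 2 := by
      have h3 : N * ‖AA P Q P' Q' ξ‖ ≤ ‖ξ‖ * ‖AA P Q P' Q' ξ‖ := by gcongr
      nlinarith [sq_nonneg (‖(𝓕 P) ξ‖ - ‖(𝓕⁻ R') ξ‖), sq_nonneg (‖(𝓕 R) ξ‖ - ‖(𝓕⁻ P') ξ‖),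
        sq_nonneg (‖(𝓕 P) ξ‖ + ‖(𝓕⁻ R') ξ‖), sq_nonneg (‖(𝓕 R) ξ‖ + ‖(𝓕⁻ P') ξ‖)]
    have h4 : ‖AA P Q P' Q' ξ‖ ≤ N⁻¹ * (‖(𝓕 P) ξ‖ ^ 2 + ‖(𝓕⁻ R') ξ‖ ^ 2 + ‖(𝓕 R) ξ‖ ^ 2 +
        ‖(𝓕⁻ P') ξ‖ ^ 2) := by
      rw [inv_mul_eq_div, le_div_iff₀ hN]
      linarith
    have h5 : 0 ≤ s * (‖(𝓕⁻ Q') ξ‖ ^ 2 + ‖(𝓕⁻ P') ξ‖ ^ 2) := by positivity
    linarith

lemma cs_fd {f : ℂ → ℂ} (h : CS f) (v : ℂ) : CS (fun z => fderiv ℝ f z v) :=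
  ⟨(h.1.fderiv_right (by simp)).clm_apply contDiff_const, h.2.fderiv_apply ℝ v⟩

lemma cs_R {P Q : ℂ → ℂ} (h : CS P) (h' : CS Q) : CS (fun z => db P z - dd Q z) := by
  refine ⟨?_, ?_⟩
  · exact (((cs_fd h 1).1.add (contDiff_const.mul (cs_fd h I).1))).sub
      ((cs_fd h' 1).1.sub (contDiff_const.mul (cs_fd h' I).1))
  · exact ((cs_fd h 1).2.add ((cs_fd h I).2.mul_left)).sub
      ((cs_fd h' 1).2.sub ((cs_fd h' I).2.mul_left))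

/-- the integrated bound -/
lemma intb (P Q R P' Q' R' : 𝓢(ℂ, ℂ)) (hR : ∀ z, R z = db P z - dd Q z)
    (hR' : ∀ z, R' z = db P' z - dd Q' z) {N s C : ℝ} (hN : 0 < N) (hs : 0 < s)
    (c1 : ∫ z, ‖P z‖ ^ 2 ≤ C) (c2 : ∫ z, ‖P' z‖ ^ 2 ≤ C)
    (c3 : ∫ z, ‖Q' z‖ ^ 2 ≤ C) (c4 : ∫ z, ‖R z‖ ^ 2 ≤ C) (c5 : ∫ z, ‖R' z‖ ^ 2 ≤ C) :
    ‖∫ z, (P z * Q' z - Q z * P' z)‖ ≤
      s⁻¹ * ((∫ ξ in Metric.ball (0 : ℂ) N, ‖(𝓕 P) ξ‖ ^ 2) +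
        ∫ ξ in Metric.ball (0 : ℂ) N, ‖(𝓕 Q) ξ‖ ^ 2) + s * (2 * C) + N⁻¹ * (4 * C) := by
  have i1 : Integrable (fun z => P z * Q' z) :=
    (SchwartzMap.pairing (.mul ℂ ℂ) P Q').integrable
  have i2 : Integrable (fun z => Q z * P' z) :=
    (SchwartzMap.pairing (.mul ℂ ℂ) Q P').integrable
  have j1 : Integrable (fun ξ => (𝓕 P) ξ * (𝓕⁻ Q') ξ) :=
    (SchwartzMap.pairing (.mul ℂ ℂ) (𝓕 P) (𝓕⁻ Q')).integrable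
  have j2 : Integrable (fun ξ => (𝓕 Q) ξ * (𝓕⁻ P') ξ) :=
    (SchwartzMap.pairing (.mul ℂ ℂ) (𝓕 Q) (𝓕⁻ P')).integrable
  have e1 : ∫ z, (P z * Q' z - Q z * P' z) = ∫ ξ, AA P Q P' Q' ξ := by
    rw [integral_sub i1 i2, plan P Q', plan Q P', ← integral_sub j1 j2]
    rfl
  rw [e1]
  have hb : MeasurableSet (Metric.ball (0 : ℂ) N) := Metric.isOpen_ball.measurableSet
  have k1 : Integrable (fun ξ => s⁻¹ * (‖(𝓕 P) ξ‖ ^ 2 + ‖(𝓕 Q) ξ‖ ^ 2)) :=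
    ((isq (𝓕 P)).add (isq (𝓕 Q))).const_mul _
  have k2 : Integrable (fun ξ => s * (‖(𝓕⁻ Q') ξ‖ ^ 2 + ‖(𝓕⁻ P') ξ‖ ^ 2)) :=
    ((isq (𝓕⁻ Q')).add (isq (𝓕⁻ P'))).const_mul _
  have k3a : Integrable (fun ξ => ‖(𝓕 P) ξ‖ ^ 2 + ‖(𝓕⁻ R') ξ‖ ^ 2) :=
    (isq (𝓕 P)).add (isq (𝓕⁻ R'))
  have k3b : Integrable (fun ξ => ‖(𝓕 P) ξ‖ ^ 2 + ‖(𝓕⁻ R') ξ‖ ^ 2 + ‖(𝓕 R) ξ‖ ^ 2) :=
    k3a.add (isq (𝓕 R))
  have k3 : Integrable (fun ξ => N⁻¹ * (‖(𝓕 P) ξ‖ ^ 2 + ‖(𝓕⁻ R') ξ‖ ^ 2 + ‖(𝓕 R) ξ‖ ^ 2 +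
      ‖(𝓕⁻ P') ξ‖ ^ 2)) := (k3b.add (isq (𝓕⁻ P'))).const_mul _
  have k1' : Integrable ((Metric.ball (0 : ℂ) N).indicator
      (fun ξ => s⁻¹ * (‖(𝓕 P) ξ‖ ^ 2 + ‖(𝓕 Q) ξ‖ ^ 2))) := k1.indicator hb
  have k12 : Integrable (fun ξ => (Metric.ball (0 : ℂ) N).indicator
      (fun ξ => s⁻¹ * (‖(𝓕 P) ξ‖ ^ 2 + ‖(𝓕 Q) ξ‖ ^ 2)) ξ +
      s * (‖(𝓕⁻ Q') ξ‖ ^ 2 + ‖(𝓕⁻ P') ξ‖ ^ 2)) := k1'.add k2
  refine (norm_integral_le_of_norm_le (k12.add k3) (ae_of_all _ fun ξ =>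
    ptb P Q R P' Q' R' hR hR' hN hs ξ)).trans ?_
  have f1 : ∫ ξ, ((Metric.ball (0 : ℂ) N).indicator
      (fun ξ => s⁻¹ * (‖(𝓕 P) ξ‖ ^ 2 + ‖(𝓕 Q) ξ‖ ^ 2)) ξ +
      s * (‖(𝓕⁻ Q') ξ‖ ^ 2 + ‖(𝓕⁻ P') ξ‖ ^ 2) +
      N⁻¹ * (‖(𝓕 P) ξ‖ ^ 2 + ‖(𝓕⁻ R') ξ‖ ^ 2 + ‖(𝓕 R) ξ‖ ^ 2 + ‖(𝓕⁻ P') ξ‖ ^ 2)) =
      s⁻¹ * ((∫ ξ in Metric.ball (0 : ℂ) N, ‖(𝓕 P) ξ‖ ^ 2) +
        ∫ ξ in Metric.ball (0 : ℂ) N, ‖(𝓕 Q) ξ‖ ^ 2) +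
      s * ((∫ z, ‖Q' z‖ ^ 2) + ∫ z, ‖P' z‖ ^ 2) +
      N⁻¹ * ((∫ z, ‖P z‖ ^ 2) + (∫ z, ‖R' z‖ ^ 2) + (∫ z, ‖R z‖ ^ 2) + ∫ z, ‖P' z‖ ^ 2) := by
    rw [integral_add k12 k3, integral_add k1' k2, integral_indicator hb, integral_const_mul,
      integral_const_mul, integral_const_mul, integral_add (isq _).integrableOn
        (isq _).integrableOn, integral_add (isq _) (isq _), integral_add k3b (isq _),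
      integral_add k3a (isq _), integral_add (isq _) (isq _)]
    simp only [plan2, plan2i]
  have f2 : ∀ ξ, (Metric.ball (0 : ℂ) N).indicator
      (fun ξ => s⁻¹ * (‖(𝓕 P) ξ‖ ^ 2 + ‖(𝓕 Q) ξ‖ ^ 2)) ξ +
      s * (‖(𝓕⁻ Q') ξ‖ ^ 2 + ‖(𝓕⁻ P') ξ‖ ^ 2) +
      N⁻¹ * (‖(𝓕 P) ξ‖ ^ 2 + ‖(𝓕⁻ R') ξ‖ ^ 2 + ‖(𝓕 R) ξ‖ ^ 2 + ‖(𝓕⁻ P') ξ‖ ^ 2) =
      ((fun ξ => (Metric.ball (0 : ℂ) N).indicator
      (fun ξ => s⁻¹ * (‖(𝓕 P) ξ‖ ^ 2 + ‖(𝓕 Q) ξ‖ ^ 2)) ξ +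
      s * (‖(𝓕⁻ Q') ξ‖ ^ 2 + ‖(𝓕⁻ P') ξ‖ ^ 2)) + fun ξ =>
      N⁻¹ * (‖(𝓕 P) ξ‖ ^ 2 + ‖(𝓕⁻ R') ξ‖ ^ 2 + ‖(𝓕 R) ξ‖ ^ 2 + ‖(𝓕⁻ P') ξ‖ ^ 2)) ξ := fun ξ => rfl
  simp only [← f2]
  rw [f1]
  have hN' : 0 ≤ N⁻¹ := by positivity
  have g1 : s * ((∫ z, ‖Q' z‖ ^ 2) + ∫ z, ‖P' z‖ ^ 2) ≤ s * (2 * C) := by
    apply mul_le_mul_of_nonneg_left _ hs.le
    linarith
  have g2 : N⁻¹ * ((∫ z, ‖P z‖ ^ 2) + (∫ z, ‖R' z‖ ^ 2) + (∫ z, ‖R z‖ ^ 2) + ∫ z, ‖P' z‖ ^ 2) ≤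
      N⁻¹ * (4 * C) := by
    apply mul_le_mul_of_nonneg_left _ hN'
    linarith
  linarith

/-- a smooth cutoff -/
lemma exists_cut {B K : Set ℂ} (hB : IsOpen B) (hK : IsCompact K) (hKB : K ⊆ B) :
    ∃ χ : ℂ → ℝ, TF B χ ∧ (∀ z ∈ K, χ z = 1) ∧ (∀ z, 0 ≤ χ z) ∧ (∀ z, χ z ≤ 1) := by
  obtain ⟨δ, hδ, hδB⟩ := hK.exists_cthickening_subset_open hB hKB
  obtain ⟨f, hf1, hf2, hf3⟩ := exists_contMDiff_support_eq_eq_one_iff (𝓘(ℝ, ℂ))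
    (Metric.isOpen_thickening (δ := δ) (E := K)) hK.isClosed
    (Metric.self_subset_thickening hδ K)
  refine ⟨f, ⟨hf1.contDiff, ?_, ?_⟩, fun z hz => ?_, fun z => ?_, fun z => ?_⟩
  · apply HasCompactSupport.of_support_subset_isCompact (hK.cthickening (r := δ))
    rw [hf3.1]
    exact Metric.thickening_subset_cthickening _ _
  · have : tsupport f ⊆ Metric.cthickening δ K := by
      apply closure_minimal _ Metric.isClosed_cthickening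
      rw [hf3.1]
      exact Metric.thickening_subset_cthickening _ _
    exact this.trans hδB
  · exact (hf3.2 z).1 hz
  · exact (hf2 ⟨z, rfl⟩).1
  · exact (hf2 ⟨z, rfl⟩).2

lemma ft_formula (f : 𝓢(ℂ, ℂ)) (ξ : ℂ) : (𝓕 f) ξ =
    (∫ z, ((Real.cos (2 * Real.pi * inner ℝ z ξ) : ℝ) : ℂ) * f z) -
      I * ∫ z, ((Real.sin (2 * Real.pi * inner ℝ z ξ) : ℝ) : ℂ) * f z := by
  have hc : Continuous (fun z : ℂ => (inner ℝ z ξ : ℝ)) := by fun_prop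
  have i1 : Integrable (fun z => ((Real.cos (2 * Real.pi * inner ℝ z ξ) : ℝ) : ℂ) * f z) := by
    refine (f.integrable.norm).mono' ?_ (ae_of_all _ fun z => ?_)
    · exact ((continuous_ofReal.comp (Real.continuous_cos.comp
        (continuous_const.mul hc))).mul f.continuous).aestronglyMeasurable
    · rw [norm_mul, norm_real, Real.norm_eq_abs]
      exact mul_le_of_le_one_left (norm_nonneg _) (Real.abs_cos_le_one _)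
  have i2 : Integrable (fun z => ((Real.sin (2 * Real.pi * inner ℝ z ξ) : ℝ) : ℂ) * f z) := by
    refine (f.integrable.norm).mono' ?_ (ae_of_all _ fun z => ?_)
    · exact ((continuous_ofReal.comp (Real.continuous_sin.comp
        (continuous_const.mul hc))).mul f.continuous).aestronglyMeasurable
    · rw [norm_mul, norm_real, Real.norm_eq_abs]
      exact mul_le_of_le_one_left (norm_nonneg _) (Real.abs_sin_le_one _)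
  rw [← integral_const_mul I, ← integral_sub i1 (i2.const_mul I), SchwartzMap.fourier_coe,
    Real.fourier_eq']
  congr 1
  funext z
  have h1 : ((-2 * Real.pi * inner ℝ z ξ : ℝ) : ℂ) * I =
      ((-(2 * Real.pi * inner ℝ z ξ) : ℝ) : ℂ) * I := by
    congr 2
    ring
  rw [h1, exp_mul_I, ← ofReal_cos, ← ofReal_sin, Real.cos_neg, Real.sin_neg, smul_eq_mul]
  push_cast
  ring

lemma ft_null {B K : Set ℂ} (hB : IsOpen B) (hK : IsCompact K) (hKB : K ⊆ B)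
    (f : ℕ → ℂ → ℂ) (hf : ∀ n, CS (f n)) (hs : ∀ n, ∀ z, z ∉ K → f n z = 0)
    (hw : ∀ ψ, TF B ψ → Null (fun n => ∫ z, (ψ z : ℂ) * f n z)) (ξ : ℂ) :
    Null (fun n => (𝓕 (sch (f n) (hf n))) ξ) := by
  obtain ⟨χ, hχ, hχ1, -, -⟩ := exists_cut hB hK hKB
  have hin : ContDiff ℝ ∞ (fun z : ℂ => 2 * Real.pi * (inner ℝ z ξ : ℝ)) :=
    contDiff_const.mul (contDiff_id.inner ℝ contDiff_const)
  have t : ∀ g : ℝ → ℝ, ContDiff ℝ ∞ g →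
      TF B (fun z => χ z * g (2 * Real.pi * inner ℝ z ξ)) := by
    intro g hg
    refine ⟨hχ.1.mul (hg.comp hin), hχ.2.1.mul_right, ?_⟩
    refine (closure_mono ?_).trans hχ.2.2
    intro z hz
    exact left_ne_zero_of_mul hz
  have h1 := hw _ (t Real.cos Real.contDiff_cos)
  have h2 := hw _ (t Real.sin Real.contDiff_sin)
  have h3 : Null (fun n => (∫ z, ((χ z * Real.cos (2 * Real.pi * inner ℝ z ξ) : ℝ) : ℂ) * f n z) -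
      I * ∫ z, ((χ z * Real.sin (2 * Real.pi * inner ℝ z ξ) : ℝ) : ℂ) * f n z) := by
    have := Tendsto.sub h1 (Tendsto.const_mul I h2)
    simpa using! this
  refine h3.congr fun n => ?_
  rw [ft_formula]
  have e : ∀ g : ℝ → ℝ, ∫ z, ((χ z * g (2 * Real.pi * inner ℝ z ξ) : ℝ) : ℂ) * f n z =
      ∫ z, ((g (2 * Real.pi * inner ℝ z ξ) : ℝ) : ℂ) * sch (f n) (hf n) z := by
    intro g
    congr 1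
    funext z
    by_cases hz : z ∈ K
    · rw [hχ1 z hz, one_mul]; rfl
    · rw [sch_apply, hs n z hz]; simp
  rw [e, e]

lemma ft_bd {K : Set ℂ} (hK : IsCompact K) {f : ℂ → ℂ} (hf : CS f) (hs : ∀ z, z ∉ K → f z = 0)
    {C : ℝ} (hC : ∫ z, ‖f z‖ ^ 2 ≤ C) (ξ : ℂ) :
    ‖(𝓕 (sch f hf)) ξ‖ ≤ volume.real K + C := by
  have h1 : ‖(𝓕 (sch f hf)) ξ‖ ≤ ∫ z, ‖f z‖ := by
    rw [SchwartzMap.fourier_coe, Real.fourier_eq']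
    refine (norm_integral_le_integral_norm _).trans (le_of_eq ?_)
    congr 1
    funext z
    rw [norm_smul]
    have : ‖cexp (((-2 * Real.pi * inner ℝ z ξ : ℝ) : ℂ) * I)‖ = 1 := norm_exp_ofReal_mul_I _
    rw [this, one_mul]; rfl
  have i2 : Integrable (fun z => ‖f z‖ ^ 2) := isq (sch f hf)
  have i1 : Integrable (K.indicator (fun _ => (1 : ℝ))) :=
    (integrable_indicator_iff hK.measurableSet).2 (integrableOn_const hK.measure_lt_top.ne)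
  have h2 : ∫ z, ‖f z‖ ≤ ∫ z, (K.indicator (fun _ => (1 : ℝ)) z + ‖f z‖ ^ 2) := by
    refine integral_mono ((sch f hf).integrable.norm) (i1.add i2) fun z => ?_
    show ‖f z‖ ≤ K.indicator (fun _ => (1 : ℝ)) z + ‖f z‖ ^ 2
    by_cases hz : z ∈ K
    · rw [Set.indicator_of_mem hz]
      nlinarith [sq_nonneg (‖f z‖ - 1), norm_nonneg (f z)]
    · rw [hs z hz]
      simp [Set.indicator_of_notMem hz]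
  have h3 : ∫ z, (K.indicator (fun _ => (1 : ℝ)) z + ‖f z‖ ^ 2) =
      volume.real K + ∫ z, ‖f z‖ ^ 2 := by
    rw [integral_add i1 i2, integral_indicator hK.measurableSet]
    simp
  linarith

/-- low frequencies go to zero -/
lemma low {B K : Set ℂ} (hB : IsOpen B) (hK : IsCompact K) (hKB : K ⊆ B)
    (f : ℕ → ℂ → ℂ) (hf : ∀ n, CS (f n)) (hs : ∀ n, ∀ z, z ∉ K → f n z = 0) {C : ℝ}
    (hC : ∀ᶠ n in atTop, ∫ z, ‖f n z‖ ^ 2 ≤ C)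
    (hw : ∀ ψ, TF B ψ → Null (fun n => ∫ z, (ψ z : ℂ) * f n z)) (N : ℝ) :
    Tendsto (fun n => ∫ ξ in Metric.ball (0 : ℂ) N, ‖(𝓕 (sch (f n) (hf n))) ξ‖ ^ 2) atTop
      (𝓝 0) := by
  have h0 : (0 : ℝ) = ∫ ξ in Metric.ball (0 : ℂ) N, (0 : ℝ) := by simp
  rw [h0]
  refine tendsto_integral_filter_of_dominated_convergence
    (fun _ => (volume.real K + C) ^ 2) ?_ ?_ ?_ ?_
  · exact Eventually.of_forall fun n =>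
      (((𝓕 (sch (f n) (hf n))).continuous.norm.pow 2)).aestronglyMeasurable
  · filter_upwards [hC] with n hn
    refine ae_of_all _ fun ξ => ?_
    have h1 := ft_bd hK (hf n) (hs n) hn ξ
    rw [Real.norm_eq_abs, abs_of_nonneg (sq_nonneg _)]
    exact pow_le_pow_left₀ (norm_nonneg _) h1 2
  · exact integrableOn_const measure_ball_lt_top.ne
  · refine ae_of_all _ fun ξ => ?_
    have h1 := ft_null hB hK hKB f hf hs hw ξ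
    have h2 := (h1.norm).pow 2
    simpa using h2

/-- The div-curl lemma for sequences with fixed compact support. -/
theorem dc0 {B K : Set ℂ} (hB : IsOpen B) (hK : IsCompact K) (hKB : K ⊆ B)
    (P Q P' Q' : ℕ → ℂ → ℂ) (hP : ∀ n, CS (P n)) (hQ : ∀ n, CS (Q n)) (hP' : ∀ n, CS (P' n))
    (hQ' : ∀ n, CS (Q' n)) (sP : ∀ n, ∀ z, z ∉ K → P n z = 0) (sQ : ∀ n, ∀ z, z ∉ K → Q n z = 0)
    {C : ℝ} (cP : ∀ᶠ n in atTop, ∫ z, ‖P n z‖ ^ 2 ≤ C) (cQ : ∀ᶠ n in atTop, ∫ z, ‖Q n z‖ ^ 2 ≤ C)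
    (cP' : ∀ᶠ n in atTop, ∫ z, ‖P' n z‖ ^ 2 ≤ C) (cQ' : ∀ᶠ n in atTop, ∫ z, ‖Q' n z‖ ^ 2 ≤ C)
    (cR : ∀ᶠ n in atTop, ∫ z, ‖db (P n) z - dd (Q n) z‖ ^ 2 ≤ C)
    (cR' : ∀ᶠ n in atTop, ∫ z, ‖db (P' n) z - dd (Q' n) z‖ ^ 2 ≤ C)
    (wP : ∀ ψ, TF B ψ → Null (fun n => ∫ z, (ψ z : ℂ) * P n z))
    (wQ : ∀ ψ, TF B ψ → Null (fun n => ∫ z, (ψ z : ℂ) * Q n z)) :
    Null (fun n => ∫ z, (P n z * Q' n z - Q n z * P' n z)) := by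
  unfold Null
  rw [Metric.tendsto_atTop']
  intro ε hε
  have hC0 : 0 ≤ C := by
    obtain ⟨n, hn⟩ := cP.exists
    exact le_trans (integral_nonneg fun z => by positivity) hn
  -- choose the parameters
  obtain ⟨s, hs, hs1⟩ : ∃ s : ℝ, 0 < s ∧ s * (2 * C) ≤ ε / 4 := by
    refine ⟨ε / (8 * C + 1), by positivity, ?_⟩
    rw [div_mul_eq_mul_div, div_le_div_iff₀ (by positivity) (by norm_num)]
    nlinarith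
  obtain ⟨N, hN, hN1⟩ : ∃ N : ℝ, 0 < N ∧ N⁻¹ * (4 * C) ≤ ε / 4 := by
    refine ⟨(16 * C + 1) / ε, by positivity, ?_⟩
    rw [inv_div, div_mul_eq_mul_div, div_le_div_iff₀ (by positivity) (by norm_num)]
    nlinarith
  have l1 := low hB hK hKB P hP sP cP wP N
  have l2 := low hB hK hKB Q hQ sQ cQ wQ N
  have l3 := (l1.add l2).const_mul s⁻¹
  rw [add_zero, mul_zero] at l3
  have l4 := l3.eventually (gt_mem_nhds (show (0 : ℝ) < ε / 4 by positivity))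
  have hRs : ∀ n, CS (fun z => db (P n) z - dd (Q n) z) := fun n => cs_R (hP n) (hQ n)
  have hRs' : ∀ n, CS (fun z => db (P' n) z - dd (Q' n) z) := fun n => cs_R (hP' n) (hQ' n)
  have hev : ∀ᶠ n in atTop, dist (∫ z, (P n z * Q' n z - Q n z * P' n z)) 0 < ε := by
    filter_upwards [l4, cP, cP', cQ', cR, cR'] with n h1 h2 h3 h4 h5 h6
    rw [dist_zero_right]
    have h7 := intb (sch _ (hP n)) (sch _ (hQ n)) (sch _ (hRs n)) (sch _ (hP' n)) (sch _ (hQ' n))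
      (sch _ (hRs' n)) (fun z => rfl) (fun z => rfl) hN hs h2 h3 h4 h5 h6
    have h8 : ‖∫ z, (P n z * Q' n z - Q n z * P' n z)‖ ≤ _ := h7
    linarith
  obtain ⟨a, ha⟩ := eventually_atTop.1 hev
  exact ⟨a, fun n hn => ha n (le_of_lt hn)⟩

end

end Pool.Agent.TH294.RS
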