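import Pool.Agent.TH294.RS.LB

/-!
Project RS (helper294): the div-curl lemma on an open set.
-/

set_option autoImplicit false
open MeasureTheory Filter Topology Complex
open scoped ContDiff

namespace Pool.Agent.TH294.RS

open Pool.Agent.W745.RW

noncomputable section

lemma glob {B K : Set ℂ} (hK : IsCompact K) (hKB : K ⊆ B) {f : ℕ → ℂ → ℂ} (hf : LB B 2 f)
    (h0 : ∀ n, ∀ z, z ∉ K → f n z = 0) : ∃ C : ℝ, ∀ᶠ n in atTop, ∫ z, ‖f n z‖ ^ 2 ≤ C := by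
  obtain ⟨C, hC⟩ := hf.bd K hK hKB
  refine ⟨C, hC.mono fun n hn => ?_⟩
  rwa [← setIntegral_eq_integral_of_forall_compl_eq_zero (s := K) (fun z hz => ?_)]
  rw [h0 n z hz]; simp

/-- derivative of a product with a test function, direction `v` -/
lemma fd_cut {B : Set ℂ} (hB : IsOpen B) {φ : ℂ → ℝ} (hφ : TF B φ) {f : ℂ → ℂ}
    (hf : ContDiffOn ℝ ∞ f B) {z : ℂ} (hz : z ∈ B) (v : ℂ) :
    fderiv ℝ (fun z => (φ z : ℂ) * f z) z v =
      (φ z : ℂ) * fderiv ℝ f z v + ((fderiv ℝ φ z v : ℝ) : ℂ) * f z := by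
  have dφ : HasFDerivAt φ (fderiv ℝ φ z) z :=
    (hφ.1.differentiable (by simp) z).hasFDerivAt
  have dφ' : HasFDerivAt (fun z => (φ z : ℂ)) (Complex.ofRealCLM.comp (fderiv ℝ φ z)) z :=
    Complex.ofRealCLM.hasFDerivAt.comp z dφ
  have dG : HasFDerivAt f (fderiv ℝ f z) z :=
    ((hf.contDiffAt (hB.mem_nhds hz)).differentiableAt (by simp)).hasFDerivAt
  have f1 := (dφ'.mul dG).fderiv
  change fderiv ℝ (fun z => (φ z : ℂ) * f z) z = _ at f1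
  rw [f1]
  simp only [add_apply, smul_apply, smul_eq_mul,
    ContinuousLinearMap.comp_apply, Complex.ofRealCLM_apply]
  ring

lemma fd_cut0 {φ : ℂ → ℝ} {f : ℂ → ℂ} {z : ℂ} (hz : z ∉ tsupport φ) (v : ℂ) :
    fderiv ℝ (fun z => (φ z : ℂ) * f z) z v = 0 := by
  have h0 : φ =ᶠ[𝓝 z] 0 := notMem_tsupport_iff_eventuallyEq.1 hz
  have h1 : (fun z => (φ z : ℂ) * f z) =ᶠ[𝓝 z] fun _ => 0 := by
    filter_upwards [h0] with w hw
    simp [hw]
  rw [h1.fderiv_eq]; simp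

lemma db_cut {B : Set ℂ} (hB : IsOpen B) {φ : ℂ → ℝ} (hφ : TF B φ) {P Q : ℂ → ℂ}
    (hP : ContDiffOn ℝ ∞ P B) (hQ : ContDiffOn ℝ ∞ Q B) {z : ℂ} (hz : z ∈ B) :
    db (fun z => (φ z : ℂ) * P z) z - dd (fun z => (φ z : ℂ) * Q z) z =
      (φ z : ℂ) * (db P z - dd Q z) +
      (((fderiv ℝ φ z 1 : ℝ) : ℂ) + I * ((fderiv ℝ φ z I : ℝ) : ℂ)) * P z -
      (((fderiv ℝ φ z 1 : ℝ) : ℂ) - I * ((fderiv ℝ φ z I : ℝ) : ℂ)) * Q z := by
  simp only [db, dd, dx, dy]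
  rw [fd_cut hB hφ hP hz, fd_cut hB hφ hP hz, fd_cut hB hφ hQ hz, fd_cut hB hφ hQ hz]
  ring

lemma db_cut0 {φ : ℂ → ℝ} {P Q : ℂ → ℂ} {z : ℂ} (hz : z ∉ tsupport φ) :
    db (fun z => (φ z : ℂ) * P z) z - dd (fun z => (φ z : ℂ) * Q z) z = 0 := by
  simp only [db, dd, dx, dy]
  rw [fd_cut0 hz, fd_cut0 hz, fd_cut0 hz, fd_cut0 hz]
  simp

lemma cut_CS {B : Set ℂ} (hB : IsOpen B) {φ : ℂ → ℝ} (hφ : TF B φ) {f : ℂ → ℂ}
    (hf : ContDiffOn ℝ ∞ f B) : CS (fun z => (φ z : ℂ) * f z) :=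
  ⟨Pool.Agent.W450.RW.RE.cut_smooth hB hφ.1 hφ.2.2 hf, Pool.Agent.W450.RW.DC.cut_cpt hφ f⟩

lemma TF.cx {B : Set ℂ} {φ : ℂ → ℝ} (hφ : TF B φ) : ContDiffOn ℝ ∞ (fun z => (φ z : ℂ)) B :=
  (ofRealCLM.contDiff.comp hφ.1).contDiffOn

lemma LB_R {B : Set ℂ} (hB : IsOpen B) {φ : ℂ → ℝ} (hφ : TF B φ) {P Q : ℕ → ℂ → ℂ}
    (hP : LB B 2 P) (hQ : LB B 2 Q) (hR : LB B 2 (fun n z => db (P n) z - dd (Q n) z)) :
    LB B 2 (fun n z => db (fun z => (φ z : ℂ) * P n z) z - dd (fun z => (φ z : ℂ) * Q n z) z) := by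
  have t : ∀ v, ContDiffOn ℝ ∞ (fun z => ((fderiv ℝ φ z v : ℝ) : ℂ)) B := fun v =>
    TF.cx (Pool.Agent.W450.RW.T.tf_deriv hφ v)
  have l1 := hR.smulc (TF.cx hφ)
  have l2 := hP.smulc ((t 1).add (contDiffOn_const.mul (t I) (f := fun _ => I)))
  have l3 := hQ.smulc ((t 1).sub (contDiffOn_const.mul (t I) (f := fun _ => I)))
  exact ((l1.add l2).sub l3).congr fun n z hz => db_cut hB hφ (hP.sm n) (hQ.sm n) hz

/-- the case of null weak limits -/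
theorem dcl0 {B : Set ℂ} (hB : IsOpen B) {P Q P' Q' : ℕ → ℂ → ℂ} (hP : LB B 2 P) (hQ : LB B 2 Q)
    (hP' : LB B 2 P') (hQ' : LB B 2 Q') (hR : LB B 2 (fun n z => db (P n) z - dd (Q n) z))
    (hR' : LB B 2 (fun n z => db (P' n) z - dd (Q' n) z)) (wP : WN B P) (wQ : WN B Q) :
    WN B (fun n z => P n z * Q' n z - Q n z * P' n z) := by
  refine ⟨fun n => ((hP.co n).mul (hQ'.co n)).sub ((hQ.co n).mul (hP'.co n)), fun φ hφ => ?_⟩
  obtain ⟨ψ, hψ, hψ1, -, -⟩ := exists_cut hB hφ.2.1 hφ.2.2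
  set K : Set ℂ := tsupport φ ∪ tsupport ψ with hKdef
  have hK : IsCompact K := hφ.2.1.union hψ.2.1
  have hKB : K ⊆ B := Set.union_subset hφ.2.2 hψ.2.2
  have z1 : ∀ (f : ℂ → ℂ) (z : ℂ), z ∉ K → (φ z : ℂ) * f z = 0 := by
    intro f z hz
    rw [image_eq_zero_of_notMem_tsupport (fun h => hz (Or.inl h))]; simp
  have z2 : ∀ (f : ℂ → ℂ) (z : ℂ), z ∉ K → (ψ z : ℂ) * f z = 0 := by
    intro f z hz
    rw [image_eq_zero_of_notMem_tsupport (fun h => hz (Or.inr h))]; simp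
  obtain ⟨C1, h1⟩ := glob hK hKB (hP.smulc (TF.cx hφ)) (fun n z hz => z1 _ z hz)
  obtain ⟨C2, h2⟩ := glob hK hKB (hQ.smulc (TF.cx hφ)) (fun n z hz => z1 _ z hz)
  obtain ⟨C3, h3⟩ := glob hK hKB (hP'.smulc (TF.cx hψ)) (fun n z hz => z2 _ z hz)
  obtain ⟨C4, h4⟩ := glob hK hKB (hQ'.smulc (TF.cx hψ)) (fun n z hz => z2 _ z hz)
  obtain ⟨C5, h5⟩ := glob hK hKB (LB_R hB hφ hP hQ hR)
    (fun n z hz => db_cut0 (fun h => hz (Or.inl h)))
  obtain ⟨C6, h6⟩ := glob hK hKB (LB_R hB hψ hP' hQ' hR')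
    (fun n z hz => db_cut0 (fun h => hz (Or.inr h)))
  set C : ℝ := |C1| + |C2| + |C3| + |C4| + |C5| + |C6| with hC
  have a1 := le_abs_self C1
  have a2 := le_abs_self C2
  have a3 := le_abs_self C3
  have a4 := le_abs_self C4
  have a5 := le_abs_self C5
  have a6 := le_abs_self C6
  have b1 := abs_nonneg C1
  have b2 := abs_nonneg C2
  have b3 := abs_nonneg C3
  have b4 := abs_nonneg C4
  have b5 := abs_nonneg C5
  have b6 := abs_nonneg C6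
  have w : ∀ f : ℕ → ℂ → ℂ, WN B f → ∀ χ, TF B χ →
      Null (fun n => ∫ z, (χ z : ℂ) * ((φ z : ℂ) * f n z)) := by
    intro f hf χ hχ
    refine (hf.nul _ (TF.mulc hB hχ hφ.1.contDiffOn)).congr fun n => ?_
    congr 1; funext z; push_cast; ring
  have key := dc0 hB hK hKB (fun n z => (φ z : ℂ) * P n z) (fun n z => (φ z : ℂ) * Q n z)
    (fun n z => (ψ z : ℂ) * P' n z) (fun n z => (ψ z : ℂ) * Q' n z)
    (fun n => cut_CS hB hφ (hP.sm n)) (fun n => cut_CS hB hφ (hQ.sm n))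
    (fun n => cut_CS hB hψ (hP'.sm n)) (fun n => cut_CS hB hψ (hQ'.sm n))
    (fun n z hz => z1 _ z hz) (fun n z hz => z1 _ z hz) (C := C)
    (h1.mono fun n hn => hn.trans (by rw [hC]; linarith))
    (h2.mono fun n hn => hn.trans (by rw [hC]; linarith))
    (h3.mono fun n hn => hn.trans (by rw [hC]; linarith))
    (h4.mono fun n hn => hn.trans (by rw [hC]; linarith))
    (h5.mono fun n hn => hn.trans (by rw [hC]; linarith))
    (h6.mono fun n hn => hn.trans (by rw [hC]; linarith))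
    (w P wP) (w Q wQ)
  refine key.congr fun n => ?_
  congr 1; funext z
  by_cases hz : z ∈ tsupport φ
  · rw [hψ1 z hz]; push_cast; ring
  · rw [image_eq_zero_of_notMem_tsupport hz]; simp

lemma LB.subc {B : Set ℂ} {p : ℕ} {f : ℕ → ℂ → ℂ} (hf : LB B p f) (c : ℂ) :
    LB B p (fun n z => f n z - c) :=
  hf.sub (LB.const B p (c := fun _ => c) contDiffOn_const)

/-- The div-curl lemma on an open set. -/
theorem dcl {B : Set ℂ} (hB : IsOpen B) {P Q P' Q' : ℕ → ℂ → ℂ} (hP : LB B 2 P) (hQ : LB B 2 Q)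
    (hP' : LB B 2 P') (hQ' : LB B 2 Q') (hR : LB B 2 (fun n z => db (P n) z - dd (Q n) z))
    (hR' : LB B 2 (fun n z => db (P' n) z - dd (Q' n) z)) {p q p' q' : ℂ}
    (wP : WN B (fun n z => P n z - p)) (wQ : WN B (fun n z => Q n z - q))
    (wP' : WN B (fun n z => P' n z - p')) (wQ' : WN B (fun n z => Q' n z - q')) :
    WN B (fun n z => P n z * Q' n z - Q n z * P' n z - (p * q' - q * p')) := by
  have eR : ∀ (F G : ℂ → ℂ) (c d : ℂ) (z : ℂ),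
      db (fun z => F z - c) z - dd (fun z => G z - d) z = db F z - dd G z := by
    intro F G c d z
    simp only [db, dd, dx, dy, fderiv_sub_const]
  have k := dcl0 hB (hP.subc p) (hQ.subc q) (hP'.subc p') (hQ'.subc q')
    (hR.congr fun n z _ => eR _ _ _ _ z) (hR'.congr fun n z _ => eR _ _ _ _ z) wP wQ
  have k2 := (((k.add (wQ'.cmul p)).add (wP.cmul q')).sub (wP'.cmul q)).sub (wQ.cmul p')
  exact k2.congr fun n z _ => by ring

end

end Pool.Agent.TH294.RS
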