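import Pool.Agent.TH294.RS.En
import Pool.Agent.W578.RW.G2

/-!
Project RS (helper294): the interior gradient estimate with an inhomogeneous term.
-/

set_option autoImplicit false
open MeasureTheory Filter Topology Complex
open scoped ContDiff ENNReal

namespace Pool.Agent.TH294.RS

open Pool.Agent.W745.RW Pool.Agent.W249.RW

noncomputable section

/-- the estimate on discs of radius `h` -/
theorem sgi : ∃ C : ℝ, 0 ≤ C ∧ ∀ (h : ℝ) (f : ℂ → ℝ) (c : ℂ), 0 < h →
    ContDiffOn ℝ ∞ f (Metric.ball c (4 * h)) →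
    ∫ z in Metric.ball c h, (h ^ 2 * (dx f z ^ 2 + dy f z ^ 2)) ^ 2 ≤
      C * ∫ z in Metric.ball c (3 * h), (f z ^ 4 + (h ^ 2 * lap f z) ^ 4) := by
  obtain ⟨C0, hC0⟩ := Pool.Agent.W404.RW.L.main
  obtain ⟨M1, hM1, hM1'⟩ := cut_M b1
  obtain ⟨M2', hM20, hM20'⟩ := cut_M b2
  set M2 : ℝ := M2' + 1 with hM2d
  have hM2 : 1 ≤ M2 := by linarith
  have hM2' : ∀ h : ℝ, 0 < h → ∀ c z : ℂ,
    h ^ 2 * (dx (cut b2 c h) z ^ 2 + dy (cut b2 c h) z ^ 2) + cut b2 c h z ^ 2 ≤ M2 :=
    fun h hh c z => (hM20' h hh c z).trans (by linarith)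
  refine ⟨4 * (|C0| * (M2 * (3 * M1 * M2 + 2)) * (18 * Real.pi)), by positivity, ?_⟩
  intro h f c hh hf
  set B := Metric.ball c (4 * h) with hBdef
  have hB : IsOpen B := Metric.isOpen_ball
  have hsub3 : Metric.closedBall c (3 * h) ⊆ B := Metric.closedBall_subset_ball (by linarith)
  have hsub1 : Metric.closedBall c (b1.rOut * h) ⊆ Metric.ball c (2 * h) := by
    apply Metric.closedBall_subset_ball
    have : b1.rOut = 3 / 2 := rfl
    rw [this]
    linarith
  have hsub2 : Metric.closedBall c (b2.rOut * h) ⊆ Metric.ball c (3 * h) := by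
    apply Metric.closedBall_subset_ball
    have : b2.rOut = 5 / 2 := rfl
    rw [this]
    linarith
  have hb3 : Metric.ball c (3 * h) ⊆ B := Metric.ball_subset_closedBall.trans hsub3
  have hb2 : Metric.ball c (2 * h) ⊆ Metric.ball c (3 * h) :=
    Metric.ball_subset_ball (by linarith)
  have hb1 : Metric.ball c h ⊆ Metric.ball c (3 * h) :=
    Metric.ball_subset_ball (by linarith)
  have tf1 : TF B (cut b1 c h) := cut_tf b1 c hh (hsub1.trans (hb2.trans hb3))
  have tf2 : TF B (cut b2 c h) := cut_tf b2 c hh (hsub2.trans hb3)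
  -- integrability on the balls
  have hint : ∀ f : ℂ → ℝ, ContinuousOn f B → IntegrableOn f (Metric.ball c (3 * h)) := by
    intro f hf
    exact ((hf.mono hsub3).integrableOn_compact (isCompact_closedBall c (3 * h))).mono_set
      Metric.ball_subset_closedBall
  have hcf : ContinuousOn f B := hf.continuousOn
  have hcg : ContinuousOn (fun z => h ^ 2 * lap f z) B :=
    continuousOn_const.mul (sm_lap hB hf).continuousOn
  set U := ∫ z in Metric.ball c (3 * h), f z ^ 2 with hU
  set R := ∫ z in Metric.ball c (3 * h), (h ^ 2 * lap f z) ^ 2 with hR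
  set Q1 := ∫ z in Metric.ball c (3 * h), f z ^ 4 with hQ1
  set Q2 := ∫ z in Metric.ball c (3 * h), (h ^ 2 * lap f z) ^ 4 with hQ2
  have hUQ : U ^ 2 ≤ (9 * Real.pi * h ^ 2) * Q1 := by
    have k := cs_ball (S := Metric.ball c (3 * h)) measurableSet_ball
      (measure_ball_lt_top).ne (hint _ (hcf.pow 2)) (hint _ (hcf.pow 4))
    rw [vol_ball c (by positivity)] at k
    calc U ^ 2 ≤ Real.pi * (3 * h) ^ 2 * Q1 := k
      _ = (9 * Real.pi * h ^ 2) * Q1 := by ring
  have hRQ : R ^ 2 ≤ (9 * Real.pi * h ^ 2) * Q2 := by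
    have k := cs_ball (S := Metric.ball c (3 * h)) measurableSet_ball
      (measure_ball_lt_top).ne (hint _ (hcg.pow 2)) (hint _ (hcg.pow 4))
    rw [vol_ball c (by positivity)] at k
    calc R ^ 2 ≤ Real.pi * (3 * h) ^ 2 * Q2 := k
      _ = (9 * Real.pi * h ^ 2) * Q2 := by ring
  have hU0 : 0 ≤ U := integral_nonneg (fun z => by positivity)
  have hR0 : 0 ≤ R := integral_nonneg (fun z => by positivity)
  have hQs : ∫ z in Metric.ball c (3 * h), (f z ^ 4 + (h ^ 2 * lap f z) ^ 4) = Q1 + Q2 :=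
    integral_add (hint _ (hcf.pow 4)) (hint _ (hcg.pow 4))
  rw [hQs]
  set T := U + R with hT
  have hTQ : T ^ 2 ≤ (18 * Real.pi * h ^ 2) * (Q1 + Q2) := by
    have : 0 ≤ (U - R) ^ 2 := sq_nonneg _
    have e : T ^ 2 = 2 * (U ^ 2 + R ^ 2) - (U - R) ^ 2 := by rw [hT]; ring
    rw [e]
    nlinarith
  have hT0 : 0 ≤ T := add_nonneg hU0 hR0
  have hMT : M2 * U + R ≤ M2 * T := by
    rw [hT]; nlinarith
  -- the gradient of f on the ball of radius 2h
  have s1 : h ^ 2 * ∫ z, (dx (fun w => cut b2 c h w * f w) z ^ 2 +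
      dy (fun w => cut b2 c h w * f w) z ^ 2) ≤ M2 * U + R :=
    en1 hB hf tf2 ((cut_supp b2 c hh).trans hsub2) (fun z => hM2' h hh c z)
      (cut_sq b2 c h) (hint _ (hcf.pow 2)) (hint _ (hcg.pow 2))
  have s2 : ∫ z in Metric.ball c (2 * h), (dx f z ^ 2 + dy f z ^ 2) ≤
      ∫ z, (dx (fun w => cut b2 c h w * f w) z ^ 2 +
        dy (fun w => cut b2 c h w * f w) z ^ 2) :=
    grad_low hB tf2 hf Metric.isOpen_ball (fun z hz => cut_one b2 c hh hz)
  have s3 : h ^ 2 * ∫ z in Metric.ball c (2 * h), (dx f z ^ 2 + dy f z ^ 2) ≤ M2 * T :=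
    ((mul_le_mul_of_nonneg_left s2 (by positivity)).trans s1).trans hMT
  -- the main estimate for one derivative
  have main : ∀ e : ℂ, (∀ (g : ℂ → ℝ) (z : ℂ), fderiv ℝ g z e ^ 2 ≤ dx g z ^ 2 + dy g z ^ 2) →
      ∫ z in Metric.ball c h, (h * dd e f z) ^ 4 ≤
        |C0| * (M2 * (3 * M1 * M2 + 2)) * (18 * Real.pi) * (Q1 + Q2) := by
    intro e he
    obtain ⟨v, hv⟩ : ∃ v : ℂ → ℝ, v = fun z => h * fderiv ℝ f z e := ⟨_, rfl⟩
    have sv : ContDiffOn ℝ ∞ v B := by
      rw [hv]; exact contDiffOn_const.mul (cdd hB hf e)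
    have hcv := sv.continuousOn
    have i2 : IntegrableOn (fun z => v z ^ 2) (Metric.ball c (2 * h)) :=
      (hint _ (hcv.pow 2)).mono_set hb2
    have hgc : ContinuousOn (fun z => h ^ 2 * (dx f z ^ 2 + dy f z ^ 2)) B :=
      continuousOn_const.mul (((cdd hB hf 1).continuousOn.pow 2).add
        ((cdd hB hf I).continuousOn.pow 2))
    have t1 : ∫ z in Metric.ball c (2 * h), v z ^ 2 ≤ M2 * T := by
      have k1 : ∫ z in Metric.ball c (2 * h), v z ^ 2 ≤
          ∫ z in Metric.ball c (2 * h), h ^ 2 * (dx f z ^ 2 + dy f z ^ 2) := by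
        apply integral_mono_of_nonneg
        · exact ae_of_all _ (fun z => by positivity)
        · exact (hint _ hgc).mono_set hb2
        · refine ae_of_all _ (fun z => ?_)
          show v z ^ 2 ≤ h ^ 2 * (dx f z ^ 2 + dy f z ^ 2)
          rw [hv]
          show (h * fderiv ℝ f z e) ^ 2 ≤ _
          rw [mul_pow]
          exact mul_le_mul_of_nonneg_left (he f z) (sq_nonneg h)
      rw [integral_const_mul] at k1
      exact k1.trans s3
    have ig2 : IntegrableOn (fun z => (h ^ 2 * lap f z) ^ 2) (Metric.ball c (2 * h)) :=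
      (hint _ (hcg.pow 2)).mono_set hb2
    have t1g : ∫ z in Metric.ball c (2 * h), (h ^ 2 * lap f z) ^ 2 ≤ T := by
      have : ∫ z in Metric.ball c (2 * h), (h ^ 2 * lap f z) ^ 2 ≤ R :=
        setIntegral_mono_set (hint _ (hcg.pow 2)) (ae_of_all _ fun z => by
          show (0 : ℝ) ≤ (h ^ 2 * lap f z) ^ 2
          positivity) (LE.le.eventuallyLE hb2)
      linarith
    have t2 : h ^ 2 * ∫ z, (dx (fun w => cut b1 c h w * v w) z ^ 2 +
        dy (fun w => cut b1 c h w * v w) z ^ 2) ≤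
        3 * M1 * (∫ z in Metric.ball c (2 * h), v z ^ 2) +
        2 * ∫ z in Metric.ball c (2 * h), (h ^ 2 * lap f z) ^ 2 :=
      en2 hB hf tf1 e he measurableSet_ball ((cut_supp b1 c hh).trans hsub1)
        (fun z => hM1' h hh c z) (cut_sq b1 c h) hv i2 ig2
    have t3 : ∫ z, (cut b1 c h z * v z) ^ 2 ≤ ∫ z in Metric.ball c (2 * h), v z ^ 2 :=
      l2_up (cut_sq b1 c h) ((cut_supp b1 c hh).trans hsub1) i2
    have hcd : ContDiff ℝ ∞ (fun w => cut b1 c h w * v w) := prod_cd hB tf1 sv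
    have t4 := hC0 (fun w => cut b1 c h w * v w) (hcd.of_le (by
      exact (WithTop.coe_le_coe.mpr (le_top : (1 : ℕ∞) ≤ ⊤) :
        ((1 : ℕ∞) : WithTop ℕ∞) ≤ ((⊤ : ℕ∞) : WithTop ℕ∞)))) tf1.2.1.mul_right
    have t5 : ∫ z in Metric.ball c h, v z ^ 4 ≤ ∫ z, (cut b1 c h z * v z) ^ 4 := by
      apply l4_low hcd.continuous tf1.2.1 measurableSet_ball
      intro z hz
      apply cut_one b1 c hh
      have : b1.rIn = 1 := rfl
      rw [this, one_mul]
      exact hz
    set G := ∫ z, (dx (fun w => cut b1 c h w * v w) z ^ 2 +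
        dy (fun w => cut b1 c h w * v w) z ^ 2) with hG
    set N := ∫ z, (cut b1 c h z * v z) ^ 2 with hN
    set P := ∫ z in Metric.ball c (2 * h), v z ^ 2 with hP
    have hG0 : 0 ≤ G := integral_nonneg (fun z => by positivity)
    have hN0 : 0 ≤ N := integral_nonneg (fun z => by positivity)
    have hP0 : 0 ≤ P := integral_nonneg (fun z => by positivity)
    have t6 : ∫ z in Metric.ball c h, v z ^ 4 ≤ |C0| * N * G := by
      refine t5.trans (t4.trans ?_)
      apply mul_le_mul_of_nonneg_right _ hG0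
      exact mul_le_mul_of_nonneg_right (le_abs_self _) hN0
    have hh2 : 0 < h ^ 2 := by positivity
    have t7 : N ≤ M2 * T := t3.trans t1
    have t8 : h ^ 2 * G ≤ (3 * M1 * M2 + 2) * T := by
      have k1 := mul_le_mul_of_nonneg_left t1 (by positivity : (0 : ℝ) ≤ 3 * M1)
      linarith
    have t9 : N * (h ^ 2 * G) ≤ (M2 * T) * ((3 * M1 * M2 + 2) * T) :=
      mul_le_mul t7 t8 (by positivity) (by positivity)
    have t10 : N * (h ^ 2 * G) ≤ (M2 * (3 * M1 * M2 + 2)) * ((18 * Real.pi * h ^ 2) * (Q1 + Q2)) := by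
      calc N * (h ^ 2 * G) ≤ (M2 * T) * ((3 * M1 * M2 + 2) * T) := t9
        _ = (M2 * (3 * M1 * M2 + 2)) * T ^ 2 := by ring
        _ ≤ (M2 * (3 * M1 * M2 + 2)) * ((18 * Real.pi * h ^ 2) * (Q1 + Q2)) :=
          mul_le_mul_of_nonneg_left hTQ (by positivity)
    have t11 : N * G ≤ (M2 * (3 * M1 * M2 + 2)) * ((18 * Real.pi) * (Q1 + Q2)) := by
      have k : h ^ 2 * (N * G) ≤ h ^ 2 * ((M2 * (3 * M1 * M2 + 2)) * ((18 * Real.pi) * (Q1 + Q2))) := by
        calc h ^ 2 * (N * G) = N * (h ^ 2 * G) := by ring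
          _ ≤ (M2 * (3 * M1 * M2 + 2)) * ((18 * Real.pi * h ^ 2) * (Q1 + Q2)) := t10
          _ = h ^ 2 * ((M2 * (3 * M1 * M2 + 2)) * ((18 * Real.pi) * (Q1 + Q2))) := by ring
      exact le_of_mul_le_mul_left k hh2
    have t12 : ∫ z in Metric.ball c h, (h * dd e f z) ^ 4 = ∫ z in Metric.ball c h, v z ^ 4 := by
      rw [hv]; rfl
    rw [t12]
    calc ∫ z in Metric.ball c h, v z ^ 4 ≤ |C0| * N * G := t6
      _ = |C0| * (N * G) := by ring
      _ ≤ |C0| * ((M2 * (3 * M1 * M2 + 2)) * ((18 * Real.pi) * (Q1 + Q2))) :=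
        mul_le_mul_of_nonneg_left t11 (abs_nonneg _)
      _ = |C0| * (M2 * (3 * M1 * M2 + 2)) * (18 * Real.pi) * (Q1 + Q2) := by ring
  have m1 := main 1 (by
    intro g z
    change dx g z ^ 2 ≤ _
    nlinarith [sq_nonneg (dy g z)])
  have m2 := main I (by
    intro g z
    change dy g z ^ 2 ≤ _
    nlinarith [sq_nonneg (dx g z)])
  have c1 : ContinuousOn (fun z => (h * dd 1 f z) ^ 4) B :=
    (continuousOn_const.mul (cdd hB hf 1).continuousOn).pow 4
  have c2 : ContinuousOn (fun z => (h * dd I f z) ^ 4) B :=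
    (continuousOn_const.mul (cdd hB hf I).continuousOn).pow 4
  have i1 : IntegrableOn (fun z => (h * dd 1 f z) ^ 4) (Metric.ball c h) :=
    (hint _ c1).mono_set hb1
  have i2 : IntegrableOn (fun z => (h * dd I f z) ^ 4) (Metric.ball c h) :=
    (hint _ c2).mono_set hb1
  have fin : ∫ z in Metric.ball c h, (h ^ 2 * (dx f z ^ 2 + dy f z ^ 2)) ^ 2 ≤
      ∫ z in Metric.ball c h, (2 * (h * dd 1 f z) ^ 4 + 2 * (h * dd I f z) ^ 4) := by
    apply integral_mono_of_nonneg
    · exact ae_of_all _ (fun z => by positivity)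
    · exact (i1.const_mul 2).add (i2.const_mul 2)
    · refine ae_of_all _ (fun z => ?_)
      change (h ^ 2 * (dx f z ^ 2 + dy f z ^ 2)) ^ 2 ≤
        2 * (h * dx f z) ^ 4 + 2 * (h * dy f z) ^ 4
      have : 0 ≤ ((h * dx f z) ^ 2 - (h * dy f z) ^ 2) ^ 2 := by positivity
      nlinarith
  rw [integral_add (i1.const_mul 2) (i2.const_mul 2), integral_const_mul,
    integral_const_mul] at fin
  linarith

/-- the covering argument -/
theorem cover {U K K' : Set ℂ} (hK : IsCompact K) (hK' : IsCompact K')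
    (hKU : K' ⊆ U) {h : ℝ} (hpos : 0 < h) (hth : Metric.cthickening (5 * h) K ⊆ K') {D : ℝ}
    (hD0 : 0 ≤ D) {G H : ℂ → ℝ} (hGc : ContinuousOn G U) (hHc : ContinuousOn H U)
    (hG0 : ∀ z, 0 ≤ G z) (hH0 : ∀ z, 0 ≤ H z)
    (hC : ∀ z, Metric.ball z (4 * h) ⊆ U →
      ∫ x in Metric.ball z h, G x ≤ D * ∫ x in Metric.ball z (3 * h), H x) :
    ∫ z in K, G z ≤ 9 * D * ∫ z in K', H z := by
  open Metric Set in
  have hKK' : K ⊆ K' := (self_subset_cthickening K).trans hth
  have hGi : IntegrableOn G K' := (hGc.mono hKU).integrableOn_compact hK'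
  have hui : IntegrableOn H K' := (hHc.mono hKU).integrableOn_compact hK'
  set Z : Set ℂ := Metric.cthickening h K with hZ
  have hball : ∀ z ∈ Z, Metric.ball z (4 * h) ⊆ K' := by
    intro z hz w hw
    refine hth ?_
    have e1 : Metric.ball z (4 * h) ⊆ Metric.thickening (4 * h) Z :=
      Metric.ball_subset_thickening hz _
    have e2 : Metric.thickening (4 * h) (Metric.cthickening h K) ⊆
      Metric.thickening (4 * h + h) K := thickening_cthickening_subset _ hpos.le _
    have e3 := e2 (e1 hw)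
    have e4 : 4 * h + h = 5 * h := by ring
    rw [e4] at e3
    exact Metric.thickening_subset_cthickening _ _ e3
  -- the local bound with lintegrals
  have hloc : ∀ z ∈ Z, ∫⁻ x in Metric.ball z h, ENNReal.ofReal (G x) ≤
      ENNReal.ofReal D * ∫⁻ x in Metric.ball z (3 * h), ENNReal.ofReal (H x) := by
    intro z hz
    have hb := hball z hz
    have hb1 : Metric.ball z h ⊆ K' := (Metric.ball_subset_ball (by linarith)).trans hb
    have hb3 : Metric.ball z (3 * h) ⊆ K' := (Metric.ball_subset_ball (by linarith)).trans hb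
    have h2 := hC z (hb.trans hKU)
    rw [← ofReal_integral_eq_lintegral_ofReal (hGi.mono_set hb1)
      (Eventually.of_forall hG0),
      ← ofReal_integral_eq_lintegral_ofReal (hui.mono_set hb3) (Eventually.of_forall hH0),
      ← ENNReal.ofReal_mul hD0]
    exact ENNReal.ofReal_le_ofReal h2
  -- measurable cut-offs
  set g : ℂ → ℝ≥0∞ := K.indicator fun x => ENNReal.ofReal (G x) with hg
  set v : ℂ → ℝ≥0∞ := K'.indicator fun x => ENNReal.ofReal (H x) with hv
  have hgm : Measurable g := by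
    classical
    have := ContinuousOn.measurable_piecewise (f := fun x => ENNReal.ofReal (G x))
      (g := fun _ => 0) (s := K)
      (ENNReal.continuous_ofReal.comp_continuousOn (hGc.mono (hKK'.trans hKU)))
      continuousOn_const hK.measurableSet
    have h3 : g = K.piecewise (fun x => ENNReal.ofReal (G x)) (fun _ => 0) := by
      rw [hg]; exact (Set.piecewise_eq_indicator).symm
    rw [h3]; exact this
  have hvm : Measurable v := by
    classical
    have := ContinuousOn.measurable_piecewise (f := fun x => ENNReal.ofReal (H x))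
      (g := fun _ => 0) (s := K')
      (ENNReal.continuous_ofReal.comp_continuousOn (hHc.mono hKU))
      continuousOn_const hK'.measurableSet
    have h3 : v = K'.piecewise (fun x => ENNReal.ofReal (H x)) (fun _ => 0) := by
      rw [hv]; exact (Set.piecewise_eq_indicator).symm
    rw [h3]; exact this
  have hmono : ∫⁻ z in Z, ∫⁻ x in Metric.ball z h, g x ≤
      ∫⁻ z in Z, ENNReal.ofReal D * ∫⁻ x in Metric.ball z (3 * h), v x := by
    refine setLIntegral_mono' Metric.isClosed_cthickening.measurableSet fun z hz => ?_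
    calc ∫⁻ x in Metric.ball z h, g x ≤ ∫⁻ x in Metric.ball z h, ENNReal.ofReal (G x) := by
          refine lintegral_mono fun x => ?_
          exact Set.indicator_le_self _ _ x
      _ ≤ ENNReal.ofReal D * ∫⁻ x in Metric.ball z (3 * h), ENNReal.ofReal (H x) := hloc z hz
      _ = ENNReal.ofReal D * ∫⁻ x in Metric.ball z (3 * h), v x := by
          congr 1
          refine setLIntegral_congr_fun measurableSet_ball fun x hx => ?_
          have : x ∈ K' := hball z hz (Metric.ball_subset_ball (by linarith) hx)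
          simp only [hv, Set.indicator_of_mem this]
  rw [lintegral_const_mul' _ _ ENNReal.ofReal_ne_top,
    Pool.Agent.W578.RW.G2.swapL Z h g hgm, Pool.Agent.W578.RW.G2.swapL Z (3 * h) v hvm]
    at hmono
  set V : ℝ≥0∞ := volume (Metric.ball (0:ℂ) h) with hV
  have hVx : ∀ x : ℂ, volume (Metric.ball x h) = V := fun x => by
    rw [hV, Complex.volume_ball, Complex.volume_ball]
  have hV0 : V ≠ 0 := (Metric.measure_ball_pos volume _ hpos).ne'
  have hVt : V ≠ ⊤ := measure_ball_lt_top.ne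
  have hL : ∫⁻ x, g x * volume (Metric.ball x h ∩ Z) =
      (∫⁻ x in K, ENNReal.ofReal (G x)) * V := by
    rw [← lintegral_indicator hK.measurableSet, ← lintegral_mul_const' _ _ hVt]
    refine lintegral_congr fun x => ?_
    by_cases hx : x ∈ K
    · have h4 : Metric.ball x h ∩ Z = Metric.ball x h := by
        refine Set.inter_eq_left.2 ?_
        exact (Metric.ball_subset_thickening hx h).trans
          (Metric.thickening_subset_cthickening _ _)
      rw [h4, hVx]
    · simp only [hg, Set.indicator_of_notMem hx, zero_mul]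
  have hR : ∫⁻ x, v x * volume (Metric.ball x (3 * h) ∩ Z) ≤
      (∫⁻ x in K', ENNReal.ofReal (H x)) * (9 * V) := by
    rw [← lintegral_indicator hK'.measurableSet,
      ← lintegral_mul_const' _ _ (ENNReal.mul_ne_top (by norm_num) hVt)]
    refine lintegral_mono fun x => ?_
    refine mul_le_mul_right ?_ _
    refine (measure_mono Set.inter_subset_left).trans ?_
    rw [Pool.Agent.W578.RW.G2.vol3 x 0 h hpos]
  rw [hL] at hmono
  have h5 := hmono.trans (mul_le_mul_right hR (ENNReal.ofReal D))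
  have h6 : ENNReal.ofReal D * ((∫⁻ x in K', ENNReal.ofReal (H x)) * (9 * V)) =
      (9 * ENNReal.ofReal D * ∫⁻ x in K', ENNReal.ofReal (H x)) * V := by ring
  rw [h6] at h5
  have h7 := (ENNReal.mul_le_mul_iff_left hV0 hVt).1 h5
  rw [← ofReal_integral_eq_lintegral_ofReal (hGi.mono_set hKK') (Eventually.of_forall hG0),
    ← ofReal_integral_eq_lintegral_ofReal hui (Eventually.of_forall hH0)] at h7
  have h8 : (9 : ℝ≥0∞) * ENNReal.ofReal D * ENNReal.ofReal (∫ z in K', H z) =
      ENNReal.ofReal (9 * D * ∫ z in K', H z) := by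
    rw [ENNReal.ofReal_mul (by positivity), ENNReal.ofReal_mul (by norm_num)]
    norm_num
  rw [h8] at h7
  exact (ENNReal.ofReal_le_ofReal_iff
    (mul_nonneg (by positivity) (integral_nonneg hH0))).1 h7

/-- the estimate on compact sets -/
theorem ell : ∃ C : ℝ, 0 ≤ C ∧ ∀ (U K K' : Set ℂ), IsOpen U → IsCompact K → IsCompact K' →
    K' ⊆ U → ∀ (h : ℝ) (f : ℂ → ℝ), 0 < h → ContDiffOn ℝ ∞ f U →
    Metric.cthickening (5 * h) K ⊆ K' →
    ∫ z in K, (h ^ 2 * (dx f z ^ 2 + dy f z ^ 2)) ^ 2 ≤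
      C * ∫ z in K', (f z ^ 4 + (h ^ 2 * lap f z) ^ 4) := by
  obtain ⟨C, hC0, hC⟩ := sgi
  refine ⟨9 * C, by positivity, ?_⟩
  intro U K K' hU hK hK' hKU h f hpos hf hth
  have hdx : ContinuousOn (dx f) U := (cdd hU hf 1).continuousOn
  have hdy : ContinuousOn (dy f) U := (cdd hU hf I).continuousOn
  have hGc : ContinuousOn (fun z => (h ^ 2 * (dx f z ^ 2 + dy f z ^ 2)) ^ 2) U :=
    (continuousOn_const.mul ((hdx.pow 2).add (hdy.pow 2))).pow 2
  have hHc : ContinuousOn (fun z => f z ^ 4 + (h ^ 2 * lap f z) ^ 4) U :=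
    (hf.continuousOn.pow 4).add
      ((continuousOn_const.mul (sm_lap hU hf).continuousOn).pow 4)
  exact cover hK hK' hKU hpos hth hC0 hGc hHc (fun z => by positivity) (fun z => by positivity)
    (fun z hz => hC h f z hpos (hf.mono hz))

end

end Pool.Agent.TH294.RS
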