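import Pool.Agent.TH294.RS.Main

/-!
Project RS (helper294): final forms with weights, on open sets.
-/

set_option autoImplicit false
open MeasureTheory Filter Topology Complex
open scoped ContDiff ENNReal

namespace Pool.Agent.TH294.RS

open Pool.Agent.W745.RW

noncomputable section

/-- an open set is exhausted by compact sets -/
lemma exh (U : Set ℂ) (hU : IsOpen U) : ∃ K : ℕ → Set ℂ, (∀ m, IsCompact (K m)) ∧
    (∀ m, K m ⊆ U) ∧ (⋃ m, K m) = U ∧ Monotone K := by
  obtain ⟨F, h1, h2, h3, h4⟩ := hU.exists_iUnion_isClosed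
  refine ⟨fun m => F m ∩ Metric.closedBall 0 m, fun m => ?_, fun m => ?_, ?_, ?_⟩
  · exact (isCompact_closedBall 0 (m : ℝ)).inter_left (h1 m)
  · exact Set.inter_subset_left.trans (h2 m)
  · ext z
    simp only [Set.mem_iUnion, Set.mem_inter_iff]
    constructor
    · rintro ⟨m, hm, -⟩
      exact h2 m hm
    · intro hz
      rw [← h3, Set.mem_iUnion] at hz
      obtain ⟨m, hm⟩ := hz
      obtain ⟨k, hk⟩ := exists_nat_ge ‖z‖
      refine ⟨max m k, h4 (le_max_left m k) hm, ?_⟩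
      rw [mem_closedBall_zero_iff]
      exact hk.trans (by exact_mod_cast le_max_right m k)
  · intro m k hmk
    exact Set.inter_subset_inter (h4 hmk) (Metric.closedBall_subset_closedBall (by exact_mod_cast hmk))

/-- abstract passage from test functions to open sets -/
theorem open_of_test {V : Set ℂ} (hV : IsOpen V) {c : ℝ} (hc : 0 ≤ c) {F : ℕ → ℂ → ℝ}
    (hF : ∀ n, ContinuousOn (F n) V) (hF0 : ∀ n z, 0 ≤ F n z)
    (H : ∀ ψ, TF V ψ → (∀ z, 0 ≤ ψ z) → ∀ ε : ℝ, 0 < ε →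
      ∀ᶠ n in atTop, c * (∫ z, ψ z) - ε ≤ ∫ z, ψ z * F n z) :
    ENNReal.ofReal c * volume V ≤ liminf (fun n => ∫⁻ z in V, ENNReal.ofReal (F n z)) atTop := by
  obtain ⟨K, hK, hKV, hKu, hKm⟩ := exh V hV
  have h1 : volume V = ⨆ m, volume (K m) := by
    rw [← hKu]
    exact hKm.measure_iUnion
  rw [h1, ENNReal.mul_iSup]
  refine iSup_le fun m => ?_
  obtain ⟨χ, hχ, hχ1, hχ0, hχ2⟩ := exists_cut hV (hK m) (hKV m)
  have Iχ : Integrable χ := hχ.1.continuous.integrable_of_hasCompactSupport hχ.2.1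
  have h2 : volume (K m) ≤ ENNReal.ofReal (∫ z, χ z) := by
    rw [ofReal_integral_eq_lintegral_ofReal Iχ (Eventually.of_forall hχ0)]
    calc volume (K m) = ∫⁻ z in K m, 1 := by simp
      _ = ∫⁻ z in K m, ENNReal.ofReal (χ z) :=
          setLIntegral_congr_fun (hK m).measurableSet fun z hz => by
            rw [hχ1 z hz]; simp
      _ ≤ ∫⁻ z, ENNReal.ofReal (χ z) := setLIntegral_le_lintegral _ _
  refine (mul_le_mul_right h2 (ENNReal.ofReal c)).trans ?_
  rw [← ENNReal.ofReal_mul hc]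
  -- the limit
  by_contra hcon
  rw [not_le] at hcon
  obtain ⟨r, hr0, hr1, hr2⟩ := ENNReal.lt_iff_exists_real_btwn.1 hcon
  have h3 : r < c * ∫ z, χ z := (ENNReal.ofReal_lt_ofReal_iff_of_nonneg hr0).1 hr2
  have h4 := H χ hχ hχ0 (c * (∫ z, χ z) - r) (by linarith)
  have h5 : ∀ᶠ n in atTop, ENNReal.ofReal r ≤ ∫⁻ z in V, ENNReal.ofReal (F n z) := by
    filter_upwards [h4] with n hn
    have i1 : Integrable (fun z => χ z * F n z) := Pool.Agent.W311.RW.int_mul hV hχ (hF n)
    have h6 : r ≤ ∫ z, χ z * F n z := by linarith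
    refine (ENNReal.ofReal_le_ofReal h6).trans ?_
    rw [ofReal_integral_eq_lintegral_ofReal i1
      (Eventually.of_forall fun z => mul_nonneg (hχ0 z) (hF0 n z))]
    rw [← lintegral_indicator hV.measurableSet]
    refine lintegral_mono fun z => ?_
    by_cases hz : z ∈ V
    · rw [Set.indicator_of_mem hz]
      refine ENNReal.ofReal_le_ofReal ?_
      exact mul_le_of_le_one_left (hF0 n z) (hχ2 z)
    · rw [Set.indicator_of_notMem hz, TF.zero hχ hz]
      simp
  have h7 : ENNReal.ofReal r ≤ liminf (fun n => ∫⁻ z in V, ENNReal.ofReal (F n z)) atTop :=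
    le_liminf_of_le (by isBoundedDefault) h5
  exact absurd hr1 (not_lt.2 h7)

/-- from open sets to continuous weights -/
theorem weight_of_open {U : Set ℂ} (hU : IsOpen U) {c : ℝ≥0∞} {F : ℕ → ℂ → ℝ}
    (hF : ∀ n, ContinuousOn (F n) U)
    (H : ∀ V : Set ℂ, IsOpen V → V ⊆ U →
      c * volume V ≤ liminf (fun n => ∫⁻ z in V, ENNReal.ofReal (F n z)) atTop)
    {w : ℂ → ℝ} (hw : ContinuousOn w U) (hw0 : ∀ z ∈ U, 0 ≤ w z) :
    c * ∫⁻ z in U, ENNReal.ofReal (w z) ≤
      liminf (fun n => ∫⁻ z in U, ENNReal.ofReal (w z * F n z)) atTop := by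
  have hUm := hU.measurableSet
  have wm : AEMeasurable w (volume.restrict U) := hw.aemeasurable hUm
  have w0 : 0 ≤ᵐ[volume.restrict U] w := (ae_restrict_mem hUm).mono fun z hz => hw0 z hz
  -- the level sets
  set L : ℝ → Set ℂ := fun t => U ∩ w ⁻¹' (Set.Ioi t) with hL
  have hLo : ∀ t, IsOpen (L t) := fun t => hw.isOpen_inter_preimage hU isOpen_Ioi
  have hLU : ∀ t, L t ⊆ U := fun t => Set.inter_subset_left
  have e1 : ∫⁻ z in U, ENNReal.ofReal (w z) = ∫⁻ t in Set.Ioi (0 : ℝ), volume (L t) := by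
    rw [lintegral_eq_lintegral_meas_lt _ w0 wm]
    refine lintegral_congr fun t => ?_
    rw [Measure.restrict_apply₀' hUm.nullMeasurableSet]
    congr 1
    ext z
    simp only [hL, Set.mem_inter_iff, Set.mem_preimage, Set.mem_Ioi, Set.mem_ofPred_eq]
    tauto
  have e2 : ∀ n, ∫⁻ z in U, ENNReal.ofReal (w z * F n z) =
      ∫⁻ t in Set.Ioi (0 : ℝ), ∫⁻ z in L t, ENNReal.ofReal (F n z) := by
    intro n
    have Fm : AEMeasurable (fun z => ENNReal.ofReal (F n z)) (volume.restrict U) :=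
      ((hF n).aemeasurable hUm).ennreal_ofReal
    set ν : Measure ℂ := (volume.restrict U).withDensity (fun z => ENNReal.ofReal (F n z)) with hν
    have hac : ν ≪ volume.restrict U := withDensity_absolutelyContinuous _ _
    have wm' : AEMeasurable w ν := wm.mono_ac hac
    have w0' : 0 ≤ᵐ[ν] w := hac.ae_le w0
    have h1 := lintegral_eq_lintegral_meas_lt ν w0' wm'
    have h2 : ∫⁻ z, ENNReal.ofReal (w z) ∂ν = ∫⁻ z in U, ENNReal.ofReal (w z * F n z) := by
      rw [hν, lintegral_withDensity_eq_lintegral_mul₀ Fm wm.ennreal_ofReal]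
      refine setLIntegral_congr_fun hUm fun z hz => ?_
      simp only [Pi.mul_apply]
      rw [ENNReal.ofReal_mul (hw0 z hz), mul_comm]
    rw [← h2, h1]
    refine lintegral_congr fun t => ?_
    have h3 : ν {z | t < w z} = ν (L t) := by
      refine measure_congr ?_
      refine hac.ae_le ?_ |> fun h => h
      refine (ae_restrict_mem hUm).mono fun z hz => ?_
      show (t < w z) = (z ∈ L t)
      simp only [hL, Set.mem_inter_iff, Set.mem_preimage, Set.mem_Ioi, hz, true_and]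
    rw [h3, hν, withDensity_apply _ (hLo t).measurableSet,
      Measure.restrict_restrict (hLo t).measurableSet, Set.inter_eq_left.2 (hLU t)]
  rw [e1]
  simp only [e2]
  have hmon : ∀ n, Antitone (fun t : ℝ => ∫⁻ z in L t, ENNReal.ofReal (F n z)) := by
    intro n s t hst
    refine lintegral_mono_set ?_
    rintro z ⟨h1, h2⟩
    exact ⟨h1, lt_of_le_of_lt hst h2⟩
  have hmon0 : Antitone (fun t : ℝ => volume (L t)) := by
    intro s t hst
    refine measure_mono ?_
    rintro z ⟨h1, h2⟩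
    exact ⟨h1, lt_of_le_of_lt hst h2⟩
  calc c * ∫⁻ t in Set.Ioi (0 : ℝ), volume (L t)
      = ∫⁻ t in Set.Ioi (0 : ℝ), c * volume (L t) := by
        rw [lintegral_const_mul _ hmon0.measurable]
    _ ≤ ∫⁻ t in Set.Ioi (0 : ℝ), liminf (fun n => ∫⁻ z in L t, ENNReal.ofReal (F n z)) atTop :=
        lintegral_mono fun t => H (L t) (hLo t) (hLU t)
    _ ≤ liminf (fun n => ∫⁻ t in Set.Ioi (0 : ℝ), ∫⁻ z in L t, ENNReal.ofReal (F n z)) atTop :=
        lintegral_liminf_le fun n => (hmon n).measurable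

/-- **Final form**: all even moments with continuous weights on open sets. -/
theorem Raw.fin {Ω : Set ℂ} (hΩ : IsOpen Ω) {a : ℂ → ℝ} {h : ℕ → ℝ} {u : ℕ → ℂ → ℝ}
    (H : Raw Ω a h u) (m : ℕ) {U : Set ℂ} (hU : IsOpen U) (hUΩ : U ⊆ Ω) {w : ℂ → ℝ}
    (hw : ContinuousOn w U) (hw0 : ∀ z ∈ U, 0 ≤ w z) :
    ENNReal.ofReal (3 ^ m) * ∫⁻ z in U, ENNReal.ofReal (w z) ≤
      liminf (fun n => ∫⁻ z in U, ENNReal.ofReal (w z * u n z ^ (2 * (m + 1)))) atTop := by
  have hnn : ∀ n z, 0 ≤ u n z ^ (2 * (m + 1)) := fun n z => by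
    rw [pow_mul]; positivity
  refine weight_of_open hU (fun n => ((H.sm n).continuousOn.mono hUΩ).pow _)
    (fun V hV hVU => ?_) hw hw0
  refine open_of_test hV (by positivity)
    (fun n => ((H.sm n).continuousOn.mono (hVU.trans hUΩ)).pow _) hnn fun ψ hψ hψ0 ε hε => ?_
  exact H.even hΩ ⟨hψ.1, hψ.2.1, hψ.2.2.trans (hVU.trans hUΩ)⟩ hψ0 m hε

end

end Pool.Agent.TH294.RS
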