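import Pool.Agent.TH294.RS.DC
import Pool.Agent.W450.RW.T
import Pool.Agent.W686.RW.X

/-!
Project RS (helper294): calculus of locally bounded sequences and weak limits.
-/

set_option autoImplicit false
open MeasureTheory Filter Topology Complex
open scoped ContDiff

namespace Pool.Agent.TH294.RS

open Pool.Agent.W745.RW

noncomputable section

/-- sequences of smooth functions locally bounded in `L^p` -/
structure LB (B : Set ℂ) (p : ℕ) (f : ℕ → ℂ → ℂ) : Prop where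
  sm : ∀ n, ContDiffOn ℝ ∞ (f n) B
  bd : ∀ K : Set ℂ, IsCompact K → K ⊆ B → ∃ C : ℝ, ∀ᶠ n in atTop, ∫ z in K, ‖f n z‖ ^ p ≤ C

lemma intK_mono {K : Set ℂ} (hK : IsCompact K) {F G : ℂ → ℝ} (hF : ContinuousOn F K)
    (hG : ContinuousOn G K) (h : ∀ z ∈ K, F z ≤ G z) : ∫ z in K, F z ≤ ∫ z in K, G z :=
  setIntegral_mono_on (hF.integrableOn_compact hK) (hG.integrableOn_compact hK)
    hK.measurableSet h

lemma intK_lin {K : Set ℂ} (hK : IsCompact K) {F G1 G2 : ℂ → ℝ} {c C D : ℝ} (hc : 0 ≤ c)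
    (hF : ContinuousOn F K) (h1 : ContinuousOn G1 K) (h2 : ContinuousOn G2 K)
    (h : ∀ z ∈ K, F z ≤ c * (G1 z + G2 z)) (b1 : ∫ z in K, G1 z ≤ C) (b2 : ∫ z in K, G2 z ≤ D) :
    ∫ z in K, F z ≤ c * (C + D) := by
  have h3 : ContinuousOn (fun z => c * (G1 z + G2 z)) K := continuousOn_const.mul (h1.add h2)
  have i1 : IntegrableOn G1 K volume := h1.integrableOn_compact hK
  have i2 : IntegrableOn G2 K volume := h2.integrableOn_compact hK
  refine (intK_mono hK hF h3 h).trans ?_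
  rw [integral_const_mul, integral_add i1 i2]
  exact mul_le_mul_of_nonneg_left (add_le_add b1 b2) hc

lemma intK_c {K : Set ℂ} (hK : IsCompact K) {F G : ℂ → ℝ} {c C : ℝ} (hc : 0 ≤ c)
    (hF : ContinuousOn F K) (h1 : ContinuousOn G K)
    (h : ∀ z ∈ K, F z ≤ c * G z) (b1 : ∫ z in K, G z ≤ C) :
    ∫ z in K, F z ≤ c * C := by
  have h3 : ContinuousOn (fun z => c * G z) K := continuousOn_const.mul h1
  refine (intK_mono hK hF h3 h).trans ?_
  rw [integral_const_mul]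
  exact mul_le_mul_of_nonneg_left b1 hc

lemma LB.co {B : Set ℂ} {p : ℕ} {f : ℕ → ℂ → ℂ} (h : LB B p f) (n : ℕ) : ContinuousOn (f n) B :=
  (h.sm n).continuousOn

lemma LB.copow {B : Set ℂ} {p : ℕ} {f : ℕ → ℂ → ℂ} (h : LB B p f) (n q : ℕ) :
    ContinuousOn (fun z => ‖f n z‖ ^ q) B := ((h.co n).norm).pow q

lemma LB.congr {B : Set ℂ} {p : ℕ} {f g : ℕ → ℂ → ℂ} (h : LB B p f)
    (e : ∀ n, ∀ z ∈ B, g n z = f n z) : LB B p g := by
  refine ⟨fun n => (h.sm n).congr (e n), fun K hK hKB => ?_⟩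
  obtain ⟨C, hC⟩ := h.bd K hK hKB
  refine ⟨C, hC.mono fun n hn => ?_⟩
  have : ∫ z in K, ‖g n z‖ ^ p = ∫ z in K, ‖f n z‖ ^ p :=
    setIntegral_congr_fun hK.measurableSet fun z hz => by
      show ‖g n z‖ ^ p = ‖f n z‖ ^ p
      rw [e n z (hKB hz)]
  rw [this]; exact hn

lemma LB.mono {B B' : Set ℂ} {p : ℕ} {f : ℕ → ℂ → ℂ} (h : LB B p f) (hB : B' ⊆ B) : LB B' p f :=
  ⟨fun n => (h.sm n).mono hB, fun K hK hKB => h.bd K hK (hKB.trans hB)⟩

lemma LB.add {B : Set ℂ} {p : ℕ} {f g : ℕ → ℂ → ℂ} (hf : LB B p f) (hg : LB B p g) :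
    LB B p (fun n z => f n z + g n z) := by
  refine ⟨fun n => (hf.sm n).add (hg.sm n), fun K hK hKB => ?_⟩
  obtain ⟨C, hC⟩ := hf.bd K hK hKB
  obtain ⟨D, hD⟩ := hg.bd K hK hKB
  refine ⟨2 ^ (p - 1) * (C + D), ?_⟩
  filter_upwards [hC, hD] with n h1 h2
  have c1 := (hf.copow n p).mono hKB
  have c2 := (hg.copow n p).mono hKB
  have c3 : ContinuousOn (fun z => ‖f n z + g n z‖ ^ p) K :=
    (((hf.co n).add (hg.co n)).norm.pow p).mono hKB
  exact intK_lin hK (by positivity) c3 c1 c2 (fun z hz =>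
    (pow_le_pow_left₀ (norm_nonneg _) (norm_add_le _ _) p).trans
      (add_pow_le (norm_nonneg _) (norm_nonneg _) p)) h1 h2

lemma LB.smulc {B : Set ℂ} {p : ℕ} {f : ℕ → ℂ → ℂ} (hf : LB B p f) {c : ℂ → ℂ}
    (hc : ContDiffOn ℝ ∞ c B) : LB B p (fun n z => c z * f n z) := by
  refine ⟨fun n => hc.mul (hf.sm n), fun K hK hKB => ?_⟩
  obtain ⟨C, hC⟩ := hf.bd K hK hKB
  obtain ⟨M, hM⟩ := hK.exists_bound_of_continuousOn (hc.continuousOn.mono hKB)
  refine ⟨|M| ^ p * C, ?_⟩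
  filter_upwards [hC] with n h1
  have c1 := (hf.copow n p).mono hKB
  have c3 : ContinuousOn (fun z => ‖c z * f n z‖ ^ p) K :=
    ((hc.continuousOn.mul (hf.co n)).norm.pow p).mono hKB
  refine intK_c hK (by positivity) c3 c1 (fun z hz => ?_) h1
  rw [norm_mul, mul_pow]
  exact mul_le_mul_of_nonneg_right (pow_le_pow_left₀ (norm_nonneg _)
    ((hM z hz).trans (le_abs_self M)) p) (by positivity)

lemma LB.cmul {B : Set ℂ} {p : ℕ} {f : ℕ → ℂ → ℂ} (hf : LB B p f) (c : ℂ) :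
    LB B p (fun n z => c * f n z) := hf.smulc (c := fun _ => c) contDiffOn_const

lemma LB.neg {B : Set ℂ} {p : ℕ} {f : ℕ → ℂ → ℂ} (hf : LB B p f) :
    LB B p (fun n z => - f n z) := (hf.cmul (-1)).congr fun n z _ => by ring

lemma LB.sub {B : Set ℂ} {p : ℕ} {f g : ℕ → ℂ → ℂ} (hf : LB B p f) (hg : LB B p g) :
    LB B p (fun n z => f n z - g n z) := (hf.add hg.neg).congr fun n z _ => by ring

/-- multiplication by a null sequence of real numbers -/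
lemma LB.hmul {B : Set ℂ} {p : ℕ} {f : ℕ → ℂ → ℂ} (hf : LB B p f) {h : ℕ → ℝ}
    (hh : Tendsto h atTop (𝓝 0)) : LB B p (fun n z => (h n : ℂ) * f n z) := by
  refine ⟨fun n => contDiffOn_const.mul (hf.sm n), fun K hK hKB => ?_⟩
  obtain ⟨C, hC⟩ := hf.bd K hK hKB
  refine ⟨C, ?_⟩
  have h1 : ∀ᶠ n in atTop, |h n| < 1 := by
    have := hh.abs
    rw [abs_zero] at this
    exact this.eventually (gt_mem_nhds one_pos)
  filter_upwards [hC, h1] with n h2 h3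
  refine le_trans ?_ h2
  have c1 := (hf.copow n p).mono hKB
  have c3 : ContinuousOn (fun z => ‖(h n : ℂ) * f n z‖ ^ p) K :=
    ((continuousOn_const.mul (hf.co n)).norm.pow p).mono hKB
  refine intK_mono hK c3 c1 (fun z hz => ?_)
  rw [norm_mul, norm_real, Real.norm_eq_abs]
  exact pow_le_pow_left₀ (by positivity) (mul_le_of_le_one_left (norm_nonneg _) h3.le) p

lemma LB.mul {B : Set ℂ} {p : ℕ} {f g : ℕ → ℂ → ℂ} (hf : LB B (2 * p) f) (hg : LB B (2 * p) g) :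
    LB B p (fun n z => f n z * g n z) := by
  refine ⟨fun n => (hf.sm n).mul (hg.sm n), fun K hK hKB => ?_⟩
  obtain ⟨C, hC⟩ := hf.bd K hK hKB
  obtain ⟨D, hD⟩ := hg.bd K hK hKB
  refine ⟨1 * (C + D), ?_⟩
  filter_upwards [hC, hD] with n h1 h2
  have c1 := (hf.copow n (2 * p)).mono hKB
  have c2 := (hg.copow n (2 * p)).mono hKB
  have c3 : ContinuousOn (fun z => ‖f n z * g n z‖ ^ p) K :=
    (((hf.co n).mul (hg.co n)).norm.pow p).mono hKB
  refine intK_lin hK zero_le_one c3 c1 c2 (fun z hz => ?_) h1 h2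
  rw [norm_mul, mul_pow, mul_comm 2 p, pow_mul, pow_mul]
  nlinarith [sq_nonneg (‖f n z‖ ^ p - ‖g n z‖ ^ p), sq_nonneg (‖f n z‖ ^ p),
    sq_nonneg (‖g n z‖ ^ p)]

lemma LB.low {B : Set ℂ} {p : ℕ} {f : ℕ → ℂ → ℂ} (hf : LB B (2 * p) f) : LB B p f := by
  refine ⟨hf.sm, fun K hK hKB => ?_⟩
  obtain ⟨C, hC⟩ := hf.bd K hK hKB
  refine ⟨1 * ((∫ z in K, (1 : ℝ)) + C), ?_⟩
  filter_upwards [hC] with n h1
  have c1 := (hf.copow n (2 * p)).mono hKB
  have c0 : ContinuousOn (fun _ : ℂ => (1 : ℝ)) K := continuousOn_const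
  refine intK_lin hK zero_le_one ((hf.copow n p).mono hKB) c0 c1 (fun z hz => ?_) le_rfl h1
  rw [mul_comm 2 p, pow_mul]
  nlinarith [sq_nonneg (‖f n z‖ ^ p - 1), sq_nonneg (‖f n z‖ ^ p)]

lemma LB.const (B : Set ℂ) (p : ℕ) {c : ℂ → ℂ} (hc : ContDiffOn ℝ ∞ c B) :
    LB B p (fun _ z => c z) := by
  refine ⟨fun _ => hc, fun K hK hKB => ?_⟩
  exact ⟨_, Eventually.of_forall fun n => le_rfl⟩

lemma TF.cint {B : Set ℂ} {φ : ℂ → ℝ} (hφ : TF B φ) {f : ℂ → ℂ} (hf : ContinuousOn f B) :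
    Integrable (fun z => (φ z : ℂ) * f z) := Pool.Agent.W686.RW.X.int_phi hφ hf

lemma TF.zero {B : Set ℂ} {φ : ℂ → ℝ} (hφ : TF B φ) {z : ℂ} (hz : z ∉ B) : φ z = 0 :=
  image_eq_zero_of_notMem_tsupport (fun h => hz (hφ.2.2 h))

/-- a bound for integrals against test functions -/
lemma LB.bdd {B : Set ℂ} {f : ℕ → ℂ → ℂ} (hf : LB B 1 f) {φ : ℂ → ℝ} (hφ : TF B φ) :
    ∃ C : ℝ, ∀ᶠ n in atTop, ‖∫ z, (φ z : ℂ) * f n z‖ ≤ C := by
  obtain ⟨C, hC⟩ := hf.bd _ hφ.2.1 hφ.2.2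
  obtain ⟨M, hM⟩ := hφ.2.1.exists_bound_of_continuousOn hφ.1.continuous.continuousOn
  refine ⟨|M| * C, hC.mono fun n hn => ?_⟩
  have e2 : ∫ z, (φ z : ℂ) * f n z = ∫ z in tsupport φ, (φ z : ℂ) * f n z := by
    refine (setIntegral_eq_integral_of_forall_compl_eq_zero (fun z hz => ?_)).symm
    rw [image_eq_zero_of_notMem_tsupport hz]; simp
  rw [e2]
  have c1 : IntegrableOn (fun z => ‖f n z‖ ^ 1) (tsupport φ) :=
    ((hf.copow n 1).mono hφ.2.2).integrableOn_compact hφ.2.1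
  refine (norm_integral_le_of_norm_le (g := fun z => |M| * ‖f n z‖ ^ 1) (c1.const_mul _) ?_).trans ?_
  · refine (ae_restrict_mem hφ.2.1.measurableSet).mono fun z hz => ?_
    rw [norm_mul, pow_one, norm_real]
    exact mul_le_mul_of_nonneg_right ((hM z hz).trans (le_abs_self M)) (norm_nonneg _)
  · rw [integral_const_mul]
    exact mul_le_mul_of_nonneg_left hn (abs_nonneg _)

/-- weakly null sequences -/
structure WN (B : Set ℂ) (f : ℕ → ℂ → ℂ) : Prop where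
  co : ∀ n, ContinuousOn (f n) B
  nul : ∀ φ, TF B φ → Null (fun n => ∫ z, (φ z : ℂ) * f n z)

lemma WN.congr {B : Set ℂ} {f g : ℕ → ℂ → ℂ} (h : WN B f) (e : ∀ n, ∀ z ∈ B, g n z = f n z) :
    WN B g := by
  refine ⟨fun n => (h.co n).congr (e n), fun φ hφ => (h.nul φ hφ).congr fun n => ?_⟩
  congr 1; funext z
  by_cases hz : z ∈ B
  · rw [e n z hz]
  · rw [TF.zero hφ hz]; simp

lemma WN.mono {B B' : Set ℂ} {f : ℕ → ℂ → ℂ} (h : WN B f) (hB : B' ⊆ B) : WN B' f :=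
  ⟨fun n => (h.co n).mono hB, fun φ hφ => h.nul φ ⟨hφ.1, hφ.2.1, hφ.2.2.trans hB⟩⟩

lemma WN.add {B : Set ℂ} {f g : ℕ → ℂ → ℂ} (hf : WN B f) (hg : WN B g) :
    WN B (fun n z => f n z + g n z) := by
  refine ⟨fun n => (hf.co n).add (hg.co n), fun φ hφ => ?_⟩
  have := Tendsto.add (hf.nul φ hφ) (hg.nul φ hφ)
  rw [add_zero] at this
  refine this.congr fun n => ?_
  rw [← integral_add (TF.cint hφ (hf.co n)) (TF.cint hφ (hg.co n))]
  congr 1; funext z; ring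

lemma WN.cmul {B : Set ℂ} {f : ℕ → ℂ → ℂ} (hf : WN B f) (c : ℂ) :
    WN B (fun n z => c * f n z) := by
  refine ⟨fun n => continuousOn_const.mul (hf.co n), fun φ hφ => ?_⟩
  have := Tendsto.const_mul c (hf.nul φ hφ)
  rw [mul_zero] at this
  refine this.congr fun n => ?_
  rw [← integral_const_mul]
  congr 1; funext z; ring

lemma WN.neg {B : Set ℂ} {f : ℕ → ℂ → ℂ} (hf : WN B f) : WN B (fun n z => - f n z) :=
  (hf.cmul (-1)).congr fun n z _ => by ring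

lemma WN.sub {B : Set ℂ} {f g : ℕ → ℂ → ℂ} (hf : WN B f) (hg : WN B g) :
    WN B (fun n z => f n z - g n z) := (hf.add hg.neg).congr fun n z _ => by ring

lemma LB.wn {B : Set ℂ} {f : ℕ → ℂ → ℂ} (hf : LB B 1 f) {h : ℕ → ℝ}
    (hh : Tendsto h atTop (𝓝 0)) : WN B (fun n z => (h n : ℂ) * f n z) := by
  refine ⟨fun n => continuousOn_const.mul (hf.co n), fun φ hφ => ?_⟩
  obtain ⟨C, hC⟩ := hf.bdd hφ
  have hl : Tendsto (fun n => |h n| * C) atTop (𝓝 0) := by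
    have := hh.abs.mul_const C
    rwa [abs_zero, zero_mul] at this
  refine squeeze_zero_norm' (hC.mono fun n hn => ?_) hl
  have e : ∫ z, (φ z : ℂ) * ((h n : ℂ) * f n z) = (h n : ℂ) * ∫ z, (φ z : ℂ) * f n z := by
    rw [← integral_const_mul]; congr 1; funext z; ring
  rw [e, norm_mul, norm_real, Real.norm_eq_abs]
  exact mul_le_mul_of_nonneg_left hn (abs_nonneg _)

/-- product of a test function and a smooth function -/
lemma TF.mulc {B : Set ℂ} (hB : IsOpen B) {φ a : ℂ → ℝ} (hφ : TF B φ) (ha : ContDiffOn ℝ ∞ a B) :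
    TF B (fun z => φ z * a z) := by
  refine ⟨?_, hφ.2.1.mul_right, ?_⟩
  · rw [contDiff_iff_contDiffAt]
    intro z
    by_cases hz : z ∈ B
    · exact hφ.1.contDiffAt.mul (ha.contDiffAt (hB.mem_nhds hz))
    · have h0 : φ =ᶠ[𝓝 z] 0 := notMem_tsupport_iff_eventuallyEq.1 (fun h => hz (hφ.2.2 h))
      have h1 : (fun z => φ z * a z) =ᶠ[𝓝 z] fun _ => 0 := by
        filter_upwards [h0] with w hw
        simp [hw]
      exact contDiffAt_const.congr_of_eventuallyEq h1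
  · refine (closure_mono ?_).trans hφ.2.2
    intro z hz
    exact left_ne_zero_of_mul hz

/-- integration by parts -/
lemma LB.parts {B : Set ℂ} (hB : IsOpen B) {G : ℕ → ℂ → ℂ} (hG : LB B 1 G) {h : ℕ → ℝ}
    (hh : Tendsto h atTop (𝓝 0)) {a : ℂ → ℝ} (ha : ContDiffOn ℝ ∞ a B) (v : ℂ) :
    WN B (fun n z => (h n : ℂ) * ((a z : ℂ) * fderiv ℝ (G n) z v)) := by
  have ha' : ContDiffOn ℝ ∞ (fun z => (a z : ℂ)) B := ofRealCLM.contDiff.comp_contDiffOn ha
  have hd : ∀ n, ContDiffOn ℝ ∞ (fun z => fderiv ℝ (G n) z v) B := fun n =>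
    ((hG.sm n).fderiv_of_isOpen hB (by simp)).clm_apply contDiffOn_const
  refine ⟨fun n => continuousOn_const.mul (ha'.continuousOn.mul (hd n).continuousOn),
    fun φ hφ => ?_⟩
  have t1 := TF.mulc hB hφ ha
  have t2 := Pool.Agent.W450.RW.T.tf_deriv t1 v
  have n1 := (hG.wn hh).nul _ t2
  have n2 := n1.neg
  rw [neg_zero] at n2
  refine n2.congr fun n => ?_
  have p := Pool.Agent.W450.RW.T.parts1 hB t1 (hG.sm n) v
  have e1 : ∫ z, (φ z : ℂ) * ((h n : ℂ) * ((a z : ℂ) * fderiv ℝ (G n) z v)) =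
      (h n : ℂ) * ∫ z, ((φ z * a z : ℝ) : ℂ) * fderiv ℝ (G n) z v := by
    rw [← integral_const_mul]; congr 1; funext z; push_cast; ring
  rw [e1, p, mul_neg, ← integral_const_mul]
  congr 2; funext z; ring

end

end Pool.Agent.TH294.RS
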