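import Pool.Agent.TH294.RS.Ell
import Pool.Agent.TH294.RS.Abs
import Pool.Agent.W98.RW.Bds

/-!
Project RS (helper294): sequences all of whose semiclassical derivatives are locally bounded
in `L⁴`.
-/

set_option autoImplicit false
open MeasureTheory Filter Topology Complex
open scoped ContDiff ENNReal

namespace Pool.Agent.TH294.RS

open Pool.Agent.W745.RW

noncomputable section

/-- the semiclassical derivative in the direction `v` -/
def hd (h : ℕ → ℝ) (v : ℂ) (f : ℕ → ℂ → ℂ) (n : ℕ) (z : ℂ) : ℂ := (h n : ℂ) * fderiv ℝ (f n) z v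

/-- semiclassical derivatives of order at most `k` are locally bounded in `L⁴` -/
def MK (B : Set ℂ) (h : ℕ → ℝ) : ℕ → (ℕ → ℂ → ℂ) → Prop
  | 0, f => LB B 4 f
  | (k + 1), f => LB B 4 f ∧ MK B h k (hd h 1 f) ∧ MK B h k (hd h I f)

variable {B : Set ℂ} {h : ℕ → ℝ}

lemma MK.lb {k : ℕ} {f : ℕ → ℂ → ℂ} (H : MK B h k f) : LB B 4 f := by
  cases k with
  | zero => exact H
  | succ k => exact H.1

lemma hd_congr (hB : IsOpen B) {f g : ℕ → ℂ → ℂ} (e : ∀ n, ∀ z ∈ B, g n z = f n z) (v : ℂ) :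
    ∀ n, ∀ z ∈ B, hd h v g n z = hd h v f n z := by
  intro n z hz
  simp only [hd]
  have : g n =ᶠ[𝓝 z] f n := by
    filter_upwards [hB.mem_nhds hz] with w hw
    exact e n w hw
  rw [this.fderiv_eq]

lemma MK.congr (hB : IsOpen B) {k : ℕ} : ∀ {f g : ℕ → ℂ → ℂ}, MK B h k f →
    (∀ n, ∀ z ∈ B, g n z = f n z) → MK B h k g := by
  induction k with
  | zero => intro f g H e; exact LB.congr H e
  | succ k ih =>
    intro f g H e
    exact ⟨H.1.congr e, ih H.2.1 (hd_congr hB e 1), ih H.2.2 (hd_congr hB e I)⟩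

lemma MK.down {k : ℕ} : ∀ {f : ℕ → ℂ → ℂ}, MK B h (k + 1) f → MK B h k f := by
  induction k with
  | zero => intro f H; exact H.1
  | succ k ih => intro f H; exact ⟨H.1, ih H.2.1, ih H.2.2⟩

lemma fda (hB : IsOpen B) {f : ℂ → ℂ} (hf : ContDiffOn ℝ ∞ f B) {z : ℂ} (hz : z ∈ B) :
    DifferentiableAt ℝ f z := (hf.contDiffAt (hB.mem_nhds hz)).differentiableAt (by simp)

lemma MK.add (hB : IsOpen B) {k : ℕ} : ∀ {f g : ℕ → ℂ → ℂ}, MK B h k f → MK B h k g →
    MK B h k (fun n z => f n z + g n z) := by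
  induction k with
  | zero => intro f g H G; exact LB.add H G
  | succ k ih =>
    intro f g H G
    have e : ∀ v, ∀ n, ∀ z ∈ B, hd h v (fun n z => f n z + g n z) n z =
        hd h v f n z + hd h v g n z := by
      intro v n z hz
      simp only [hd]
      rw [fderiv_fun_add (fda hB (H.1.sm n) hz) (fda hB (G.1.sm n) hz)]
      simp only [add_apply]; ring
    exact ⟨H.1.add G.1, (ih H.2.1 G.2.1).congr hB (e 1), (ih H.2.2 G.2.2).congr hB (e I)⟩

/-- multiplication by `h` -/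
lemma MK.hmul (hB : IsOpen B) (hh : Tendsto h atTop (𝓝 0)) {k : ℕ} : ∀ {f : ℕ → ℂ → ℂ},
    MK B h k f → MK B h k (fun n z => (h n : ℂ) * f n z) := by
  induction k with
  | zero => intro f H; exact LB.hmul H hh
  | succ k ih =>
    intro f H
    have e : ∀ v, ∀ n, ∀ z ∈ B, hd h v (fun n z => (h n : ℂ) * f n z) n z =
        (h n : ℂ) * hd h v f n z := by
      intro v n z hz
      simp only [hd]
      rw [fderiv_const_mul (fda hB (H.1.sm n) hz)]
      simp only [smul_apply, smul_eq_mul]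
    exact ⟨H.1.hmul hh, (ih H.2.1).congr hB (e 1), (ih H.2.2).congr hB (e I)⟩

/-- multiplication by a fixed smooth function -/
lemma MK.smulc (hB : IsOpen B) (hh : Tendsto h atTop (𝓝 0)) {k : ℕ} : ∀ {f : ℕ → ℂ → ℂ}
    {c : ℂ → ℂ}, MK B h k f → ContDiffOn ℝ ∞ c B → MK B h k (fun n z => c z * f n z) := by
  induction k with
  | zero => intro f c H hc; exact LB.smulc H hc
  | succ k ih =>
    intro f c H hc
    have e : ∀ v, ∀ n, ∀ z ∈ B, hd h v (fun n z => c z * f n z) n z =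
        c z * hd h v f n z + fderiv ℝ c z v * ((h n : ℂ) * f n z) := by
      intro v n z hz
      simp only [hd]
      rw [fderiv_fun_mul (fda hB hc hz) (fda hB (H.1.sm n) hz)]
      simp only [add_apply, smul_apply, smul_eq_mul]; ring
    have hc' : ∀ v, ContDiffOn ℝ ∞ (fun z => fderiv ℝ c z v) B := fun v =>
      Pool.Agent.W98.RW.cd_fderiv hB hc v
    have hf : MK B h k (fun n z => (h n : ℂ) * f n z) := (MK.down H).hmul hB hh
    exact ⟨H.1.smulc hc, ((ih H.2.1 hc).add hB (ih hf (hc' 1))).congr hB (e 1),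
      ((ih H.2.2 hc).add hB (ih hf (hc' I))).congr hB (e I)⟩

lemma MK.cmul (hB : IsOpen B) (hh : Tendsto h atTop (𝓝 0)) {k : ℕ} {f : ℕ → ℂ → ℂ}
    (H : MK B h k f) (c : ℂ) : MK B h k (fun n z => c * f n z) :=
  H.smulc hB hh (c := fun _ => c) contDiffOn_const

lemma MK.neg (hB : IsOpen B) (hh : Tendsto h atTop (𝓝 0)) {k : ℕ} {f : ℕ → ℂ → ℂ}
    (H : MK B h k f) : MK B h k (fun n z => - f n z) :=
  (H.cmul hB hh (-1)).congr hB fun n z _ => by ring

lemma MK.sub (hB : IsOpen B) (hh : Tendsto h atTop (𝓝 0)) {k : ℕ} {f g : ℕ → ℂ → ℂ}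
    (H : MK B h k f) (G : MK B h k g) : MK B h k (fun n z => f n z - g n z) :=
  (H.add hB (G.neg hB hh)).congr hB fun n z _ => by ring

lemma LB.conj {p : ℕ} {f : ℕ → ℂ → ℂ} (hf : LB B p f) :
    LB B p (fun n z => (starRingEnd ℂ) (f n z)) := by
  refine ⟨fun n => conjCLE.contDiff.comp_contDiffOn (hf.sm n), fun K hK hKB => ?_⟩
  obtain ⟨C, hC⟩ := hf.bd K hK hKB
  refine ⟨C, hC.mono fun n hn => ?_⟩
  simpa only [RCLike.norm_conj] using hn

lemma fd_conj {f : ℂ → ℂ} {z : ℂ} (hf : DifferentiableAt ℝ f z) (v : ℂ) :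
    fderiv ℝ (fun z => (starRingEnd ℂ) (f z)) z v = (starRingEnd ℂ) (fderiv ℝ f z v) := by
  have h1 : HasFDerivAt (fun z => conjCLE (f z))
      ((conjCLE : ℂ →L[ℝ] ℂ).comp (fderiv ℝ f z)) z :=
    (conjCLE : ℂ →L[ℝ] ℂ).hasFDerivAt.comp z hf.hasFDerivAt
  have h2 : (fun z => (starRingEnd ℂ) (f z)) = fun z => conjCLE (f z) := rfl
  rw [h2, h1.fderiv]; rfl

lemma MK.conj (hB : IsOpen B) {k : ℕ} : ∀ {f : ℕ → ℂ → ℂ},
    MK B h k f → MK B h k (fun n z => (starRingEnd ℂ) (f n z)) := by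
  induction k with
  | zero => intro f H; exact LB.conj H
  | succ k ih =>
    intro f H
    have e : ∀ v, ∀ n, ∀ z ∈ B, hd h v (fun n z => (starRingEnd ℂ) (f n z)) n z =
        (starRingEnd ℂ) (hd h v f n z) := by
      intro v n z hz
      simp only [hd]
      rw [fd_conj (fda hB (H.1.sm n) hz), map_mul, conj_ofReal]
    exact ⟨H.1.conj, (ih H.2.1).congr hB (e 1), (ih H.2.2).congr hB (e I)⟩

/-- `h²Δ` -/
def hL (h : ℕ → ℝ) (f : ℕ → ℂ → ℂ) (n : ℕ) (z : ℂ) : ℂ := ((h n : ℂ) ^ 2) * lap (f n) z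

lemma fd_cm {f : ℂ → ℂ} {z : ℂ} (hf : DifferentiableAt ℝ f z) (c : ℂ) (v : ℂ) :
    fderiv ℝ (fun w => c * f w) z v = c * fderiv ℝ f z v := by
  rw [fderiv_const_mul hf]; simp only [smul_apply, smul_eq_mul]

/-- complex commutation of derivatives -/
lemma fd_comm (hB : IsOpen B) {f : ℂ → ℂ} (hf : ContDiffOn ℝ ∞ f B) {z : ℂ}
    (hz : z ∈ B) (a b : ℂ) : fderiv ℝ (fun w => fderiv ℝ f w b) z a =
      fderiv ℝ (fun w => fderiv ℝ f w a) z b := by
  have hfa : ContDiffAt ℝ ∞ f z := hf.contDiffAt (hB.mem_nhds hz)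
  have hs : IsSymmSndFDerivAt ℝ f z := hfa.isSymmSndFDerivAt (by
    simp only [minSmoothness_of_isRCLikeNormedField]
    exact (WithTop.coe_le_coe.mpr (le_top : (2 : ℕ∞) ≤ ⊤) :
      ((2 : ℕ∞) : WithTop ℕ∞) ≤ ((⊤ : ℕ∞) : WithTop ℕ∞)))
  have hd : DifferentiableAt ℝ (fderiv ℝ f) z := by
    have h1 : ContDiffOn ℝ ∞ (fderiv ℝ f) B := hf.fderiv_of_isOpen hB (by simp)
    exact (h1.contDiffAt (hB.mem_nhds hz)).differentiableAt (by simp)
  have key : ∀ p q : ℂ, fderiv ℝ (fun w => fderiv ℝ f w q) z p = fderiv ℝ (fderiv ℝ f) z p q := by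
    intro p q
    rw [fderiv_clm_apply hd (differentiableAt_const q)]
    simp
  rw [key, key]
  exact hs a b

lemma cfd (hB : IsOpen B) {f : ℂ → ℂ} (hf : ContDiffOn ℝ ∞ f B) (v : ℂ) :
    ContDiffOn ℝ ∞ (fun z => fderiv ℝ f z v) B := Pool.Agent.W98.RW.cd_fderiv hB hf v

lemma clap (hB : IsOpen B) {f : ℂ → ℂ} (hf : ContDiffOn ℝ ∞ f B) :
    ContDiffOn ℝ ∞ (lap f) B := (cfd hB (cfd hB hf 1) 1).add (cfd hB (cfd hB hf I) I)

lemma fd_cg (hB : IsOpen B) {f g : ℂ → ℂ} (e : ∀ z ∈ B, f z = g z) {z : ℂ} (hz : z ∈ B) (v : ℂ) :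
    fderiv ℝ f z v = fderiv ℝ g z v := by
  have : f =ᶠ[𝓝 z] g := by
    filter_upwards [hB.mem_nhds hz] with w hw
    exact e w hw
  rw [this.fderiv_eq]

lemma hL_hd (hB : IsOpen B) {f : ℕ → ℂ → ℂ} (hf : ∀ n, ContDiffOn ℝ ∞ (f n) B) (v : ℂ) :
    ∀ n, ∀ z ∈ B, hL h (hd h v f) n z = hd h v (hL h f) n z := by
  intro n z hz
  have s := hf n
  have c3 : ∀ b : ℂ, fderiv ℝ (fun w => fderiv ℝ (hd h v f n) w b) z b =
      (h n : ℂ) * fderiv ℝ (fun w => fderiv ℝ (fun w => fderiv ℝ (f n) w b) w b) z v := by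
    intro b
    have e1 : ∀ w ∈ B, fderiv ℝ (hd h v f n) w b =
        (h n : ℂ) * fderiv ℝ (fun w => fderiv ℝ (f n) w b) w v := by
      intro w hw
      have : hd h v f n = fun w => (h n : ℂ) * fderiv ℝ (f n) w v := rfl
      rw [this, fd_cm (fda hB (cfd hB s v) hw), fd_comm hB s hw]
    rw [fd_cg hB e1 hz, fd_cm (fda hB (cfd hB (cfd hB s b) v) hz),
      fd_comm hB (cfd hB s b) hz]
  have e0 : hL h (hd h v f) n z = (h n : ℂ) ^ 2 *
      (fderiv ℝ (fun w => fderiv ℝ (hd h v f n) w 1) z 1 +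
       fderiv ℝ (fun w => fderiv ℝ (hd h v f n) w I) z I) := rfl
  have e2 : fderiv ℝ (hL h f n) z v = (h n : ℂ) ^ 2 * fderiv ℝ (lap (f n)) z v := by
    have : hL h f n = fun w => (h n : ℂ) ^ 2 * lap (f n) w := rfl
    rw [this, fd_cm (fda hB (clap hB s) hz)]
  have e3 : fderiv ℝ (lap (f n)) z v =
      fderiv ℝ (fun w => fderiv ℝ (fun w => fderiv ℝ (f n) w 1) w 1) z v +
      fderiv ℝ (fun w => fderiv ℝ (fun w => fderiv ℝ (f n) w I) w I) z v := by
    have : lap (f n) = fun w => fderiv ℝ (fun w => fderiv ℝ (f n) w 1) w 1 +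
      fderiv ℝ (fun w => fderiv ℝ (f n) w I) w I := rfl
    rw [this, fderiv_fun_add (fda hB (cfd hB (cfd hB s 1) 1) hz)
      (fda hB (cfd hB (cfd hB s I) I) hz)]
    simp only [add_apply]
  rw [e0, c3, c3]
  simp only [hd]
  rw [e2, e3]; ring

/-- the elliptic estimate for complex sequences -/
lemma LB.grad (hB : IsOpen B) (hp : ∀ n, 0 < h n) (hh : Tendsto h atTop (𝓝 0)) {f : ℕ → ℂ → ℂ}
    (hf : LB B 4 f) (hg : LB B 4 (hL h f)) {v : ℂ}
    (hv : ∀ (g : ℂ → ℝ) (z : ℂ), fderiv ℝ g z v ^ 2 ≤ dx g z ^ 2 + dy g z ^ 2) :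
    LB B 4 (hd h v f) := by
  obtain ⟨C, hC0, hC⟩ := ell
  have hsm : ∀ n, ContDiffOn ℝ ∞ (hd h v f n) B := fun n =>
    contDiffOn_const.mul (cfd hB (hf.sm n) v)
  refine ⟨hsm, fun K hK hKB => ?_⟩
  obtain ⟨δ, hδ, hδB⟩ := hK.exists_cthickening_subset_open hB hKB
  set K' := Metric.cthickening δ K with hK'
  have hK'c : IsCompact K' := hK.cthickening
  obtain ⟨C1, hC1⟩ := hf.bd K' hK'c hδB
  obtain ⟨C2, hC2⟩ := hg.bd K' hK'c hδB
  refine ⟨16 * (C * (C1 + C2)), ?_⟩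
  have hsmall : ∀ᶠ n in atTop, 5 * h n ≤ δ := by
    have : Tendsto (fun n => 5 * h n) atTop (𝓝 (5 * 0)) := hh.const_mul 5
    rw [mul_zero] at this
    exact (this.eventually (eventually_le_nhds hδ))
  filter_upwards [hC1, hC2, hsmall] with n h1 h2 h3
  have hth : Metric.cthickening (5 * h n) K ⊆ K' := Metric.cthickening_mono h3 K
  have s := hf.sm n
  have key : ∀ L : ℂ →L[ℝ] ℝ, (∀ w, |L w| ≤ ‖w‖) →
      ∫ z in K, (h n ^ 2 * (dx (fun w => L (f n w)) z ^ 2 + dy (fun w => L (f n w)) z ^ 2)) ^ 2 ≤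
        C * (C1 + C2) := by
    intro L hL'
    have sL : ContDiffOn ℝ ∞ (fun w => L (f n w)) B := L.contDiff.comp_contDiffOn s
    refine (hC B K K' hB hK hK'c hδB (h n) _ (hp n) sL hth).trans ?_
    have c1 : ContinuousOn (fun z => (L (f n z)) ^ 4 + (h n ^ 2 * lap (fun w => L (f n w)) z) ^ 4)
        K' :=
      ((sL.continuousOn.pow 4).add
        ((continuousOn_const.mul (sm_lap hB sL).continuousOn).pow 4)).mono hδB
    have := intK_lin hK'c zero_le_one c1 ((hf.copow n 4).mono hδB) ((hg.copow n 4).mono hδB)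
      (fun z hz => by
        have hzB := hδB hz
        have e1 : lap (fun w => L (f n w)) z = L (lap (f n) z) :=
          Pool.Agent.W98.RW.L_lap L hB s hzB
        have e2 : h n ^ 2 * L (lap (f n) z) = L (hL h f n z) := by
          have : hL h f n z = (h n ^ 2) • lap (f n) z := by
            rw [Complex.real_smul]; simp only [hL]; push_cast; rfl
          rw [this, map_smul, smul_eq_mul]
        rw [e1, e2, one_mul]
        have p : ∀ w : ℂ, (L w) ^ 4 ≤ ‖w‖ ^ 4 := by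
          intro w
          calc (L w) ^ 4 = |L w| ^ 4 := by rw [Even.pow_abs (by decide)]
            _ ≤ ‖w‖ ^ 4 := pow_le_pow_left₀ (abs_nonneg _) (hL' w) 4
        exact add_le_add (p _) (p _)) h1 h2
    rw [one_mul] at this
    exact mul_le_mul_of_nonneg_left this hC0
  have k1 := key reCLM (fun w => by simpa using abs_re_le_norm w)
  have k2 := key imCLM (fun w => by simpa using abs_im_le_norm w)
  have cF : ∀ L : ℂ →L[ℝ] ℝ, ContinuousOn (fun z => (h n ^ 2 * (dx (fun w => L (f n w)) z ^ 2 +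
      dy (fun w => L (f n w)) z ^ 2)) ^ 2) K := by
    intro L
    have sL : ContDiffOn ℝ ∞ (fun w => L (f n w)) B := L.contDiff.comp_contDiffOn s
    have c1 : ContinuousOn (dx (fun w => L (f n w))) K :=
      (Pool.Agent.W98.RW.cd_fderiv hB sL 1).continuousOn.mono hKB
    have c2 : ContinuousOn (dy (fun w => L (f n w))) K :=
      (Pool.Agent.W98.RW.cd_fderiv hB sL I).continuousOn.mono hKB
    exact (continuousOn_const.mul ((c1.pow 2).add (c2.pow 2))).pow 2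
  have c3 : ContinuousOn (fun z => ‖hd h v f n z‖ ^ 4) K :=
    ((hsm n).continuousOn.norm.pow 4).mono hKB
  have fin := intK_lin hK (by norm_num : (0 : ℝ) ≤ 8) c3 (cF reCLM) (cF imCLM)
    (fun z hz => by
      have hzB := hKB hz
      have d := fda hB s hzB
      have e1 : fderiv ℝ (fun w => reCLM (f n w)) z v = (fderiv ℝ (f n) z v).re :=
        Pool.Agent.W98.RW.L_fderiv reCLM d v
      have e2 : fderiv ℝ (fun w => imCLM (f n w)) z v = (fderiv ℝ (f n) z v).im :=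
        Pool.Agent.W98.RW.L_fderiv imCLM d v
      have b1 := hv (fun w => reCLM (f n w)) z
      have b2 := hv (fun w => imCLM (f n w)) z
      rw [e1] at b1
      rw [e2] at b2
      set p := dx (fun w => reCLM (f n w)) z ^ 2 + dy (fun w => reCLM (f n w)) z ^ 2
      set q := dx (fun w => imCLM (f n w)) z ^ 2 + dy (fun w => imCLM (f n w)) z ^ 2
      have e3 : ‖hd h v f n z‖ ^ 2 = h n ^ 2 * ((fderiv ℝ (f n) z v).re ^ 2 +
          (fderiv ℝ (f n) z v).im ^ 2) := by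
        simp only [hd]
        rw [norm_mul, mul_pow, Complex.sq_norm (fderiv ℝ (f n) z v), normSq_apply,
          Complex.norm_real, Real.norm_eq_abs, sq_abs]
        ring
      have e4 : ‖hd h v f n z‖ ^ 2 ≤ h n ^ 2 * p + h n ^ 2 * q := by
        rw [e3, ← mul_add]
        exact mul_le_mul_of_nonneg_left (add_le_add b1 b2) (sq_nonneg _)
      have e5 : ‖hd h v f n z‖ ^ 4 = (‖hd h v f n z‖ ^ 2) ^ 2 := by ring
      rw [e5]
      refine (pow_le_pow_left₀ (by positivity) e4 2).trans ?_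
      nlinarith [sq_nonneg (h n ^ 2 * p - h n ^ 2 * q), sq_nonneg (h n ^ 2 * p),
        sq_nonneg (h n ^ 2 * q)]) k1 k2
  linarith

lemma dir1 (g : ℂ → ℝ) (z : ℂ) : fderiv ℝ g z 1 ^ 2 ≤ dx g z ^ 2 + dy g z ^ 2 := by
  change dx g z ^ 2 ≤ _
  nlinarith [sq_nonneg (dy g z)]
lemma dirI (g : ℂ → ℝ) (z : ℂ) : fderiv ℝ g z I ^ 2 ≤ dx g z ^ 2 + dy g z ^ 2 := by
  change dy g z ^ 2 ≤ _
  nlinarith [sq_nonneg (dx g z)]

/-- elliptic regularity in the class -/
lemma MK.ell (hB : IsOpen B) (hp : ∀ n, 0 < h n) (hh : Tendsto h atTop (𝓝 0)) {k : ℕ} :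
    ∀ {f : ℕ → ℂ → ℂ}, MK B h k f → MK B h k (hL h f) → MK B h (k + 1) f := by
  induction k with
  | zero =>
    intro f H G
    exact ⟨H, LB.grad hB hp hh H G dir1, LB.grad hB hp hh H G dirI⟩
  | succ k ih =>
    intro f H G
    refine ⟨H.1, ih H.2.1 (G.2.1.congr hB (hL_hd hB H.1.sm 1)),
      ih H.2.2 (G.2.2.congr hB (hL_hd hB H.1.sm I))⟩

/-- all derivatives of solutions are bounded -/
theorem MK.sol (hB : IsOpen B) (hp : ∀ n, 0 < h n) (hh : Tendsto h atTop (𝓝 0))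
    {f : ℕ → ℂ → ℂ} (hf : LB B 4 f) {ρ : ℂ → ℂ} (hρ : ContDiffOn ℝ ∞ ρ B)
    (he : ∀ n, ∀ z ∈ B, hL h f n z = - (ρ z * f n z)) (k : ℕ) : MK B h k f := by
  induction k with
  | zero => exact hf
  | succ k ih =>
    exact ih.ell hB hp hh (((ih.smulc hB hh hρ).neg hB hh).congr hB he)

end

end Pool.Agent.TH294.RS
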